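import Pool.Agent.H89.P2.Ri
import Pool.Agent.H11.PT.Defs

/-!
[H89 P2 TR]  Arithmetic translation: the weights at `kk x δ n`, `δ = a/J`.

`pos_imp`: if `n ≤ x^(1+1/1000)` is squarefree, has no prime factor below `x^a` and the weight is positive,
then `n` has at most two prime factors, and `n < p^8` for all prime factors `p`.
`bound_kk`: the weight is at most `2 exp(2/a)` in absolute value for all `n ≤ x^(1+1/1000)`.
-/

namespace Pool.Agent.H89.P2

open Pool.Agent.H11.PT Finset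

theorem mem_cell {x δ : ℝ} {j p : ℕ} : p ∈ cell x δ j ↔
    p.Prime ∧ x ^ ((j : ℝ) * δ) ≤ (p : ℝ) ∧ (p : ℝ) < x ^ (((j : ℝ) + 1) * δ) := by
  unfold cell
  rw [mem_filter, mem_range, Nat.lt_ceil]
  tauto

theorem cell_disj' {x δ : ℝ} (hx : 1 < x) (hδ : 0 < δ) {i j : ℕ} (h : i ≠ j) :
    Disjoint (cell x δ i) (cell x δ j) := by
  have key : ∀ i j : ℕ, i < j → Disjoint (cell x δ i) (cell x δ j) := by
    intro i j hij
    rw [Finset.disjoint_left]
    intro p hp hq
    rw [mem_cell] at hp hq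
    have h1 : x ^ (((i : ℝ) + 1) * δ) ≤ x ^ ((j : ℝ) * δ) := by
      apply Real.rpow_le_rpow_of_exponent_le hx.le
      apply mul_le_mul_of_nonneg_right _ hδ.le
      exact_mod_cast hij
    linarith [hp.2.2, hq.2.1]
  rcases Nat.lt_or_gt_of_ne h with h | h
  · exact key i j h
  · exact (key j i h).symm

/-- every prime lies in a box -/
theorem exists_cell {x δ : ℝ} (hx : 1 < x) (hδ : 0 < δ) {p : ℕ} (hp : p.Prime) :
    ∃ j : ℕ, p ∈ cell x δ j ∧ (j : ℝ) * δ * Real.log x ≤ Real.log p := by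
  have hL : 0 < Real.log x := Real.log_pos hx
  have hp1 : (1 : ℝ) < p := by exact_mod_cast hp.one_lt
  have hlp : 0 ≤ Real.log p := Real.log_nonneg hp1.le
  have hx0 : 0 < x := by linarith
  set t := Real.log p / (δ * Real.log x) with ht
  have ht0 : 0 ≤ t := by positivity
  have h1 : (⌊t⌋₊ : ℝ) ≤ t := Nat.floor_le ht0
  have h2 : t < ⌊t⌋₊ + 1 := Nat.lt_floor_add_one t
  have h3 : (⌊t⌋₊ : ℝ) * δ * Real.log x ≤ Real.log p := by
    rw [ht, le_div_iff₀ (by positivity)] at h1
    rw [← ht] at h1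
    linarith
  have h4 : Real.log p < ((⌊t⌋₊ : ℝ) + 1) * δ * Real.log x := by
    rw [ht, div_lt_iff₀ (by positivity)] at h2
    rw [← ht] at h2
    linarith
  refine ⟨⌊t⌋₊, ?_, h3⟩
  rw [mem_cell]
  refine ⟨hp, ?_, ?_⟩
  · rw [Real.rpow_def_of_pos hx0, ← Real.le_log_iff_exp_le (by linarith)]
    linarith
  · rw [Real.rpow_def_of_pos hx0, ← Real.log_lt_iff_lt_exp (by linarith)]
    linarith

theorem cell_log {x δ : ℝ} (hx : 1 < x) {j p : ℕ} (h : p ∈ cell x δ j) :
    (j : ℝ) * δ * Real.log x ≤ Real.log p := by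
  rw [mem_cell] at h
  have hx0 : 0 < x := by linarith
  have hp : (0 : ℝ) < p := by exact_mod_cast h.1.pos
  have h1 := Real.log_le_log (by positivity) h.2.1
  rw [Real.log_rpow hx0] at h1
  exact h1

/-- the sizes of the boxes of the primes of `n` sum up to at most `log n / log x` -/
theorem sum_size {x δ : ℝ} (hx : 1 < x) (hδ : 0 < δ) {n : ℕ} (hn : 0 < n) (s : Finset ℕ) :
    (∑ j ∈ s, (kk x δ n j : ℝ) * j) * δ * Real.log x ≤ Real.log n := by
  have h1 : (∑ j ∈ s, (kk x δ n j : ℝ) * j) * δ * Real.log x ≤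
      ∑ j ∈ s, ∑ p ∈ (cell x δ j).filter (· ∣ n), Real.log p := by
    rw [Finset.sum_mul, Finset.sum_mul]
    apply Finset.sum_le_sum
    intro j _
    have h2 : ∑ _p ∈ (cell x δ j).filter (· ∣ n), ((j : ℝ) * δ * Real.log x) ≤
        ∑ p ∈ (cell x δ j).filter (· ∣ n), Real.log p := by
      apply Finset.sum_le_sum
      intro p hp
      exact cell_log hx (mem_filter.1 hp).1
    rw [Finset.sum_const, nsmul_eq_mul] at h2
    unfold kk
    linarith
  refine h1.trans ?_
  classical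
  rw [← Finset.sum_biUnion]
  · have h2 : ∑ p ∈ s.biUnion (fun j => (cell x δ j).filter (· ∣ n)), Real.log p ≤
        ∑ p ∈ n.primeFactors, Real.log p := by
      apply Finset.sum_le_sum_of_subset_of_nonneg
      · intro p hp
        rw [mem_biUnion] at hp
        obtain ⟨j, _, hp⟩ := hp
        rw [mem_filter, mem_cell] at hp
        rw [Nat.mem_primeFactors]
        exact ⟨hp.1.1, hp.2, hn.ne'⟩
      · intro p hp _
        apply Real.log_nonneg
        exact_mod_cast (Nat.prime_of_mem_primeFactors hp).one_lt.le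
    refine h2.trans ?_
    rw [← Real.log_prod (fun p hp => by
      have := (Nat.prime_of_mem_primeFactors hp).pos
      positivity)]
    apply Real.log_le_log
    · apply Finset.prod_pos
      intro p hp
      exact_mod_cast (Nat.prime_of_mem_primeFactors hp).pos
    · have h3 : (∏ p ∈ n.primeFactors, p) ∣ n := Nat.prod_primeFactors_dvd n
      have h4 := Nat.le_of_dvd hn h3
      have h5 : ((∏ p ∈ n.primeFactors, p : ℕ) : ℝ) ≤ n := by exact_mod_cast h4
      rw [Nat.cast_prod] at h5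
      exact h5
  · intro i _ j _ hij
    show Disjoint _ _
    exact Finset.disjoint_filter_filter (cell_disj' hx hδ hij)

theorem kk_pos {x δ : ℝ} {n j p : ℕ} (hp : p ∈ cell x δ j) (hpn : p ∣ n) : kk x δ n j ≠ 0 := by
  unfold kk
  rw [Finset.card_ne_zero]
  exact ⟨p, mem_filter.2 ⟨hp, hpn⟩⟩

/-- all prime factors are counted -/
theorem card_le_sum {x δ : ℝ} (hx : 1 < x) (hδ : 0 < δ) {n : ℕ} (B : ℕ)
    (hB : ∀ p, p.Prime → p ∣ n → ∀ j, p ∈ cell x δ j → j < B) :
    n.primeFactors.card ≤ ∑ j ∈ range B, kk x δ n j := by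
  classical
  have h1 : n.primeFactors ⊆ (range B).biUnion (fun j => (cell x δ j).filter (· ∣ n)) := by
    intro p hp
    have hpp := Nat.prime_of_mem_primeFactors hp
    have hpn := Nat.dvd_of_mem_primeFactors hp
    obtain ⟨j, hj, _⟩ := exists_cell hx hδ hpp
    rw [mem_biUnion]
    exact ⟨j, mem_range.2 (hB p hpp hpn j hj), mem_filter.2 ⟨hj, hpn⟩⟩
  exact (Finset.card_le_card h1).trans card_biUnion_le

theorem pos_imp (a : ℝ) (ha : 0 < a) (J : ℕ) (hJ : 0 < J) (hδs : a / J ≤ 1 / 1000)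
    (W : List (ℝ × List ℕ × List ℕ))
    (h3 : ∀ (k : ℕ → ℕ) (B : ℕ), (∀ j, j < J → k j = 0) → 3 ≤ ∑ j ∈ range B, k j →
      (∑ j ∈ range B, (k j : ℝ) * j) * (a / J) ≤ 1 + 1 / 1000 → ev2 W k ≤ 0)
    (h4 : ∀ (k : ℕ → ℕ) (j : ℕ), J ≤ j → k j ≠ 0 → ((j : ℝ) + 1) * (a / J) ≤ 137 / 1000 →
      ev2 W k ≤ 0) :
    ∃ x0 : ℝ, ∀ x ≥ x0, ∀ n : ℕ, 0 < n → (n : ℝ) ≤ x ^ (1 + 1 / 1000 : ℝ) →
      (∀ p, p.Prime → p ∣ n → x ^ a ≤ (p : ℝ)) → Squarefree n →
      0 < ev2 W (kk x (a / J) n) →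
      n.primeFactorsList.length ≤ 2 ∧ ∀ p, p.Prime → p ∣ n → n < p ^ 8 := by
  have hJ0 : (0 : ℝ) < J := by exact_mod_cast hJ
  set δ := a / (J : ℝ) with hδ
  have hδ0 : 0 < δ := by positivity
  have hJδ : (J : ℝ) * δ = a := by
    rw [hδ]
    field_simp
  refine ⟨Real.exp 10000, ?_⟩
  intro x hx n hn hnx hrough hsq hpos
  have hx1 : 1 < x := lt_of_lt_of_le (by
    have := Real.add_one_le_exp (10000 : ℝ)
    linarith) hx
  have hx0 : 0 < x := by linarith
  have hL : 10000 ≤ Real.log x := by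
    rw [Real.le_log_iff_exp_le hx0]
    exact hx
  have hL0 : 0 < Real.log x := by linarith
  have hn0 : (0 : ℝ) < n := by exact_mod_cast hn
  have hlogn : Real.log n ≤ (1 + 1 / 1000) * Real.log x := by
    have h1 := Real.log_le_log hn0 hnx
    rw [Real.log_rpow hx0] at h1
    exact h1
  have hkJ : ∀ j, j < J → kk x δ n j = 0 := by
    intro j hj
    unfold kk
    rw [Finset.card_eq_zero, Finset.filter_eq_empty_iff]
    intro p hp hpn
    rw [mem_cell] at hp
    have h1 := hrough p hp.1 hpn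
    have h2 : x ^ (((j : ℝ) + 1) * δ) ≤ x ^ a := by
      apply Real.rpow_le_rpow_of_exponent_le hx1.le
      rw [← hJδ]
      apply mul_le_mul_of_nonneg_right _ hδ0.le
      exact_mod_cast hj
    linarith [hp.2.2]
  obtain ⟨B, hB⟩ := exists_nat_gt ((1 + 1 / 1000) * Real.log x / (δ * Real.log x))
  have hBj : ∀ p, p.Prime → p ∣ n → ∀ j, p ∈ cell x δ j → j < B := by
    intro p hp hpn j hj
    have h1 := cell_log hx1 hj
    have h2 : Real.log p ≤ Real.log n := by
      apply Real.log_le_log (by exact_mod_cast hp.pos)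
      exact_mod_cast Nat.le_of_dvd hn hpn
    have h5 : (j : ℝ) ≤ (1 + 1 / 1000) * Real.log x / (δ * Real.log x) := by
      rw [le_div_iff₀ (by positivity)]
      linarith
    exact_mod_cast lt_of_le_of_lt h5 hB
  have hcard := card_le_sum hx1 hδ0 B hBj
  have hnodup : n.primeFactorsList.Nodup := (Nat.squarefree_iff_nodup_primeFactorsList hn.ne').1 hsq
  have hlen : n.primeFactorsList.length = n.primeFactors.card := by
    unfold Nat.primeFactors
    rw [List.toFinset_card_of_nodup hnodup]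
  constructor
  · by_contra hcon
    rw [not_le, hlen] at hcon
    have h5 : 3 ≤ ∑ j ∈ range B, kk x δ n j := by omega
    have h6 := sum_size hx1 hδ0 hn (range B)
    have h7 : (∑ j ∈ range B, (kk x δ n j : ℝ) * j) * δ ≤ 1 + 1 / 1000 := by
      by_contra h8
      rw [not_le] at h8
      have h9 := mul_lt_mul_of_pos_right h8 hL0
      linarith
    have h8 := h3 (kk x δ n) B hkJ h5 h7
    linarith
  · intro p hp hpn
    obtain ⟨j, hj, _⟩ := exists_cell hx1 hδ0 hp
    have hkj := kk_pos hj hpn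
    have hJj : J ≤ j := by
      by_contra h5
      rw [not_le] at h5
      exact hkj (hkJ j h5)
    have h5 : 137 / 1000 < ((j : ℝ) + 1) * δ := by
      by_contra h6
      rw [not_lt] at h6
      have := h4 (kk x δ n) j hJj hkj h6
      linarith
    have h6 : 136 / 1000 ≤ (j : ℝ) * δ := by linarith
    have h7 := cell_log hx1 hj
    have hp0 : (0 : ℝ) < p := by exact_mod_cast hp.pos
    have h8 : 136 / 1000 * Real.log x ≤ Real.log p := by
      have := mul_le_mul_of_nonneg_right h6 hL0.le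
      linarith
    have h9 : Real.log n < Real.log ((p : ℝ) ^ 8) := by
      rw [Real.log_pow]
      push_cast
      linarith
    have h10 : (n : ℝ) < (p : ℝ) ^ 8 := by
      rw [← Real.log_lt_log_iff hn0 (by positivity)]
      exact h9
    exact_mod_cast h10

/-- the value depends on the boxes of the patterns only -/
theorem ev2_congr (W : List (ℝ × List ℕ × List ℕ)) (J : ℕ) (hW : ∀ w ∈ W, ∀ j ∈ w.2.1 ++ w.2.2, J ≤ j)
    (k k' : ℕ → ℕ) (hk : ∀ j, J ≤ j → k j = k' j) : ev2 W k = ev2 W k' := by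
  unfold ev2
  congr 1
  apply List.map_congr_left
  intro w hw
  congr 1
  unfold mono
  apply Finset.prod_congr rfl
  intro j hj
  rw [hk j (hW w hw j (List.mem_toFinset.1 hj))]

theorem bound_kk (a : ℝ) (ha : 0 < a) (J : ℕ) (hJ : 0 < J) (W : List (ℝ × List ℕ × List ℕ))
    (hW : ∀ w ∈ W, ∀ j ∈ w.2.1 ++ w.2.2, J ≤ j)
    (h5 : ∀ (k : ℕ → ℕ) (B : ℕ), (∀ j, B ≤ j → k j = 0) →
      |ev2 W k| ≤ 2 * Real.exp (∑ j ∈ range B, (k j : ℝ))) :
    ∃ x0 : ℝ, ∀ x ≥ x0, ∀ n : ℕ, 0 < n → (n : ℝ) ≤ x ^ (1 + 1 / 1000 : ℝ) →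
      |ev2 W (kk x (a / J) n)| ≤ 2 * Real.exp (2 / a) := by
  have hJ0 : (0 : ℝ) < J := by exact_mod_cast hJ
  set δ := a / (J : ℝ) with hδ
  have hδ0 : 0 < δ := by positivity
  have hJδ : (J : ℝ) * δ = a := by
    rw [hδ]
    field_simp
  refine ⟨Real.exp 3, ?_⟩
  intro x hx n hn hnx
  have hx1 : 1 < x := lt_of_lt_of_le (by
    have := Real.add_one_le_exp (3 : ℝ)
    linarith) hx
  have hx0 : 0 < x := by linarith
  have hL : 3 ≤ Real.log x := by
    rw [Real.le_log_iff_exp_le hx0]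
    exact hx
  have hL0 : 0 < Real.log x := by linarith
  have hn0 : (0 : ℝ) < n := by exact_mod_cast hn
  have hlogn : Real.log n ≤ (1 + 1 / 1000) * Real.log x := by
    have h1 := Real.log_le_log hn0 hnx
    rw [Real.log_rpow hx0] at h1
    exact h1
  set k' : ℕ → ℕ := fun j => if J ≤ j then kk x δ n j else 0 with hk'
  rw [ev2_congr W J hW (kk x δ n) k' (fun j hj => by simp only [hk']; rw [if_pos hj])]
  obtain ⟨B, hB⟩ := exists_nat_gt ((1 + 1 / 1000) * Real.log x / (δ * Real.log x))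
  have hBk : ∀ j, B ≤ j → k' j = 0 := by
    intro j hj
    simp only [hk']
    split_ifs with h
    · unfold kk
      rw [Finset.card_eq_zero, Finset.filter_eq_empty_iff]
      intro p hp hpn
      have h1 := cell_log hx1 hp
      rw [mem_cell] at hp
      have h2 : Real.log p ≤ Real.log n := by
        apply Real.log_le_log (by exact_mod_cast hp.1.pos)
        exact_mod_cast Nat.le_of_dvd hn hpn
      have h6 : (j : ℝ) ≤ (1 + 1 / 1000) * Real.log x / (δ * Real.log x) := by
        rw [le_div_iff₀ (by positivity)]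
        linarith
      have h7 : (B : ℝ) ≤ j := by exact_mod_cast hj
      linarith
    · rfl
  refine (h5 k' B hBk).trans ?_
  apply mul_le_mul_of_nonneg_left _ (by norm_num)
  apply Real.exp_le_exp.2
  have h6 := sum_size hx1 hδ0 hn (range B)
  have h7 : (∑ j ∈ range B, (k' j : ℝ)) * J ≤ ∑ j ∈ range B, (kk x δ n j : ℝ) * j := by
    rw [Finset.sum_mul]
    apply Finset.sum_le_sum
    intro j _
    simp only [hk']
    split_ifs with h
    · apply mul_le_mul_of_nonneg_left _ (Nat.cast_nonneg _)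
      exact_mod_cast h
    · rw [Nat.cast_zero, zero_mul]
      positivity
  rw [le_div_iff₀ ha]
  have h8 : (∑ j ∈ range B, (k' j : ℝ)) * a * Real.log x ≤ (1 + 1 / 1000) * Real.log x := by
    have h9 : (∑ j ∈ range B, (k' j : ℝ)) * a = (∑ j ∈ range B, (k' j : ℝ)) * J * δ := by
      rw [← hJδ]
      ring
    rw [h9]
    have h10 : (∑ j ∈ range B, (k' j : ℝ)) * J * δ * Real.log x ≤
        (∑ j ∈ range B, (kk x δ n j : ℝ) * j) * δ * Real.log x := by
      apply mul_le_mul_of_nonneg_right _ hL0.le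
      exact mul_le_mul_of_nonneg_right h7 hδ0.le
    linarith
  by_contra h9
  rw [not_le] at h9
  have h10 := mul_lt_mul_of_pos_right h9 hL0
  linarith

end Pool.Agent.H89.P2
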