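import Mathlib

/-!
[H89 P2 FF]  The functions of the linear sieve on `(0, S]`: the properties which are used.
-/

namespace Pool.Agent.H89.P2

/-- the functions `F`, `f` of the linear sieve on `(0, S]` -/
structure FF (A S : ℝ) (F f : ℝ → ℝ) : Prop where
  hS : 4 ≤ S
  hA : 3 ≤ A
  F3 : ∀ s, 0 < s → s ≤ 3 → F s = A / s
  f2 : ∀ s, s ≤ 2 → f s = 0
  cF : ContinuousOn F (Set.Ioi 0)
  cf : Continuous f
  eF : ∀ a b, 2 ≤ a → a ≤ b → b ≤ S → b * F b - a * F a = ∫ t in a..b, f (t - 1)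
  ef : ∀ a b, 2 ≤ a → a ≤ b → b ≤ S → b * f b - a * f a = ∫ t in a..b, F (t - 1)
  F1 : ∀ s, 0 < s → s ≤ S → 1 ≤ F s
  f0 : ∀ s, s ≤ S → 0 ≤ f s
  f1 : ∀ s, s ≤ S → f s ≤ 1
  Fa : ∀ a b, 0 < a → a ≤ b → b ≤ S → F b ≤ F a
  fm : ∀ a b, a ≤ b → b ≤ S → f a ≤ f b

namespace FF

variable {A S : ℝ} {F f : ℝ → ℝ}

theorem F_le (h : FF A S F f) (s : ℝ) (h1 : 1 ≤ s) (h2 : s ≤ S) : F s ≤ A := by
  have h3 := h.Fa 1 s one_pos h1 h2
  have h4 := h.F3 1 one_pos (by norm_num)
  rw [h4, div_one] at h3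
  exact h3

theorem intF (h : FF A S F f) (a b : ℝ) (ha : 2 ≤ a) (hab : a ≤ b) :
    IntervalIntegrable (fun t => F (t - 1)) MeasureTheory.volume a b := by
  apply ContinuousOn.intervalIntegrable
  rw [Set.uIcc_of_le hab]
  apply h.cF.comp
  · exact (continuous_id.sub continuous_const).continuousOn
  · intro t ht
    simp only [Set.mem_Icc] at ht
    simp only [Set.mem_Ioi, id]
    linarith

theorem intf (h : FF A S F f) (a b : ℝ) :
    IntervalIntegrable (fun t => f (t - 1)) MeasureTheory.volume a b :=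
  (h.cf.comp (continuous_id.sub continuous_const)).intervalIntegrable a b

/-- `s F(s)` is nondecreasing -/
theorem sF_mono (h : FF A S F f) (a b : ℝ) (ha : 0 < a) (hab : a ≤ b) (hb : b ≤ S) :
    a * F a ≤ b * F b := by
  have key : ∀ c d : ℝ, 2 ≤ c → c ≤ d → d ≤ S → c * F c ≤ d * F d := by
    intro c d hc hcd hd
    have h1 := h.eF c d hc hcd hd
    have h2 : 0 ≤ ∫ t in c..d, f (t - 1) := by
      apply intervalIntegral.integral_nonneg hcd
      intro t ht
      exact h.f0 _ (by linarith [ht.2])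
    linarith
  have small : ∀ c : ℝ, 0 < c → c ≤ 3 → c * F c = A := by
    intro c hc hc3
    rw [h.F3 c hc hc3]
    field_simp
  by_cases h1 : 2 ≤ a
  · exact key a b h1 hab hb
  · rw [not_le] at h1
    have h2 := small a ha (by linarith)
    by_cases h3 : b ≤ 3
    · rw [h2, small b (by linarith) h3]
    · rw [not_le] at h3
      have h4 := key 2 b (le_refl _) (by linarith) hb
      rw [small 2 (by norm_num) (by norm_num)] at h4
      rw [h2]
      exact h4

/-- explicit form of `f` on `[2, 4]` -/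
theorem f4 (h : FF A S F f) (s : ℝ) (h1 : 2 ≤ s) (h2 : s ≤ 4) :
    f s = A / s * Real.log (s - 1) := by
  have h3 := h.ef 2 s (le_refl _) h1 (by linarith [h.hS])
  rw [h.f2 2 (le_refl _), mul_zero, sub_zero] at h3
  have h4 : ∫ t in (2 : ℝ)..s, F (t - 1) = ∫ t in (2 : ℝ)..s, A * (t - 1)⁻¹ := by
    apply intervalIntegral.integral_congr
    intro t ht
    rw [Set.uIcc_of_le h1] at ht
    show F (t - 1) = A * (t - 1)⁻¹
    rw [h.F3 (t - 1) (by linarith [ht.1]) (by linarith [ht.2]), div_eq_mul_inv]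
  have h5 : ∫ t in (2 : ℝ)..s, A * (t - 1)⁻¹ = A * Real.log (s - 1) := by
    rw [intervalIntegral.integral_const_mul]
    congr 1
    have h6 : ∫ t in (2 : ℝ)..s, (t - 1)⁻¹ = ∫ t in (2 - 1 : ℝ)..(s - 1), t⁻¹ :=
      intervalIntegral.integral_comp_sub_right (fun t => t⁻¹) 1
    rw [h6, integral_inv_of_pos (by norm_num) (by linarith)]
    norm_num
  rw [h4, h5] at h3
  have hs : s ≠ 0 := by linarith
  field_simp
  linarith

end FF

end Pool.Agent.H89.P2
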