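import Pool.Agent.H89.P2.Df
import Pool.Agent.H89.P2.Ff

/-!
[H89 P2 MT]  The main terms of the linear sieve in the presieved model.

`V = J/m` is the model of `∏_{x^(J δ) ≤ p < x^(m δ)} (1 - 1/p)`.  By induction on `m`, for `M ≤ S J`:
`mv (lower sieve) ≥ (J/m) f(M/m) - Er` for `2m ≤ M` and `mv (upper sieve) ≤ (J/m) F(M/m) + 2 Er` for `J ≤ M`,
`Er = 16 A exp(6M/J) (2/J - 1/m)`.  At the start `m = J` both means are `1`, `f ≤ 1 ≤ F`.
-/

namespace Pool.Agent.H89.P2

open FF

/-- the error term -/
noncomputable def Er (A J M m : ℝ) : ℝ := 16 * A * Real.exp (6 * M / J) * (2 / J - 1 / m)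

theorem Er_nonneg {A J M m : ℝ} (hA : 0 ≤ A) (hJ : 0 < J) (hm : J ≤ m) : 0 ≤ Er A J M m := by
  unfold Er
  have h1 : 1 / m ≤ 1 / J := one_div_le_one_div_of_le hJ hm
  have h2 : 2 / J = 1 / J + 1 / J := by ring
  have h3 : 0 < 1 / J := by positivity
  have h4 : 0 ≤ 2 / J - 1 / m := by rw [h2]; linarith
  positivity

theorem Er_ge {A J M m : ℝ} (hA : 0 ≤ A) (hJ : 0 < J) (hm : J ≤ m) (hM : 0 ≤ M) :
    16 * A / J ≤ Er A J M m := by
  unfold Er
  have h1 : 1 / m ≤ 1 / J := one_div_le_one_div_of_le hJ hm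
  have h2 : 2 / J = 1 / J + 1 / J := by ring
  have h3 : 0 < 1 / J := by positivity
  have h4 : 1 / J ≤ 2 / J - 1 / m := by rw [h2]; linarith
  have h5 : 1 ≤ Real.exp (6 * M / J) := Real.one_le_exp (by positivity)
  have h6 : 16 * A * 1 * (1 / J) ≤ 16 * A * Real.exp (6 * M / J) * (2 / J - 1 / m) := by
    apply mul_le_mul _ h4 h3.le (by positivity)
    exact mul_le_mul_of_nonneg_left h5 (by positivity)
  calc 16 * A / J = 16 * A * 1 * (1 / J) := by ring
    _ ≤ _ := h6

theorem Er_mono {A J M m n : ℝ} (hA : 0 ≤ A) (hJ : 0 < J) (hm : J ≤ m) (hmn : m ≤ n) :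
    Er A J M m ≤ Er A J M n := by
  unfold Er
  have h1 : 1 / n ≤ 1 / m := one_div_le_one_div_of_le (by linarith) hmn
  apply mul_le_mul_of_nonneg_left _ (by positivity)
  linarith

theorem Er_step {A J M m : ℝ} (hA : 0 ≤ A) (hJ : 0 < J) (hJ1 : 1 ≤ J) (hm : J ≤ m) (hM : 0 ≤ M) :
    Er A J M m + 2 / m * Er A J (M - (m + 1)) m + 5 * A / m ^ 2 ≤ Er A J M (m + 1) := by
  have hm0 : 0 < m := by linarith
  have hm1 : 1 ≤ m := by linarith
  set X := Real.exp (6 * M / J) with hX
  have hX1 : 1 ≤ X := Real.one_le_exp (by positivity)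
  have e1 : Er A J M (m + 1) = Er A J M m + 16 * A * X / (m * (m + 1)) := by
    unfold Er
    rw [← hX]
    field_simp
    ring
  have e2 : Er A J (M - (m + 1)) m ≤ 16 * A * X * (1 / (12 * m)) := by
    unfold Er
    have h1 : Real.exp (6 * (M - (m + 1)) / J) ≤ X * (J / (24 * m)) := by
      have h2 : Real.exp (6 * (M - (m + 1)) / J) ≤ Real.exp (6 * M / J - 6 * m / J) := by
        apply Real.exp_le_exp.2
        rw [← sub_div]
        apply div_le_div_of_nonneg_right _ hJ.le
        linarith
      refine h2.trans ?_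
      rw [sub_eq_add_neg, Real.exp_add, ← hX, Real.exp_neg]
      apply mul_le_mul_of_nonneg_left _ (by linarith)
      have h3 : 24 * m / J ≤ Real.exp (6 * m / J) := by
        have h4 := Real.quadratic_le_exp_of_nonneg (x := 6 * m / J) (by positivity)
        refine le_trans ?_ h4
        have h5 : 1 ≤ m / J := by rw [le_div_iff₀ hJ]; linarith
        have h6 : 24 * m / J = 24 * (m / J) := by ring
        have h7 : 6 * m / J = 6 * (m / J) := by ring
        rw [h6, h7]
        nlinarith
      rw [inv_eq_one_div]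
      have h8 : J / (24 * m) = 1 / (24 * m / J) := by rw [one_div_div]
      rw [h8]
      exact one_div_le_one_div_of_le (by positivity) h3
    have h9 : 0 ≤ 2 / J - 1 / m := by
      have h1 : 1 / m ≤ 1 / J := one_div_le_one_div_of_le hJ hm
      have h2 : 2 / J = 1 / J + 1 / J := by ring
      have h3 : 0 < 1 / J := by positivity
      rw [h2]; linarith
    calc 16 * A * Real.exp (6 * (M - (m + 1)) / J) * (2 / J - 1 / m)
        ≤ 16 * A * (X * (J / (24 * m))) * (2 / J) := by
          apply mul_le_mul _ _ h9 (by positivity)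
          · exact mul_le_mul_of_nonneg_left h1 (by positivity)
          · have : 0 < 1 / m := by positivity
            linarith
      _ = 16 * A * X * (1 / (12 * m)) := by
          field_simp
          ring
  rw [e1]
  have e3 : 2 / m * Er A J (M - (m + 1)) m ≤ 2 / m * (16 * A * X * (1 / (12 * m))) :=
    mul_le_mul_of_nonneg_left e2 (by positivity)
  have e4 : 2 / m * (16 * A * X * (1 / (12 * m))) = (8 / 3) * (A * X) / m ^ 2 := by
    field_simp
    ring
  have e5 : 8 * (A * X) / m ^ 2 ≤ 16 * A * X / (m * (m + 1)) := by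
    rw [div_le_div_iff₀ (by positivity) (by positivity)]
    have : 0 ≤ A * X := by positivity
    nlinarith [mul_nonneg this (by nlinarith : (0:ℝ) ≤ m * (m - 1))]
  have e6 : (8 / 3) * (A * X) / m ^ 2 + 5 * A / m ^ 2 ≤ 8 * (A * X) / m ^ 2 := by
    rw [← add_div]
    apply div_le_div_of_nonneg_right _ (by positivity)
    nlinarith [mul_le_mul_of_nonneg_left hX1 hA]
  linarith

theorem mu_le (m : ℕ) (hm : 0 < m) : mu m ≤ 1 / m := by
  unfold mu
  have hm0 : (0 : ℝ) < m := by exact_mod_cast hm
  have h1 := Real.log_le_sub_one_of_pos (x := ((m : ℝ) + 1) / m) (by positivity)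
  refine h1.trans (le_of_eq ?_)
  field_simp
  ring

theorem le_mu (m : ℕ) (hm : 0 < m) : 1 / ((m : ℝ) + 1) ≤ mu m := by
  unfold mu
  have hm0 : (0 : ℝ) < m := by exact_mod_cast hm
  have h1 := Real.one_sub_inv_le_log_of_pos (x := ((m : ℝ) + 1) / m) (by positivity)
  refine le_trans (le_of_eq ?_) h1
  field_simp
  ring

theorem mu_nonneg (m : ℕ) (hm : 0 < m) : 0 ≤ mu m :=
  le_trans (by positivity) (le_mu m hm)

variable {A S : ℝ} {F f : ℝ → ℝ}

/-- local inequality for the lower sieve -/
theorem loc_low (h : FF A S F f) {J m M : ℝ} (hJ : 0 < J) (_hJ1 : 1 ≤ J) (hm : J ≤ m)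
    (hM : 2 * (m + 1) ≤ M) (hMS : M ≤ S * J) {u : ℝ} (hu0 : 0 ≤ u) (hu : u ≤ 1 / m) :
    J / (m + 1) * f (M / (m + 1)) + u * (J / m * F ((M - (m + 1)) / m)) ≤
      J / m * f (M / m) + 2 * A / m ^ 2 := by
  have hm0 : 0 < m := by linarith
  have hM0 : 0 < M := by linarith
  have hA := h.hA
  have hS := h.hS
  have hMm : M / m ≤ S := by
    rw [div_le_iff₀ hm0]
    nlinarith
  have ha : 2 ≤ M / (m + 1) := by rw [le_div_iff₀ (by linarith)]; linarith
  have hab : M / (m + 1) ≤ M / m := div_le_div_of_nonneg_left hM0.le hm0 (by linarith)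
  have h1 := h.ef (M / (m + 1)) (M / m) ha hab hMm
  have h2 : (M / m - M / (m + 1)) * F (M / m - 1) ≤ ∫ t in (M / (m + 1))..(M / m), F (t - 1) := by
    have h3 : ∫ _t in (M / (m + 1))..(M / m), F (M / m - 1) =
        (M / m - M / (m + 1)) * F (M / m - 1) := by
      rw [intervalIntegral.integral_const, smul_eq_mul]
    rw [← h3]
    apply intervalIntegral.integral_mono_on hab intervalIntegrable_const (h.intF _ _ ha hab)
    intro t ht
    exact h.Fa _ _ (by linarith [ht.1]) (by linarith [ht.2]) (by linarith)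
  set s1 := (M - (m + 1)) / m with hs1
  set s2 := M / m - 1 with hs2
  have hs12 : s2 = s1 + 1 / m := by
    rw [hs1, hs2]
    field_simp
    ring
  have hs1' : 1 ≤ s1 := by
    rw [hs1, le_div_iff₀ hm0]
    linarith
  have hinv : 0 < 1 / m := by positivity
  have hs2' : 1 ≤ s2 := by linarith
  have hF2 : F s2 ≤ A := h.F_le s2 hs2' (by linarith)
  have hF2' : 1 ≤ F s2 := h.F1 s2 (by linarith) (by linarith)
  have hF12 : F s1 ≤ F s2 + A / m := by
    have h4 := h.sF_mono s1 s2 (by linarith) (by linarith) (by linarith)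
    have h5 : F s1 ≤ s2 * F s2 / s1 := by
      rw [le_div_iff₀ (by linarith)]
      linarith
    refine h5.trans ?_
    rw [div_le_iff₀ (by linarith)]
    have h6 : A / m = A * (1 / m) := by ring
    rw [h6, hs12] at *
    nlinarith [mul_nonneg (by linarith : (0:ℝ) ≤ A) hinv.le]
  have h7 : J / m * f (M / m) - J / (m + 1) * f (M / (m + 1)) =
      J / M * (M / m * f (M / m) - M / (m + 1) * f (M / (m + 1))) := by
    field_simp
  have h8 : J / M * ((M / m - M / (m + 1)) * F s2) = J * F s2 / (m * (m + 1)) := by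
    field_simp
    ring
  have h9 : J / M * ((M / m - M / (m + 1)) * F s2) ≤
      J / m * f (M / m) - J / (m + 1) * f (M / (m + 1)) := by
    rw [h7, h1]
    exact mul_le_mul_of_nonneg_left h2 (by positivity)
  rw [h8] at h9
  have h10 : u * (J / m * F s1) ≤ 1 / m * (J / m * (F s2 + A / m)) := by
    apply mul_le_mul hu _ _ (by positivity)
    · exact mul_le_mul_of_nonneg_left hF12 (by positivity)
    · have : 1 ≤ F s1 := h.F1 s1 (by linarith) (by linarith)
      positivity
  have h11 : 1 / m * (J / m * (F s2 + A / m)) ≤ J * F s2 / (m * (m + 1)) + 2 * A / m ^ 2 := by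
    have e1 : 1 / m * (J / m * (F s2 + A / m)) - J * F s2 / (m * (m + 1)) =
        (J / (m + 1) * F s2 + J / m * A) / m ^ 2 := by
      field_simp
      ring
    have e2 : J / (m + 1) * F s2 + J / m * A ≤ 2 * A := by
      have e3 : J / (m + 1) ≤ 1 := by rw [div_le_one (by linarith)]; linarith
      have e4 : J / m ≤ 1 := by rw [div_le_one hm0]; exact hm
      have e5 : J / (m + 1) * F s2 ≤ 1 * A := mul_le_mul e3 hF2 (by linarith) (by norm_num)
      have e6 : J / m * A ≤ 1 * A := mul_le_mul_of_nonneg_right e4 (by linarith)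
      linarith
    have e7 : (J / (m + 1) * F s2 + J / m * A) / m ^ 2 ≤ 2 * A / m ^ 2 :=
      div_le_div_of_nonneg_right e2 (by positivity)
    linarith
  linarith

/-- local inequality for the upper sieve -/
theorem loc_up (h : FF A S F f) {J m M : ℝ} (hJ : 0 < J) (_hJ1 : 1 ≤ J) (hm : J ≤ m)
    (hM : 3 * (m + 1) ≤ M) (hMS : M ≤ S * J) {u : ℝ} (hu : 1 / (m + 1) ≤ u) :
    J / m * F (M / m) ≤ J / (m + 1) * F (M / (m + 1)) +
      u * (J / m * f ((M - (m + 1)) / m)) + A / m ^ 2 := by
  have hm0 : 0 < m := by linarith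
  have hM0 : 0 < M := by linarith
  have hA := h.hA
  have hS := h.hS
  have hMm : M / m ≤ S := by
    rw [div_le_iff₀ hm0]
    nlinarith
  have ha : 3 ≤ M / (m + 1) := by rw [le_div_iff₀ (by linarith)]; linarith
  have hab : M / (m + 1) ≤ M / m := div_le_div_of_nonneg_left hM0.le hm0 (by linarith)
  have h1 := h.eF (M / (m + 1)) (M / m) (by linarith) hab hMm
  have h2 : ∫ t in (M / (m + 1))..(M / m), f (t - 1) ≤ (M / m - M / (m + 1)) * f (M / m - 1) := by
    have h3 : ∫ _t in (M / (m + 1))..(M / m), f (M / m - 1) =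
        (M / m - M / (m + 1)) * f (M / m - 1) := by
      rw [intervalIntegral.integral_const, smul_eq_mul]
    rw [← h3]
    apply intervalIntegral.integral_mono_on hab (h.intf _ _) intervalIntegrable_const
    intro t ht
    exact h.fm _ _ (by linarith [ht.2]) (by linarith)
  set s1 := (M - (m + 1)) / m with hs1
  set s2 := M / m - 1 with hs2
  have hs12 : s2 = s1 + 1 / m := by
    rw [hs1, hs2]
    field_simp
    ring
  have hs1' : 2 ≤ s1 := by
    rw [hs1, le_div_iff₀ hm0]
    linarith
  have hinv : 0 < 1 / m := by positivity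
  have hf1 : 0 ≤ f s1 := h.f0 s1 (by linarith)
  have hf12 : f s2 ≤ f s1 + A / m := by
    have h4 := h.ef s1 s2 hs1' (by linarith) (by linarith)
    have h5 : ∫ t in s1..s2, F (t - 1) ≤ (s2 - s1) * A := by
      have h6 : ∫ _t in s1..s2, A = (s2 - s1) * A := by
        rw [intervalIntegral.integral_const, smul_eq_mul]
      rw [← h6]
      apply intervalIntegral.integral_mono_on (by linarith) (h.intF _ _ hs1' (by linarith))
        intervalIntegrable_const
      intro t ht
      exact h.F_le _ (by linarith [ht.1]) (by linarith [ht.2])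
    have h7 : s2 * f s2 ≤ s1 * f s1 + 1 / m * A := by
      have : s2 - s1 = 1 / m := by linarith
      rw [this] at h5
      linarith
    have h8 : s2 * f s2 ≤ s2 * (f s1 + A / m) := by
      refine h7.trans ?_
      have h9 : A / m = 1 / m * A := by ring
      rw [h9]
      have h10 : 0 ≤ 1 / m * A := by positivity
      nlinarith [mul_nonneg hinv.le hf1, mul_nonneg (by linarith : (0:ℝ) ≤ s2 - 1) h10]
    exact le_of_mul_le_mul_left h8 (by linarith)
  have h7 : J / m * F (M / m) - J / (m + 1) * F (M / (m + 1)) =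
      J / M * (M / m * F (M / m) - M / (m + 1) * F (M / (m + 1))) := by
    field_simp
  have h8 : J / M * ((M / m - M / (m + 1)) * f s2) = J * f s2 / (m * (m + 1)) := by
    field_simp
    ring
  have h9 : J / m * F (M / m) - J / (m + 1) * F (M / (m + 1)) ≤
      J / M * ((M / m - M / (m + 1)) * f s2) := by
    rw [h7, h1]
    exact mul_le_mul_of_nonneg_left h2 (by positivity)
  rw [h8] at h9
  have h10 : 1 / (m + 1) * (J / m * f s1) ≤ u * (J / m * f s1) :=
    mul_le_mul_of_nonneg_right hu (by positivity)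
  have h11 : J * f s2 / (m * (m + 1)) ≤ 1 / (m + 1) * (J / m * f s1) + A / m ^ 2 := by
    have e1 : J * f s2 / (m * (m + 1)) ≤ J * (f s1 + A / m) / (m * (m + 1)) := by
      apply div_le_div_of_nonneg_right _ (by positivity)
      exact mul_le_mul_of_nonneg_left hf12 hJ.le
    have e2 : J * (f s1 + A / m) / (m * (m + 1)) =
        1 / (m + 1) * (J / m * f s1) + J / (m + 1) * A / m ^ 2 := by
      field_simp
    have e3 : J / (m + 1) ≤ 1 := by rw [div_le_one (by linarith)]; linarith
    have e4 : J / (m + 1) * A / m ^ 2 ≤ A / m ^ 2 := by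
      apply div_le_div_of_nonneg_right _ (by positivity)
      nlinarith
    linarith
  linarith

/-- below `J` nothing is sieved -/
theorem mv_base (J : ℕ) (μ : ℕ → ℝ) : ∀ (m : ℕ) (b : Bool) (M : ℕ), m ≤ J →
    mv (sv J m b M) μ = 1 := by
  intro m
  induction m with
  | zero => intro b M _; exact mv_zero J b M μ
  | succ m ih =>
    intro b M hm
    cases b with
    | false =>
      rw [mv_low, if_neg (by omega), ih _ _ (by omega)]
      ring
    | true =>
      rw [mv_up, if_neg (by omega), ih _ _ (by omega)]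
      ring

/-- the upper sieve does not change once `3 (m + 1) > M` -/
theorem mv_stable (J : ℕ) (μ : ℕ → ℝ) (M m' : ℕ) (h : M < 3 * (m' + 1)) : ∀ m, m' ≤ m →
    mv (sv J m true M) μ = mv (sv J m' true M) μ := by
  intro m hm
  induction m, hm using Nat.le_induction with
  | base => rfl
  | succ m hm ih =>
    rw [mv_up, if_neg (by omega), ih]
    ring

/-- bound of the upper sieve for all `m`, from the bound for `3 m ≤ M` -/
theorem up_all (h : FF A S F f) {J : ℕ} (hJ : 0 < J) {m M : ℕ} (hm : J ≤ m) (hM : J ≤ M)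
    (hMS : (M : ℝ) ≤ S * J)
    (ih : ∀ m', J ≤ m' → m' ≤ m → 3 * m' ≤ M → mv (sv J m' true M) mu ≤
      (J : ℝ) / m' * F (M / m') + Er A J M m') :
    mv (sv J m true M) mu ≤ (J : ℝ) / m * F (M / m) + 2 * Er A J M m := by
  have hJ0 : (0 : ℝ) < J := by exact_mod_cast hJ
  have hJm : (J : ℝ) ≤ m := by exact_mod_cast hm
  have hJM : (J : ℝ) ≤ M := by exact_mod_cast hM
  have hm0 : (0 : ℝ) < m := by linarith
  have hM0 : (0 : ℝ) < M := by linarith
  have hA := h.hA
  have hS := h.hS
  by_cases h3 : 3 * m ≤ M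
  · have h1 := ih m hm (le_refl _) h3
    have h2 := Er_nonneg (A := A) (J := J) (M := M) (m := m) (by linarith) hJ0 hJm
    linarith
  · rw [not_le] at h3
    have hFm : F ((M : ℝ) / m) = A / ((M : ℝ) / m) := by
      apply h.F3 _ (by positivity)
      rw [div_le_iff₀ hm0]
      have : (M : ℝ) < 3 * m := by exact_mod_cast h3
      linarith
    have hFm' : (J : ℝ) / m * F (M / m) = J * A / M := by
      rw [hFm]
      field_simp
    rw [hFm']
    set m' := M / 3 with hm'
    have hm'1 : m' ≤ m := by omega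
    have hm'2 : M < 3 * (m' + 1) := by omega
    rw [mv_stable J mu M m' hm'2 m hm'1]
    have hErge := Er_ge (A := A) (J := J) (M := M) (m := m) (by linarith) hJ0 hJm hM0.le
    by_cases hJm' : J ≤ m'
    · have h1 := ih m' hJm' hm'1 (by omega)
      have hJm'R : (J : ℝ) ≤ m' := by exact_mod_cast hJm'
      have hm'0 : (0 : ℝ) < m' := by linarith
      have hM3 : 3 * (m' : ℝ) ≤ M := by
        have : 3 * m' ≤ M := by omega
        exact_mod_cast this
      have hM4 : (M : ℝ) ≤ 3 * m' + 2 := by
        have : M ≤ 3 * m' + 2 := by omega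
        exact_mod_cast this
      have h2 : F ((M : ℝ) / m') ≤ A / 3 := by
        have h4 := h.Fa 3 ((M : ℝ) / m') (by norm_num)
          (by rw [le_div_iff₀ hm'0]; exact hM3)
          (by
            rw [div_le_iff₀ hm'0]
            nlinarith)
        rw [h.F3 3 (by norm_num) (le_refl _)] at h4
        exact h4
      have h5 : (J : ℝ) / m' * F (M / m') ≤ J / m' * (A / 3) :=
        mul_le_mul_of_nonneg_left h2 (by positivity)
      have h6 : (J : ℝ) / m' * (A / 3) ≤ J * A / M + A / J := by
        have e1 : (J : ℝ) / m' * (A / 3) - J * A / M = J * A * (M - 3 * m') / (3 * m' * M) := by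
          field_simp
        have e2 : J * A * ((M : ℝ) - 3 * m') / (3 * m' * M) ≤ A / J := by
          rw [div_le_div_iff₀ (by positivity) hJ0]
          have e3 : (M : ℝ) - 3 * m' ≤ 2 := by linarith
          have e4 : J * A * ((M : ℝ) - 3 * m') * J ≤ J * A * 2 * J := by
            have : 0 ≤ (J : ℝ) * A := by positivity
            nlinarith [mul_nonneg this hJ0.le, mul_le_mul_of_nonneg_left e3 this]
          have e5 : (J : ℝ) * A * 2 * J ≤ A * (3 * m' * M) := by
            have e6 : (J : ℝ) * J ≤ m' * M := mul_le_mul hJm'R hJM hJ0.le hm'0.le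
            nlinarith
          linarith
        linarith
      have h7 := Er_mono (A := A) (J := J) (M := M) (m := m') (n := m) (by linarith) hJ0 hJm'R
        (by exact_mod_cast hm'1)
      have h8 : A / J ≤ 16 * A / J := by
        apply div_le_div_of_nonneg_right _ hJ0.le
        linarith
      linarith
    · rw [not_le] at hJm'
      rw [mv_base J mu m' true M (by omega)]
      have h1 : (M : ℝ) ≤ 3 * J := by
        have : M ≤ 3 * J := by omega
        exact_mod_cast this
      have h2 : 1 ≤ J * A / M := by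
        rw [le_div_iff₀ hM0]
        nlinarith
      have h3 := Er_nonneg (A := A) (J := J) (M := M) (m := m) (by linarith) hJ0 hJm
      linarith

theorem main_aux (h : FF A S F f) {J : ℕ} (hJ : 0 < J) : ∀ m : ℕ, J ≤ m → ∀ M : ℕ,
    (M : ℝ) ≤ S * J →
    (2 * m ≤ M → (J : ℝ) / m * f (M / m) - Er A J M m ≤ mv (sv J m false M) mu) ∧
    (3 * m ≤ M → mv (sv J m true M) mu ≤ (J : ℝ) / m * F (M / m) + Er A J M m) := by
  have hJ0 : (0 : ℝ) < J := by exact_mod_cast hJ
  have hJ1 : (1 : ℝ) ≤ J := by exact_mod_cast hJ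
  have hA := h.hA
  have hS := h.hS
  intro m
  induction m using Nat.strong_induction_on with
  | _ m IH =>
  intro hm M hMS
  rcases Nat.lt_or_eq_of_le hm with hlt | heq
  · obtain ⟨n, rfl⟩ : ∃ n, m = n + 1 := ⟨m - 1, by omega⟩
    have hn : J ≤ n := by omega
    have hnR : (J : ℝ) ≤ n := by exact_mod_cast hn
    have hn0 : 0 < n := by omega
    have hn0R : (0 : ℝ) < n := by exact_mod_cast hn0
    have hmu1 := mu_le n hn0
    have hmu2 := le_mu n hn0
    have hmu0 := mu_nonneg n hn0
    push_cast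
    constructor
    · intro h2
      have h2R : 2 * ((n : ℝ) + 1) ≤ M := by exact_mod_cast h2
      rw [mv_low, if_pos hn]
      have h3 := (IH n (Nat.lt_succ_self n) hn M hMS).1 (by omega)
      have hM' : ((M - (n + 1) : ℕ) : ℝ) = (M : ℝ) - (n + 1) := by
        rw [Nat.cast_sub (by omega)]
        push_cast
        ring
      have hMS' : ((M - (n + 1) : ℕ) : ℝ) ≤ S * J := by rw [hM']; linarith
      have h4 := up_all h hJ hn (M := M - (n + 1)) (by omega) hMS'
        (fun m' h1 h2 h3 => (IH m' (by omega) h1 _ hMS').2 h3)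
      rw [hM'] at h4
      have h5 := loc_low h hJ0 hJ1 hnR h2R hMS hmu0 hmu1
      have h6 := Er_step (A := A) (J := J) (M := M) (m := n) (by linarith) hJ0 hJ1 hnR
        (by linarith)
      have hE0 := Er_nonneg (A := A) (J := J) (M := (M : ℝ) - (n + 1)) (m := n) (by linarith)
        hJ0 hnR
      have h7 : mu n * mv (sv J n true (M - (n + 1))) mu ≤
          mu n * ((J : ℝ) / n * F (((M : ℝ) - (n + 1)) / n)) +
            2 / n * Er A J ((M : ℝ) - (n + 1)) n := by
        have h8 := mul_le_mul_of_nonneg_left h4 hmu0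
        have h9 : mu n * (2 * Er A J ((M : ℝ) - (n + 1)) n) ≤
            2 / n * Er A J ((M : ℝ) - (n + 1)) n := by
          have h10 : mu n * (2 * Er A J ((M : ℝ) - (n + 1)) n) ≤
              1 / n * (2 * Er A J ((M : ℝ) - (n + 1)) n) :=
            mul_le_mul_of_nonneg_right hmu1 (by linarith)
          calc _ ≤ _ := h10
            _ = _ := by ring
        linarith
      have h11 : 2 * A / (n : ℝ) ^ 2 ≤ 5 * A / (n : ℝ) ^ 2 := by
        apply div_le_div_of_nonneg_right _ (by positivity)
        linarith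
      linarith
    · intro h2
      have h2R : 3 * ((n : ℝ) + 1) ≤ M := by exact_mod_cast h2
      rw [mv_up, if_pos ⟨hn, h2⟩]
      have h3 := (IH n (Nat.lt_succ_self n) hn M hMS).2 (by omega)
      have hM' : ((M - (n + 1) : ℕ) : ℝ) = (M : ℝ) - (n + 1) := by
        rw [Nat.cast_sub (by omega)]
        push_cast
        ring
      have hMS' : ((M - (n + 1) : ℕ) : ℝ) ≤ S * J := by rw [hM']; linarith
      have h4 := (IH n (Nat.lt_succ_self n) hn (M - (n + 1)) hMS').1 (by omega)
      rw [hM'] at h4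
      have h5 := loc_up h hJ0 hJ1 hnR h2R hMS hmu2
      have h6 := Er_step (A := A) (J := J) (M := M) (m := n) (by linarith) hJ0 hJ1 hnR
        (by linarith)
      have hE0 := Er_nonneg (A := A) (J := J) (M := (M : ℝ) - (n + 1)) (m := n) (by linarith)
        hJ0 hnR
      have h7 : mu n * ((J : ℝ) / n * f (((M : ℝ) - (n + 1)) / n)) -
          2 / n * Er A J ((M : ℝ) - (n + 1)) n ≤ mu n * mv (sv J n false (M - (n + 1))) mu := by
        have h8 := mul_le_mul_of_nonneg_left h4 hmu0
        have h9 : mu n * Er A J ((M : ℝ) - (n + 1)) n ≤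
            2 / n * Er A J ((M : ℝ) - (n + 1)) n := by
          apply mul_le_mul_of_nonneg_right _ hE0
          refine hmu1.trans ?_
          apply div_le_div_of_nonneg_right _ hn0R.le
          norm_num
        linarith
      have h11 : A / (n : ℝ) ^ 2 + mu n ^ 2 / 2 ≤ 5 * A / (n : ℝ) ^ 2 := by
        have h12 : mu n ^ 2 ≤ (1 / n) ^ 2 := pow_le_pow_left₀ hmu0 hmu1 2
        have h13 : ((1 : ℝ) / n) ^ 2 = 1 / (n : ℝ) ^ 2 := by
          rw [div_pow, one_pow]
        rw [h13] at h12
        have h14 : (0 : ℝ) < 1 / (n : ℝ) ^ 2 := by positivity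
        have h15 : A / (n : ℝ) ^ 2 = A * (1 / (n : ℝ) ^ 2) := by ring
        have h16 : 5 * A / (n : ℝ) ^ 2 = 5 * A * (1 / (n : ℝ) ^ 2) := by ring
        rw [h15, h16]
        nlinarith
      linarith
  · rw [← heq]
    have hmv := mv_base J mu J
    have hMJ : (M : ℝ) / J ≤ S := by rw [div_le_iff₀ hJ0]; linarith
    have hE0 := Er_nonneg (A := A) (J := J) (M := M) (m := J) (by linarith) hJ0 (le_refl _)
    have hJJ : (J : ℝ) / J = 1 := div_self hJ0.ne'
    constructor
    · intro _
      rw [hmv false M (le_refl _), hJJ, one_mul]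
      have := h.f1 _ hMJ
      linarith
    · intro h3
      rw [hmv true M (le_refl _), hJJ, one_mul]
      have hM0 : (0 : ℝ) < M := by
        have : 0 < M := by omega
        exact_mod_cast this
      have := h.F1 _ (by positivity) hMJ
      linarith

/-- main term of the lower sieve -/
theorem main_low (h : FF A S F f) {J : ℕ} (hJ : 0 < J) {m M : ℕ} (hm : J ≤ m) (hM : 2 * m ≤ M)
    (hMS : (M : ℝ) ≤ S * J) :
    (J : ℝ) / m * f (M / m) - Er A J M m ≤ mv (sv J m false M) mu :=
  (main_aux h hJ m hm M hMS).1 hM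

/-- main term of the upper sieve -/
theorem main_up (h : FF A S F f) {J : ℕ} (hJ : 0 < J) {m M : ℕ} (hm : J ≤ m) (hM : J ≤ M)
    (hMS : (M : ℝ) ≤ S * J) :
    mv (sv J m true M) mu ≤ (J : ℝ) / m * F (M / m) + 2 * Er A J M m :=
  up_all h hJ hm hM hMS fun m' h1 _ h3 => (main_aux h hJ m' h1 M hMS).2 h3

end Pool.Agent.H89.P2
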