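import Pool.Agent.H89.P2.Ri
import Pool.Agent.H89.P2.Mt

/-!
[H89 P2 AB]  The absolute mean of the weights.
-/

namespace Pool.Agent.H89.P2

/-- the model mean with absolute values of the coefficients -/
noncomputable def mva (W : List (ℝ × List ℕ)) (μ : ℕ → ℝ) : ℝ :=
  (W.map fun c => |c.1| * (c.2.map μ).prod).sum

/-- the same for split weights -/
noncomputable def mva2 (W : List (ℝ × List ℕ × List ℕ)) (μ : ℕ → ℝ) : ℝ :=
  (W.map fun c => |c.1| * ((c.2.1 ++ c.2.2).map μ).prod).sum

theorem mva_append (V W : List (ℝ × List ℕ)) (μ : ℕ → ℝ) : mva (V ++ W) μ = mva V μ + mva W μ := by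
  simp [mva]

theorem mva_put (m : ℕ) (c : ℝ) (W : List (ℝ × List ℕ)) (μ : ℕ → ℝ) :
    mva (put m c W) μ = |c| * μ m * mva W μ := by
  induction W with
  | nil => simp [mva, put]
  | cons w W ih =>
    have h2 : mva (put m c (w :: W)) μ = |c * w.1| * (μ m * (w.2.map μ).prod) + mva (put m c W) μ := by
      simp [mva, put]
    have h3 : mva (w :: W) μ = |w.1| * (w.2.map μ).prod + mva W μ := by simp [mva]
    rw [h2, h3, ih, abs_mul]
    ring

theorem mva_sv (J : ℕ) (hJ : 0 < J) : ∀ (m : ℕ) (b : Bool) (M : ℕ),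
    mva (sv J m b M) mu ≤ (max m J : ℕ) / (J : ℝ) := by
  have hJ0 : (0 : ℝ) < J := by exact_mod_cast hJ
  intro m
  induction m with
  | zero =>
    intro b M
    have : mva (sv J 0 b M) mu = 1 := by cases b <;> simp [sv, mva]
    rw [this, Nat.zero_max, div_self hJ0.ne']
  | succ m ih =>
    intro b M
    have hmono : ((max m J : ℕ) : ℝ) / J ≤ ((max (m + 1) J : ℕ) : ℝ) / J := by
      apply div_le_div_of_nonneg_right _ hJ0.le
      exact_mod_cast max_le_max (Nat.le_succ m) (le_refl J)
    have key : J ≤ m → ((max m J : ℕ) : ℝ) / J + mu m * (((max m J : ℕ) : ℝ) / J) + mu m ^ 2 / 2 ≤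
        ((max (m + 1) J : ℕ) : ℝ) / J := by
      intro hm
      rw [max_eq_left hm, max_eq_left (by omega : J ≤ m + 1)]
      have hm0 : (0 : ℝ) < m := by
        have : 0 < m := by omega
        exact_mod_cast this
      have hJm : (J : ℝ) ≤ m := by exact_mod_cast hm
      have h1 := mu_nonneg m (by omega)
      have h2 := Real.quadratic_le_exp_of_nonneg h1
      have h3 : Real.exp (mu m) = ((m : ℝ) + 1) / m := by
        unfold mu
        rw [Real.exp_log (by positivity)]
      rw [h3] at h2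
      have h4 : 1 ≤ (m : ℝ) / J := by rw [le_div_iff₀ hJ0]; linarith
      have h5 : (m : ℝ) / J * (1 + mu m + mu m ^ 2 / 2) ≤ (m : ℝ) / J * (((m : ℝ) + 1) / m) :=
        mul_le_mul_of_nonneg_left h2 (by positivity)
      have h6 : (m : ℝ) / J * (((m : ℝ) + 1) / m) = ((m : ℝ) + 1) / J := by
        field_simp
      rw [h6] at h5
      push_cast
      nlinarith [mul_le_mul_of_nonneg_right h4 (by positivity : 0 ≤ mu m ^ 2 / 2)]
    cases b with
    | false =>
      rw [sv, mva_append]
      split_ifs with h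
      · rw [mva_put]
        have h1 := ih false M
        have h2 := mul_le_mul_of_nonneg_left (ih true (M - (m + 1))) (mu_nonneg m (by omega))
        have h3 := key h
        have h4 : |(-1 : ℝ)| = 1 := by norm_num
        rw [h4, one_mul]
        have h5 : 0 ≤ mu m ^ 2 / 2 := by positivity
        linarith
      · have : mva [] mu = 0 := rfl
        rw [this, add_zero]
        exact (ih false M).trans hmono
    | true =>
      rw [sv, mva_append]
      split_ifs with h
      · rw [mva_append, mva_put]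
        have h1 := ih true M
        have h2 := mul_le_mul_of_nonneg_left (ih false (M - (m + 1))) (mu_nonneg m (by omega))
        have h3 := key h.1
        have h4 : |(-1 : ℝ)| = 1 := by norm_num
        have h6 : mva [(1 / 2, [m, m])] mu = mu m ^ 2 / 2 := by
          simp [mva]
          ring
        rw [h4, one_mul, h6]
        linarith
      · have : mva [] mu = 0 := rfl
        rw [this, add_zero]
        exact (ih true M).trans hmono

theorem mva_rich (J m M : ℕ) (b : ℕ → ℝ) (κ : ℕ) (hJ : 0 < J) (hJm : J ≤ m)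
    (hb : ∀ j, m ≤ j → j < κ → 0 ≤ b j ∧ b j ≤ 2) :
    mva (rich J m M b κ) mu ≤ (m : ℝ) / J * (1 + 2 * ((κ - m : ℕ) : ℝ) / m) := by
  have hJ0 : (0 : ℝ) < J := by exact_mod_cast hJ
  have hm0 : (0 : ℝ) < m := by
    have : 0 < m := by omega
    exact_mod_cast this
  induction κ with
  | zero =>
    have h1 := mva_sv J hJ m false M
    rw [max_eq_left hJm] at h1
    simpa [rich] using h1
  | succ κ ih =>
    have ih' := ih fun j h1 h2 => hb j h1 (by omega)
    rw [rich, mva_append]
    split_ifs with h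
    · rw [mva_put]
      obtain ⟨h1, h2⟩ := hb κ h (Nat.lt_succ_self κ)
      have h3 := mva_sv J hJ m true (M - (κ + 1))
      rw [max_eq_left hJm] at h3
      have h4 := mu_le κ (by omega)
      have h5 := mu_nonneg κ (by omega)
      have h6 : mu κ ≤ 1 / m := by
        refine h4.trans ?_
        exact one_div_le_one_div_of_le hm0 (by exact_mod_cast h)
      have h7 : |(-b κ)| * mu κ * mva (sv J m true (M - (κ + 1))) mu ≤ 2 * (1 / m) * (m / J) := by
        rw [abs_neg, abs_of_nonneg h1]
        have h8 : b κ * mu κ ≤ 2 * (1 / m) := mul_le_mul h2 h6 h5 (by norm_num)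
        have h9 : b κ * mu κ * mva (sv J m true (M - (κ + 1))) mu ≤ b κ * mu κ * (m / J) :=
          mul_le_mul_of_nonneg_left h3 (mul_nonneg h1 h5)
        exact h9.trans (mul_le_mul_of_nonneg_right h8 (by positivity))
      have h10 : ((κ + 1 - m : ℕ) : ℝ) = ((κ - m : ℕ) : ℝ) + 1 := by
        have : κ + 1 - m = κ - m + 1 := by omega
        rw [this]
        push_cast
        ring
      rw [h10]
      have h11 : (m : ℝ) / J * (1 + 2 * (((κ - m : ℕ) : ℝ) + 1) / m) =
          (m : ℝ) / J * (1 + 2 * ((κ - m : ℕ) : ℝ) / m) + 2 * (1 / m) * (m / J) := by ring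
      rw [h11]
      linarith
    · have h0 : mva [] mu = 0 := rfl
      rw [h0, add_zero]
      have h10 : κ + 1 - m = 0 := by omega
      have h11 : κ - m = 0 := by omega
      rw [h11] at ih'
      rw [h10]
      exact ih'

theorem lift_split' (p : List ℕ → List ℕ → Prop) : ∀ (L : List (ℝ × List ℕ)),
    (∀ w ∈ L, ∃ P1 P2 : List ℕ, (P1 ++ P2).Perm w.2 ∧ p P1 P2) →
    ∃ W : List (ℝ × List ℕ × List ℕ), (∀ k, ev2 W k = ev L k) ∧ (∀ μ, mv2 W μ = mv L μ) ∧
      (∀ w ∈ W, p w.2.1 w.2.2 ∧ ∃ v ∈ L, (w.2.1 ++ w.2.2).Perm v.2) ∧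
      ∀ μ, mva2 W μ = mva L μ := by
  intro L
  induction L with
  | nil => intro _; exact ⟨[], fun _ => rfl, fun _ => rfl, by simp, fun _ => rfl⟩
  | cons v L ih =>
    intro h
    obtain ⟨W, h1, h2, h3, h0⟩ := ih fun w hw => h w (List.mem_cons_of_mem _ hw)
    obtain ⟨P1, P2, h4, h5⟩ := h v List.mem_cons_self
    refine ⟨(v.1, P1, P2) :: W, ?_, ?_, ?_, ?_⟩
    · intro k
      have e1 : ev2 ((v.1, P1, P2) :: W) k = v.1 * mono (P1 ++ P2) k + ev2 W k := by
        simp [ev2]
      have e2 : ev (v :: L) k = v.1 * mono v.2 k + ev L k := by simp [ev]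
      rw [e1, e2, h1 k, mono_perm h4]
    · intro μ
      have e1 : mv2 ((v.1, P1, P2) :: W) μ = v.1 * ((P1 ++ P2).map μ).prod + mv2 W μ := by
        simp [mv2]
      have e2 : mv (v :: L) μ = v.1 * (v.2.map μ).prod + mv L μ := by simp [mv]
      rw [e1, e2, h2 μ, (h4.map μ).prod_eq]
    · intro w hw
      rcases List.mem_cons.1 hw with rfl | hw
      · exact ⟨h5, v, List.mem_cons_self, h4⟩
      · obtain ⟨h6, u, hu, h7⟩ := h3 w hw
        exact ⟨h6, u, List.mem_cons_of_mem _ hu, h7⟩
    · intro μ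
      have e1 : mva2 ((v.1, P1, P2) :: W) μ = |v.1| * ((P1 ++ P2).map μ).prod + mva2 W μ := by
        simp [mva2]
      have e2 : mva (v :: L) μ = |v.1| * (v.2.map μ).prod + mva L μ := by simp [mva]
      rw [e1, e2, h0 μ, (h4.map μ).prod_eq]

end Pool.Agent.H89.P2
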