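import Pool.Agent.H89.P2.Fin
import Pool.Agent.H89.P2.Ab

/-!
[H89 P2 WT]  Existence of the `P_2` weights (the interface of the sieve part of ChenTuples).

`a` is the exponent of the presieve (`n` has no prime factor below `x^a`), `δ = a/J` the length of the
boxes `[x^(j δ), x^((j+1) δ))`, `j ≥ J`, and `k j` is the number of primes of `n` in box `j`.
A weight is a list of `(c, P, Q)`: `ev2 W k = ∑ c * mono (P ++ Q) k`, where `mono R k` is the number of tuples
of distinct primes of `n` with boxes `R`.  The primes of `P` have product `≤ x^(1/2 - 1/2000)`, those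
of `Q` have product `≤ x^(1/20 - 1/2000)`.
-/

namespace Pool.Agent.H89.P2

theorem weights_exist (a : ℝ) (ha : 0 < a) (ha1 : a ≤ 1 / 20) : ∃ J0 : ℕ, 0 < J0 ∧
    ∀ J : ℕ, J0 ≤ J → ∃ W : List (ℝ × List ℕ × List ℕ),
      (∀ w ∈ W, ∀ j ∈ w.2.1 ++ w.2.2, J ≤ j ∧ ((j : ℝ) + 1) * (a / J) ≤ 1 / 2 - 1 / 200) ∧
      (∀ w ∈ W, (size w.2.1 : ℝ) * (a / J) ≤ 1 / 2 - 1 / 2000 ∧
        (size w.2.2 : ℝ) * (a / J) ≤ 1 / 20 - 1 / 2000) ∧
      (∀ (k : ℕ → ℕ) (B : ℕ), (∀ j, j < J → k j = 0) →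
        3 ≤ ∑ j ∈ Finset.range B, k j →
        (∑ j ∈ Finset.range B, (k j : ℝ) * j) * (a / J) ≤ 1 + 1 / 1000 → ev2 W k ≤ 0) ∧
      (∀ (k : ℕ → ℕ) (j : ℕ), J ≤ j → k j ≠ 0 → ((j : ℝ) + 1) * (a / J) ≤ 137 / 1000 →
        ev2 W k ≤ 0) ∧
      (∀ (k : ℕ → ℕ) (B : ℕ), (∀ j, B ≤ j → k j = 0) →
        |ev2 W k| ≤ 2 * Real.exp (∑ j ∈ Finset.range B, (k j : ℝ))) ∧
      a / 100 ≤ mv2 W mu ∧ mva2 W mu ≤ 1 / a := by
  set S : ℝ := 549 / 1000 / a with hSdef
  have hS10 : 10 ≤ S := by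
    rw [hSdef, le_div_iff₀ ha]
    linarith
  obtain ⟨A, F, f, h⟩ := ff_exists S (by linarith)
  have hA := h.hA
  set E0 : ℝ := 32 * A * Real.exp (6 * S) with hE0
  have hE0p : 0 < E0 := by positivity
  obtain ⟨J0, hJ0⟩ := exists_nat_ge (max (800 * E0 / a) (max (1000000 * a) 1000))
  have hJ0' : (1000 : ℝ) ≤ J0 := (le_max_right _ _).trans ((le_max_right _ _).trans hJ0)
  refine ⟨J0, by
    have : (0 : ℝ) < J0 := by linarith
    exact_mod_cast this, ?_⟩
  intro J hJ
  have hJR : (J0 : ℝ) ≤ J := by exact_mod_cast hJ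
  have hJ1 : 800 * E0 / a ≤ J := ((le_max_left _ _).trans hJ0).trans hJR
  have hJ2 : 1000000 * a ≤ J := (((le_max_left _ _).trans (le_max_right _ _)).trans hJ0).trans hJR
  have hJ3 : (1000 : ℝ) ≤ J := hJ0'.trans hJR
  have hJp : (0 : ℝ) < J := by linarith
  have hJN : 0 < J := by exact_mod_cast hJp
  set δ : ℝ := a / J with hδ
  have hδ0 : 0 < δ := by positivity
  have hδ1 : δ ≤ 1 / 1000000 := by
    rw [hδ, div_le_div_iff₀ hJp (by norm_num)]
    linarith
  -- the number `n`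
  set t : ℝ := 549 / 1000 / (20 * δ) with ht
  have ht2 : 2 ≤ t := by
    rw [ht, le_div_iff₀ (by positivity)]
    linarith
  set n : ℕ := ⌊t⌋₊ - 1 with hn
  have hfl : 2 ≤ ⌊t⌋₊ := Nat.le_floor (by exact_mod_cast ht2)
  have hnR : (n : ℝ) = (⌊t⌋₊ : ℝ) - 1 := by
    rw [hn, Nat.cast_sub (by omega)]
    norm_num
  have hn1 : (n : ℝ) ≤ t - 1 := by
    rw [hnR]
    linarith [Nat.floor_le (by linarith : (0 : ℝ) ≤ t)]
  have hn2 : t - 2 ≤ n := by
    rw [hnR]
    linarith [Nat.lt_floor_add_one t]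
  have htδ : 20 * t * δ = 549 / 1000 := by
    rw [ht]
    field_simp
  have hα1 : 20 * (n : ℝ) * δ ≤ 549 / 1000 - 20 * δ := by nlinarith
  have hα2 : 549 / 1000 - 40 * δ ≤ 20 * (n : ℝ) * δ := by nlinarith
  have hα3 : 5485 / 10000 ≤ 20 * (n : ℝ) * δ := by linarith
  have hn0 : (0 : ℝ) < n := by
    by_contra hcon
    rw [not_lt] at hcon
    nlinarith
  have hnN : 0 < n := by exact_mod_cast hn0
  have hnbig : (10000 : ℝ) ≤ n := by
    by_contra hcon
    rw [not_le] at hcon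
    nlinarith
  have hJn : J ≤ 2 * n := by
    have h1 : δ * J = a := by
      rw [hδ]
      field_simp
    have h2 : (J : ℝ) * δ ≤ 2 * n * δ := by nlinarith
    have h3 : (J : ℝ) ≤ 2 * n := le_of_mul_le_mul_right h2 hδ0
    exact_mod_cast h3
  have hSJ : 20 * (n : ℝ) ≤ S * J := by
    have h1 : S * J = 549 / 1000 / δ := by
      rw [hSdef, hδ]
      field_simp
    rw [h1, le_div_iff₀ hδ0]
    linarith
  set lam : ℝ := 3 - 3 / (18 * n) - (1 + 1 / 1000) / (18 * n * δ) with hlam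
  have h18 : 49365 / 100000 ≤ 18 * (n : ℝ) * δ := by linarith
  have hq1 : (1 + 1 / 1000) / (18 * (n : ℝ) * δ) ≤ 2028 / 1000 := by
    rw [div_le_iff₀ (by linarith)]
    linarith
  have hq2 : 3 / (18 * (n : ℝ)) ≤ 1 / 60000 := by
    rw [div_le_div_iff₀ (by linarith) (by norm_num)]
    linarith
  have hlam1 : 97 / 100 ≤ lam := by
    rw [hlam]
    linarith
  have hlam0 : 0 < lam := by linarith
  have hlam2 : lam ≤ 3 := by
    rw [hlam]
    have h1 : 0 ≤ 3 / (18 * (n : ℝ)) := by positivity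
    have h2 : 0 ≤ (1 + 1 / 1000) / (18 * (n : ℝ) * δ) := by positivity
    linarith
  set b : ℕ → ℝ := fun j => (1 - ((j : ℝ) + 1) / (18 * n)) / lam with hb
  have hbb : ∀ j, 5 * n ≤ j → j < 18 * n → 0 ≤ b j ∧ b j ≤ 2 := by
    intro j _ hj
    have hj18 : (j : ℝ) + 1 ≤ 18 * n := by
      have : j + 1 ≤ 18 * n := by omega
      exact_mod_cast this
    have h1 : 0 ≤ 1 - ((j : ℝ) + 1) / (18 * n) := by
      rw [sub_nonneg, div_le_one (by linarith)]
      exact hj18
    have h2 : 1 - ((j : ℝ) + 1) / (18 * n) ≤ 1 := by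
      have : 0 ≤ ((j : ℝ) + 1) / (18 * n) := by positivity
      linarith
    refine ⟨div_nonneg h1 hlam0.le, ?_⟩
    simp only [hb]
    rw [div_le_iff₀ hlam0]
    linarith
  -- the splitting
  set Mb : ℕ := ⌊(1 / 20 - 1 / 2000) / δ⌋₊ with hMb
  have hMb1 : (Mb : ℝ) * δ ≤ 1 / 20 - 1 / 2000 := by
    have h1 : (Mb : ℝ) ≤ (1 / 20 - 1 / 2000) / δ := Nat.floor_le (by positivity)
    rw [le_div_iff₀ hδ0] at h1
    exact h1
  have hMb2 : 1 / 20 - 1 / 2000 - δ ≤ (Mb : ℝ) * δ := by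
    have h1 := Nat.lt_floor_add_one ((1 / 20 - 1 / 2000) / δ)
    rw [← hMb, div_lt_iff₀ hδ0] at h1
    linarith
  have hMbn : Mb + 18 * n ≤ 20 * n := by
    have h1 : ((Mb : ℝ) + 18 * n) * δ ≤ (20 * n) * δ := by linarith
    have h2 : (Mb : ℝ) + 18 * n ≤ 20 * n := le_of_mul_le_mul_right h1 hδ0
    exact_mod_cast h2
  set Ma : ℕ := 20 * n - Mb with hMa
  have hMaR : (Ma : ℝ) = 20 * n - Mb := by
    rw [hMa, Nat.cast_sub (by omega)]
    push_cast
    ring
  have hMa1 : (Ma : ℝ) * δ ≤ 1 / 2 - 1 / 2000 := by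
    rw [hMaR, sub_mul]
    linarith
  have hspl := spl_rich J (5 * n) (20 * n) b (by omega) Ma Mb (by omega) (18 * n) (by omega)
  obtain ⟨W, hW1, hW2, hW3, hW4⟩ := lift_split' (fun P Q => size P ≤ Ma ∧ size Q ≤ Mb)
    (rich J (5 * n) (20 * n) b (18 * n)) hspl
  refine ⟨W, ?_, ?_, ?_, ?_, ?_, ?_, ?_⟩
  · intro w hw j hj
    obtain ⟨-, v, hv, hperm⟩ := hW3 w hw
    have h1 := mem_rich J (5 * n) (20 * n) b (by omega) (18 * n) (by omega) v hv j
      (hperm.mem_iff.1 hj)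
    refine ⟨h1.1, ?_⟩
    have h2 : (j : ℝ) + 1 ≤ 18 * n := by
      have : j + 1 ≤ 18 * n := by omega
      exact_mod_cast this
    have h3 : ((j : ℝ) + 1) * δ ≤ 18 * n * δ := mul_le_mul_of_nonneg_right h2 hδ0.le
    linarith
  · intro w hw
    obtain ⟨⟨h1, h2⟩, -⟩ := hW3 w hw
    have h1R : (size w.2.1 : ℝ) ≤ Ma := by exact_mod_cast h1
    have h2R : (size w.2.2 : ℝ) ≤ Mb := by exact_mod_cast h2
    constructor
    · exact (mul_le_mul_of_nonneg_right h1R hδ0.le).trans hMa1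
    · exact (mul_le_mul_of_nonneg_right h2R hδ0.le).trans hMb1
  · intro k B hkJ h3 hs
    rw [hW1]
    refine (rich_le J (5 * n) (20 * n) b k (18 * n) fun j h1 h2 => (hbb j h1 h2).1).trans ?_
    unfold ind
    split_ifs with hind
    · have hk : ∀ j, j < 5 * n → k j = 0 := by
        intro j hj
        rcases Nat.lt_or_ge j J with h4 | h4
        · exact hkJ j h4
        · exact hind j h4 hj
      have h5 := richert_ge n hnN δ lam hδ0 hlam0 hlam k B hk h3 hs
      simp only [hb]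
      linarith
    · rw [zero_mul]
  · intro k j hJj hkj hj
    rw [hW1]
    refine (rich_le J (5 * n) (20 * n) b k (18 * n) fun j h1 h2 => (hbb j h1 h2).1).trans ?_
    unfold ind
    rw [if_neg, zero_mul]
    intro hall
    apply hkj
    apply hall j hJj
    have h1 : ((j : ℝ) + 1) * δ < (5 * n) * δ := by linarith
    have h2 : (j : ℝ) + 1 < 5 * n := lt_of_mul_lt_mul_right h1 hδ0.le
    have h3 : j + 1 < 5 * n := by exact_mod_cast h2
    omega
  · intro k B hkB
    rw [hW1]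
    have h1 := rich_bound J (5 * n) (20 * n) b k (18 * n) hbb (max B (18 * n)) (by omega)
      (le_max_right _ _)
    refine h1.trans ?_
    have h2 : ∑ j ∈ Finset.range (max B (18 * n)), (k j : ℝ) = ∑ j ∈ Finset.range B, (k j : ℝ) := by
      symm
      apply Finset.sum_subset (Finset.range_mono (le_max_left _ _))
      intro j _ hj
      rw [Finset.mem_range, not_lt] at hj
      rw [hkB j hj]
      simp
    rw [h2]
  · rw [hW2]
    have h1 := rich_mean h hJN hJn hSJ lam hlam0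
    refine le_trans ?_ h1
    have hlog : (1 : ℝ) ≤ Real.log 3 := by
      rw [Real.le_log_iff_exp_le (by norm_num)]
      exact Real.exp_one_lt_three.le
    have h2 : 26 / 27 * (1 + 1 / (5 * (n : ℝ))) / lam ≤ 9935 / 10000 := by
      rw [div_le_iff₀ hlam0]
      have h3 : 1 / (5 * (n : ℝ)) ≤ 1 / 50000 := by
        apply one_div_le_one_div_of_le (by norm_num)
        linarith
      nlinarith
    have h3 : (65 / 10000 : ℝ) ≤ 1 - 26 / 27 * (1 + 1 / (5 * (n : ℝ))) / lam := by linarith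
    have h4 : (7 : ℝ) * a ≤ J / (5 * n) := by
      rw [le_div_iff₀ (by linarith)]
      have h5 : δ * J = a := by
        rw [hδ]
        field_simp
      have h6 : 7 * a * (5 * n) = (7 / 4 * (20 * n * δ)) * J := by
        rw [← h5]
        ring
      rw [h6]
      have h7 : 7 / 4 * (20 * (n : ℝ) * δ) ≤ 1 := by linarith
      nlinarith
    have h5 : (3 / 4 : ℝ) ≤ A / 4 := by linarith
    have h6 : 7 * a * (3 / 4) * 1 * (65 / 10000) ≤
        (J : ℝ) / (5 * n) * (A / 4) * Real.log 3 * (1 - 26 / 27 * (1 + 1 / (5 * n)) / lam) := by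
      apply mul_le_mul _ h3 (by norm_num) (by positivity)
      apply mul_le_mul _ hlog (by norm_num) (by positivity)
      exact mul_le_mul h4 h5 (by norm_num) (by positivity)
    have h7 : (1 + 6 / lam) * (32 * A * Real.exp (6 * S) / J) ≤ 8 * (a / 800) := by
      have h8 : 6 / lam ≤ 7 := by
        rw [div_le_iff₀ hlam0]
        linarith
      have h9 : 32 * A * Real.exp (6 * S) / J ≤ a / 800 := by
        rw [← hE0, div_le_div_iff₀ hJp (by norm_num)]
        rw [div_le_iff₀ ha] at hJ1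
        linarith
      apply mul_le_mul (by linarith) h9 (by positivity) (by norm_num)
    nlinarith
  · rw [hW4]
    have h1 := mva_rich J (5 * n) (20 * n) b (18 * n) hJN (by omega) hbb
    refine h1.trans ?_
    have h2 : ((18 * n - 5 * n : ℕ) : ℝ) = 13 * n := by
      have : 18 * n - 5 * n = 13 * n := by omega
      rw [this]
      push_cast
      ring
    rw [h2]
    push_cast
    have h3 : 5 * (n : ℝ) / J * (1 + 2 * (13 * n) / (5 * n)) = 31 * n / J := by
      field_simp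
      ring
    have h5 : δ * J = a := by
      rw [hδ]
      field_simp
    rw [h3, div_le_div_iff₀ hJp ha, ← h5]
    have h6 : 31 * (n : ℝ) * (δ * J) = 31 / 20 * (20 * n * δ) * J := by ring
    rw [h6]
    have h7 : 31 / 20 * (20 * (n : ℝ) * δ) ≤ 1 := by linarith
    exact mul_le_mul_of_nonneg_right h7 hJp.le

end Pool.Agent.H89.P2
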