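import Pool.Agent.H89.P2.Ua
import Pool.Agent.H89.P2.Wt
import Pool.Agent.H89.P2.Tr

/-!
[H89 P2 UP]  The upper linear sieve of level `.549` as a majorant of the primes.

`upper_final`: for `0 < a ≤ 1/20`, `e > 0` there are `J`, `W` such that with `δ = a/J`, `G x n = ev2 W (kk x δ n)`: the
patterns split into parts of level `x^(1/2-1/2000)` and `x^(1/20-1/2000)`; `0 ≤ G`, `1 ≤ G` at the primes `> √x`,
`|G| ≤ 2 exp(2/a)` for `n ≤ x^(1+1/1000)`; the model mean is at least `a` and at most `(1+e) 6.588 a`.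
-/

namespace Pool.Agent.H89.P2

open Pool.Agent.H11.PT Finset

/-- the means of the lower and the upper sieve and the probability of no prime -/
theorem mv_pw (J : ℕ) (μ : ℕ → ℝ) (hμ : ∀ j, J ≤ j → 0 ≤ μ j) : ∀ (m M : ℕ),
    mv (sv J m false M) μ ≤ Real.exp (-∑ j ∈ Ico J m, μ j) ∧
    Real.exp (-∑ j ∈ Ico J m, μ j) ≤ mv (sv J m true M) μ := by
  intro m
  induction m with
  | zero =>
    intro M
    rw [mv_zero, mv_zero]
    simp
  | succ m ih =>
    intro M
    by_cases hJ : J ≤ m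
    · rw [Finset.sum_Ico_succ_top hJ, neg_add, Real.exp_add]
      set v := Real.exp (-∑ j ∈ Ico J m, μ j) with hv
      have hs : 0 ≤ ∑ j ∈ Ico J m, μ j :=
        Finset.sum_nonneg fun j hj => hμ j (Finset.mem_Ico.1 hj).1
      have hv0 : 0 < v := Real.exp_pos _
      have hv1 : v ≤ 1 := by
        rw [hv]
        apply Real.exp_le_one_iff.2
        linarith
      have hm := hμ m hJ
      have l1 : 1 - μ m ≤ Real.exp (-μ m) := Real.one_sub_le_exp_neg _
      have l2 : Real.exp (-μ m) ≤ 1 - μ m + μ m ^ 2 / 2 := by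
        have h1 : 1 ≤ (1 - μ m + μ m ^ 2 / 2) * Real.exp (μ m) := by
          have h2 : 1 + μ m + μ m ^ 2 / 2 ≤ Real.exp (μ m) := Real.quadratic_le_exp_of_nonneg hm
          have h3 : 0 ≤ 1 - μ m + μ m ^ 2 / 2 := by nlinarith [sq_nonneg (μ m - 1)]
          have h4 := mul_le_mul_of_nonneg_left h2 h3
          have h5 : (1 - μ m + μ m ^ 2 / 2) * (1 + μ m + μ m ^ 2 / 2) = 1 + μ m ^ 4 / 4 := by ring
          have h6 : 0 ≤ μ m ^ 4 / 4 := by positivity
          linarith
        have h7 : Real.exp (-μ m) * Real.exp (μ m) = 1 := by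
          rw [← Real.exp_add]
          simp
        have h8 : 0 < Real.exp (μ m) := Real.exp_pos _
        by_contra hcon
        rw [not_le] at hcon
        have := mul_lt_mul_of_pos_right hcon h8
        linarith
      constructor
      · rw [mv_low, if_pos hJ]
        have h1 := (ih M).1
        have h2 := (ih (M - (m + 1))).2
        have h3 : μ m * v ≤ μ m * mv (sv J m true (M - (m + 1))) μ :=
          mul_le_mul_of_nonneg_left h2 hm
        have h4 : v * (1 - μ m) ≤ v * Real.exp (-μ m) := mul_le_mul_of_nonneg_left l1 hv0.le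
        linarith
      · rw [mv_up]
        have h1 := (ih M).2
        have h4 : v * Real.exp (-μ m) ≤ v * (1 - μ m + μ m ^ 2 / 2) :=
          mul_le_mul_of_nonneg_left l2 hv0.le
        split_ifs with hc
        · have h2 := (ih (M - (m + 1))).1
          have h3 : μ m * mv (sv J m false (M - (m + 1))) μ ≤ μ m * v :=
            mul_le_mul_of_nonneg_left h2 hm
          have h5 : v * (μ m ^ 2 / 2) ≤ 1 * (μ m ^ 2 / 2) :=
            mul_le_mul_of_nonneg_right hv1 (by positivity)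
          linarith
        · have h6 : v * Real.exp (-μ m) ≤ v * 1 :=
            mul_le_mul_of_nonneg_left (Real.exp_le_one_iff.2 (by linarith)) hv0.le
          linarith
    · have h0 : Ico J (m + 1) = Ico J m := by
        rw [Finset.Ico_eq_empty_of_le (by omega), Finset.Ico_eq_empty_of_le (by omega)]
      rw [h0, mv_low, mv_up, if_neg hJ, if_neg (by tauto), sub_zero, sub_zero]
      exact ih M

theorem sum_mu (J : ℕ) (hJ : 0 < J) : ∀ m, J ≤ m →
    ∑ j ∈ Ico J m, mu j = Real.log ((m : ℝ) / J) := by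
  intro m hm
  induction m, hm using Nat.le_induction with
  | base =>
    have : (J : ℝ) ≠ 0 := by
      have : (0 : ℝ) < J := by exact_mod_cast hJ
      exact this.ne'
    rw [div_self this]
    simp
  | succ m hm ih =>
    have hJ0 : (0 : ℝ) < J := by exact_mod_cast hJ
    have hm0 : (0 : ℝ) < m := by
      have : 0 < m := by omega
      exact_mod_cast this
    rw [Finset.sum_Ico_succ_top hm, ih]
    unfold mu
    rw [← Real.log_mul (by positivity) (by positivity)]
    congr 1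
    push_cast
    field_simp

/-- the upper linear sieve of level `.549` -/
theorem upper_exist (a e : ℝ) (ha : 0 < a) (ha1 : a ≤ 1 / 20) (he : 0 < e) :
    ∃ J0 : ℕ, 0 < J0 ∧ ∀ J : ℕ, J0 ≤ J → ∃ (m : ℕ) (W : List (ℝ × List ℕ × List ℕ)),
      (m : ℝ) * (a / J) ≤ 19 / 100 ∧
      (∀ w ∈ W, ∀ j ∈ w.2.1 ++ w.2.2, J ≤ j ∧ j < m) ∧
      (∀ w ∈ W, (size w.2.1 : ℝ) * (a / J) ≤ 1 / 2 - 1 / 2000 ∧
        (size w.2.2 : ℝ) * (a / J) ≤ 1 / 20 - 1 / 2000) ∧
      (∀ k : ℕ → ℕ, 0 ≤ ev2 W k) ∧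
      (∀ k : ℕ → ℕ, (∀ j, J ≤ j → j < m → k j = 0) → 1 ≤ ev2 W k) ∧
      (∀ (k : ℕ → ℕ) (B : ℕ), (∀ j, B ≤ j → k j = 0) →
        |ev2 W k| ≤ 2 * Real.exp (∑ j ∈ Finset.range B, (k j : ℝ))) ∧
      a ≤ mv2 W mu ∧ mv2 W mu ≤ (1 + e) * (6588 / 1000 * a) := by
  set S : ℝ := 549 / 1000 / a with hSdef
  have hS10 : 10 ≤ S := by
    rw [hSdef, le_div_iff₀ ha]
    linarith
  obtain ⟨A, F, f, h, hFS⟩ := ff_exists1 S (by linarith)
  have hA := h.hA
  have hAle := h.A_le hFS
  set E0 : ℝ := 64 * A * Real.exp (6 * S) with hE0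
  have hE0p : 0 < E0 := by positivity
  obtain ⟨J0, hJ0⟩ := exists_nat_ge (max (2 * E0 / (e * a)) (max (1000 * a / e) (max (1000000 * a) 1000)))
  have hJ0' : (1000 : ℝ) ≤ J0 :=
    (le_max_right _ _).trans ((le_max_right _ _).trans ((le_max_right _ _).trans hJ0))
  refine ⟨J0, by
    have : (0 : ℝ) < J0 := by linarith
    exact_mod_cast this, ?_⟩
  intro J hJ
  have hJR : (J0 : ℝ) ≤ J := by exact_mod_cast hJ
  have hJ1 : 2 * E0 / (e * a) ≤ J := ((le_max_left _ _).trans hJ0).trans hJR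
  have hJe : 1000 * a / e ≤ J :=
    (((le_max_left _ _).trans (le_max_right _ _)).trans hJ0).trans hJR
  have hJ2 : 1000000 * a ≤ J :=
    (((le_max_left _ _).trans ((le_max_right _ _).trans (le_max_right _ _))).trans hJ0).trans hJR
  have hJ3 : (1000 : ℝ) ≤ J := hJ0'.trans hJR
  have hJp : (0 : ℝ) < J := by linarith
  have hJN : 0 < J := by exact_mod_cast hJp
  set δ : ℝ := a / J with hδ
  have hδ0 : 0 < δ := by positivity
  have hδ1 : δ ≤ 1 / 1000000 := by
    rw [hδ, div_le_div_iff₀ hJp (by norm_num)]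
    linarith
  have hδe : 1000 * δ ≤ e := by
    rw [hδ, ← mul_div_assoc, div_le_iff₀ hJp]
    rw [div_le_iff₀ he] at hJe
    linarith
  have hJδ : (J : ℝ) * δ = a := by
    rw [hδ]
    field_simp
  -- the splitting
  set Mb : ℕ := ⌊(1 / 20 - 1 / 2000) / δ⌋₊ with hMb
  have hMb1 : (Mb : ℝ) * δ ≤ 1 / 20 - 1 / 2000 := by
    have h1 : (Mb : ℝ) ≤ (1 / 20 - 1 / 2000) / δ := Nat.floor_le (by positivity)
    rw [le_div_iff₀ hδ0] at h1
    exact h1
  have hMb2 : 1 / 20 - 1 / 2000 - δ ≤ (Mb : ℝ) * δ := by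
    have h1 := Nat.lt_floor_add_one ((1 / 20 - 1 / 2000) / δ)
    rw [← hMb, div_lt_iff₀ hδ0] at h1
    linarith
  set Ma : ℕ := ⌊(1 / 2 - 1 / 2000) / δ⌋₊ with hMa
  have hMa1 : (Ma : ℝ) * δ ≤ 1 / 2 - 1 / 2000 := by
    have h1 : (Ma : ℝ) ≤ (1 / 2 - 1 / 2000) / δ := Nat.floor_le (by positivity)
    rw [le_div_iff₀ hδ0] at h1
    exact h1
  have hMa2 : 1 / 2 - 1 / 2000 - δ ≤ (Ma : ℝ) * δ := by
    have h1 := Nat.lt_floor_add_one ((1 / 2 - 1 / 2000) / δ)
    rw [← hMa, div_lt_iff₀ hδ0] at h1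
    linarith
  set M : ℕ := Ma + Mb with hM
  have hMR : (M : ℝ) = Ma + Mb := by
    rw [hM]
    push_cast
    ring
  have hM1 : (M : ℝ) * δ ≤ 549 / 1000 := by
    rw [hMR, add_mul]
    linarith
  have hM2 : 549 / 1000 - 2 * δ ≤ (M : ℝ) * δ := by
    rw [hMR, add_mul]
    linarith
  have hM0 : (0 : ℝ) < M := by
    by_contra hcon
    rw [not_lt] at hcon
    nlinarith
  set m : ℕ := (M + 2) / 3 with hm
  have hm1 : M ≤ 3 * m := by omega
  have hm2 : 3 * m ≤ M + 2 := by omega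
  have hm1R : (M : ℝ) ≤ 3 * m := by exact_mod_cast hm1
  have hm2R : 3 * (m : ℝ) ≤ M + 2 := by exact_mod_cast hm2
  have hm0 : (0 : ℝ) < m := by linarith
  have hJm : J ≤ m := by
    have h1 : (J : ℝ) * δ ≤ m * δ := by
      have h2 : (M : ℝ) * δ ≤ 3 * m * δ := mul_le_mul_of_nonneg_right hm1R hδ0.le
      rw [hJδ]
      linarith
    have h3 : (J : ℝ) ≤ m := le_of_mul_le_mul_right h1 hδ0
    exact_mod_cast h3
  have hmM : m ≤ M := by
    have h1 : (1 : ℝ) < M := by
      by_contra hcon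
      rw [not_lt] at hcon
      nlinarith
    have : 1 < M := by exact_mod_cast h1
    omega
  have hmδ : (m : ℝ) * δ ≤ 19 / 100 := by
    have h1 : 3 * (m : ℝ) * δ ≤ (M + 2) * δ := mul_le_mul_of_nonneg_right hm2R hδ0.le
    linarith
  have hSJ : (M : ℝ) ≤ S * J := by
    have h1 : S * J = 549 / 1000 / δ := by
      rw [hSdef, hδ]
      field_simp
    rw [h1, le_div_iff₀ hδ0]
    exact hM1
  obtain ⟨W, hW1, hW2, hW3⟩ := lift_split (fun P Q => size P ≤ Ma ∧ size Q ≤ Mb)
    (sv J m true M) (fun w hw => (spl_sv J m).2 M w hw Ma Mb hM.symm)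
  refine ⟨m, W, hmδ, ?_, ?_, ?_, ?_, ?_, ?_, ?_⟩
  · intro w hw j hj
    obtain ⟨-, v, hv, hperm⟩ := hW3 w hw
    exact mem_sv J m true M v hv j (hperm.mem_iff.1 hj)
  · intro w hw
    obtain ⟨⟨h1, h2⟩, -⟩ := hW3 w hw
    have h1R : (size w.2.1 : ℝ) ≤ Ma := by exact_mod_cast h1
    have h2R : (size w.2.2 : ℝ) ≤ Mb := by exact_mod_cast h2
    exact ⟨(mul_le_mul_of_nonneg_right h1R hδ0.le).trans hMa1,
      (mul_le_mul_of_nonneg_right h2R hδ0.le).trans hMb1⟩
  · intro k
    rw [hW1]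
    exact (ind_nonneg J m k).trans (pw J k m M).2
  · intro k hk
    rw [hW1]
    refine le_trans (le_of_eq ?_) (pw J k m M).2
    unfold ind
    rw [if_pos hk]
  · intro k B hkB
    rw [hW1]
    have h1 := ev_bound J k m true M
    refine h1.trans ?_
    have h2 : ∑ j ∈ Finset.range m, (k j : ℝ) ≤ ∑ j ∈ Finset.range B, (k j : ℝ) := by
      have h3 : ∑ j ∈ Finset.range (max B m), (k j : ℝ) = ∑ j ∈ Finset.range B, (k j : ℝ) := by
        symm
        apply Finset.sum_subset (Finset.range_mono (le_max_left _ _))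
        intro j _ hj
        rw [Finset.mem_range, not_lt] at hj
        rw [hkB j hj]
        simp
      rw [← h3]
      exact Finset.sum_le_sum_of_subset_of_nonneg (Finset.range_mono (le_max_right _ _))
        fun j _ _ => Nat.cast_nonneg _
    have h4 := Real.exp_le_exp.2 h2
    have h5 := Real.exp_pos (∑ j ∈ Finset.range B, (k j : ℝ))
    linarith
  · rw [hW2]
    have h1 := (mv_pw J mu (fun j hj => mu_nonneg j (by omega)) m M).2
    rw [sum_mu J hJN m hJm, Real.exp_neg, Real.exp_log (by positivity)] at h1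
    refine le_trans ?_ h1
    rw [inv_div, le_div_iff₀ hm0]
    have h2 : (m : ℝ) * δ * J ≤ 1 * J := mul_le_mul_of_nonneg_right (by linarith) hJp.le
    have h3 : a * m = m * δ * J := by
      rw [← hJδ]
      ring
    linarith
  · rw [hW2]
    have h1 := main_up h hJN hJm (by omega : J ≤ M) hSJ
    refine h1.trans ?_
    have hF : F ((M : ℝ) / m) = A / (M / m) := by
      apply h.F3 _ (by positivity)
      rw [div_le_iff₀ hm0]
      exact hm1R
    have h2 : (J : ℝ) / m * F (M / m) = A * J / M := by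
      rw [hF]
      field_simp
    have h3 : A * J / M ≤ (1 + e / 2) * (6588 / 1000 * a) := by
      rw [div_le_iff₀ hM0]
      have h4 : A * (J * δ) ≤ (1 + e / 2) * (6588 / 1000 * a) * (M * δ) := by
        rw [hJδ]
        have h5 : (1 + e / 2) * (6588 / 1000 * a) * (549 / 1000 - 2 * δ) ≤
            (1 + e / 2) * (6588 / 1000 * a) * (M * δ) :=
          mul_le_mul_of_nonneg_left hM2 (by positivity)
        refine le_trans ?_ h5
        have h6 : 2000 / 553 ≤ (1 + e / 2) * (6588 / 1000) * (549 / 1000 - 2 * δ) := by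
          have h7 : (2000 / 553 : ℝ) ≤ 6588 / 1000 * (549 / 1000) := by norm_num
          have h8 : (1 + e / 2) * (549 / 1000 - 2 * δ) ≥ 549 / 1000 := by nlinarith
          nlinarith
        have h9 : A * a ≤ 2000 / 553 * a := mul_le_mul_of_nonneg_right hAle ha.le
        have h10 := mul_le_mul_of_nonneg_right h6 ha.le
        linarith
      have h11 : A * J * δ ≤ (1 + e / 2) * (6588 / 1000 * a) * M * δ := by linarith
      exact le_of_mul_le_mul_right h11 hδ0
    have h4 : 2 * Er A J M m ≤ e / 2 * (6588 / 1000 * a) := by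
      unfold Er
      have h5 : Real.exp (6 * (M : ℝ) / J) ≤ Real.exp (6 * S) := by
        apply Real.exp_le_exp.2
        rw [div_le_iff₀ hJp]
        linarith
      have h6 : 2 / (J : ℝ) - 1 / m ≤ 2 / J := by
        have : 0 < 1 / (m : ℝ) := by positivity
        linarith
      have h7 : 0 ≤ 2 / (J : ℝ) - 1 / m := by
        have hJmR : (J : ℝ) ≤ m := by exact_mod_cast hJm
        have h8 := one_div_le_one_div_of_le hJp hJmR
        have h9 : 2 / (J : ℝ) = 1 / J + 1 / J := by ring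
        have h10 : 0 < 1 / (J : ℝ) := by positivity
        rw [h9]
        linarith
      have h8 : 16 * A * Real.exp (6 * (M : ℝ) / J) * (2 / J - 1 / m) ≤
          16 * A * Real.exp (6 * S) * (2 / J) := by
        apply mul_le_mul _ h6 h7 (by positivity)
        exact mul_le_mul_of_nonneg_left h5 (by positivity)
      have h9 : 2 * (16 * A * Real.exp (6 * S) * (2 / J)) = E0 / J := by
        rw [hE0]
        ring
      have h10 : E0 / J ≤ e / 2 * a := by
        rw [div_le_iff₀ hJp]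
        rw [div_le_iff₀ (by positivity)] at hJ1
        linarith
      have h11 : e / 2 * a ≤ e / 2 * (6588 / 1000 * a) := by
        apply mul_le_mul_of_nonneg_left _ (by positivity)
        linarith
      linarith
    rw [h2]
    linarith

/-- arithmetic form -/
theorem upper_final (a e : ℝ) (ha : 0 < a) (ha1 : a ≤ 1 / 20) (he : 0 < e) :
    ∃ (J : ℕ) (W : List (ℝ × List ℕ × List ℕ)), 0 < J ∧ a / J ≤ 1 / 1000 ∧
      (∀ w ∈ W, ∀ j ∈ w.2.1 ++ w.2.2, J ≤ j ∧ a ≤ (j : ℝ) * (a / J) ∧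
        ((j : ℝ) + 1) * (a / J) ≤ 19 / 100) ∧
      (∀ w ∈ W, (size w.2.1 : ℝ) * (a / J) ≤ 1 / 2 - 1 / 2000 ∧
        (size w.2.2 : ℝ) * (a / J) ≤ 1 / 20 - 1 / 2000) ∧
      (∀ (x : ℝ) (n : ℕ), 0 ≤ ev2 W (kk x (a / J) n)) ∧
      (∀ x : ℝ, 1 < x → ∀ n : ℕ, n.Prime → Real.sqrt x < n → 1 ≤ ev2 W (kk x (a / J) n)) ∧
      (∃ x0 : ℝ, ∀ x ≥ x0, ∀ n : ℕ, 0 < n → (n : ℝ) ≤ x ^ (1 + 1 / 1000 : ℝ) →
        |ev2 W (kk x (a / J) n)| ≤ 2 * Real.exp (2 / a)) ∧
      a ≤ mv2 W mu ∧ mv2 W mu ≤ (1 + e) * (6588 / 1000 * a) := by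
  obtain ⟨J0, hJ0, h⟩ := upper_exist a e ha ha1 he
  set J := max J0 1000 with hJ
  obtain ⟨m, W, h0, h1, h2, h3, h4, h5, h6, h7⟩ := h J (le_max_left _ _)
  have hJ1000 : 1000 ≤ J := le_max_right _ _
  have hJN : 0 < J := by omega
  have hJR : (1000 : ℝ) ≤ J := by exact_mod_cast hJ1000
  have hJp : (0 : ℝ) < J := by linarith
  have hδs : a / J ≤ 1 / 1000 := by
    rw [div_le_div_iff₀ hJp (by norm_num)]
    linarith
  have hδ0 : 0 < a / J := by positivity
  have hb : ∀ j : ℕ, j < m → ((j : ℝ) + 1) * (a / J) ≤ 19 / 100 := by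
    intro j hj
    have : (j : ℝ) + 1 ≤ m := by exact_mod_cast hj
    exact (mul_le_mul_of_nonneg_right this hδ0.le).trans h0
  refine ⟨J, W, hJN, hδs, ?_, h2, fun x n => h3 _, ?_,
    bound_kk a ha J hJN W (fun w hw j hj => (h1 w hw j hj).1) h5, h6, h7⟩
  · intro w hw j hj
    obtain ⟨e1, e2⟩ := h1 w hw j hj
    refine ⟨e1, ?_, hb j e2⟩
    have e3 : (J : ℝ) ≤ j := by exact_mod_cast e1
    have e4 : (J : ℝ) * (a / J) ≤ (j : ℝ) * (a / J) :=
      mul_le_mul_of_nonneg_right e3 hδ0.le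
    have e5 : (J : ℝ) * (a / J) = a := by
      field_simp
    linarith
  · intro x hx n hn hnx
    apply h4
    intro j _ hjm
    unfold kk
    rw [Finset.card_eq_zero, Finset.filter_eq_empty_iff]
    intro p hp hpn
    rw [mem_cell] at hp
    have e1 : p = n := by
      rcases (Nat.dvd_prime hn).1 hpn with h8 | h8
      · exact absurd h8 hp.1.one_lt.ne'
      · exact h8
    have e2 : x ^ (((j : ℝ) + 1) * (a / J)) ≤ x ^ (1 / 2 : ℝ) := by
      apply Real.rpow_le_rpow_of_exponent_le hx.le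
      linarith [hb j hjm]
    have e3 : x ^ (1 / 2 : ℝ) = Real.sqrt x := (Real.sqrt_eq_rpow x).symm
    rw [e1] at hp
    linarith [hp.2.2]

end Pool.Agent.H89.P2
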