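import Pool.Agent.H89.P2.Ff

/-!
[H89 P2 DY]  Existence of the functions `F`, `f` of the linear sieve on `(0, S]`.

`Kr 0 = 1`, `Kr (r+1) s = ∫_1^(s-1) Kr r t / t dt`; `Φ = ∑ Kr (2i)`, `φ = ∑ Kr (2i+1)`, `F = A Φ/s`, `f = A φ/s`.
`v = Φ - φ > 0` because `(s-1) v(s) = ∫_(s-1)^s v`; from this `F` is antitone and `f` is monotone.
-/

namespace Pool.Agent.H89.P2

open MeasureTheory Set

/-- density of products of `r + 1` primes, times `s` -/
noncomputable def Kr : ℕ → ℝ → ℝ
  | 0 => fun _ => 1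
  | r + 1 => fun s => ∫ t in (1 : ℝ)..max 1 (s - 1), Kr r t / max 1 t

theorem cont_prim {g : ℝ → ℝ} (hg : Continuous g) :
    Continuous fun s : ℝ => ∫ t in (1 : ℝ)..max 1 (s - 1), g t := by
  have h1 : Continuous fun b : ℝ => ∫ t in (1 : ℝ)..b, g t :=
    intervalIntegral.continuous_primitive (fun a b => hg.intervalIntegrable a b) 1
  exact h1.comp (continuous_const.max (continuous_id.sub continuous_const))

theorem cont_div {g : ℝ → ℝ} (hg : Continuous g) : Continuous fun t : ℝ => g t / max 1 t := by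
  apply hg.div (continuous_const.max continuous_id)
  intro t
  have : (1 : ℝ) ≤ max 1 t := le_max_left _ _
  exact ne_of_gt (by simp only [id]; linarith)

theorem Kr_cont : ∀ r, Continuous (Kr r) := by
  intro r
  induction r with
  | zero => exact continuous_const
  | succ r ih => exact cont_prim (cont_div ih)

theorem Kr_zero : ∀ (r : ℕ) (s : ℝ), s ≤ r + 2 → Kr (r + 1) s = 0 := by
  intro r
  induction r with
  | zero =>
    intro s hs
    have : max 1 (s - 1) = 1 := by
      apply max_eq_left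
      norm_num at hs
      linarith
    rw [Kr]
    simp only [this, intervalIntegral.integral_same]
  | succ r ih =>
    intro s hs
    show ∫ t in (1 : ℝ)..max 1 (s - 1), Kr (r + 1) t / max 1 t = 0
    have h1 : ∫ t in (1 : ℝ)..max 1 (s - 1), Kr (r + 1) t / max 1 t =
        ∫ _t in (1 : ℝ)..max 1 (s - 1), (0 : ℝ) := by
      apply intervalIntegral.integral_congr
      intro t ht
      rw [uIcc_of_le (le_max_left _ _)] at ht
      show Kr (r + 1) t / max 1 t = 0
      have h2 : t ≤ r + 2 := by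
        refine ht.2.trans ?_
        apply max_le
        · have : (0 : ℝ) ≤ r := Nat.cast_nonneg _
          linarith
        · push_cast at hs
          linarith
      rw [ih t h2, zero_div]
    rw [h1]
    simp

theorem Kr_nonneg : ∀ (r : ℕ) (s : ℝ), 0 ≤ Kr r s := by
  intro r
  induction r with
  | zero => intro s; exact zero_le_one
  | succ r ih =>
    intro s
    rw [Kr]
    apply intervalIntegral.integral_nonneg (le_max_left _ _)
    intro t _
    exact div_nonneg (ih t) (by linarith [le_max_left (1 : ℝ) t])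

/-- `s F̃(s)` and `s f̃(s)` -/
structure DD (S : ℝ) (Φ φ : ℝ → ℝ) : Prop where
  hS : 4 ≤ S
  cΦ : Continuous Φ
  cφ : Continuous φ
  eΦ : ∀ s, s ≤ S → Φ s = 1 + ∫ t in (1 : ℝ)..max 1 (s - 1), φ t / max 1 t
  eφ : ∀ s, φ s = ∫ t in (1 : ℝ)..max 1 (s - 1), Φ t / max 1 t
  nφ : ∀ s, 0 ≤ φ s

theorem dd_exists (S : ℝ) (hS : 4 ≤ S) : ∃ Φ φ : ℝ → ℝ, DD S Φ φ := by
  obtain ⟨R, hR⟩ := exists_nat_ge S
  refine ⟨fun s => ∑ i ∈ Finset.range (R + 1), Kr (2 * i) s,
    fun s => ∑ i ∈ Finset.range (R + 1), Kr (2 * i + 1) s, hS, ?_, ?_, ?_, ?_, ?_⟩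
  · exact continuous_finsetSum _ fun i _ => Kr_cont _
  · exact continuous_finsetSum _ fun i _ => Kr_cont _
  · intro s hs
    have h1 : ∀ t, (∑ i ∈ Finset.range (R + 1), Kr (2 * i + 1) t) / max 1 t =
        ∑ i ∈ Finset.range (R + 1), Kr (2 * i + 1) t / max 1 t := fun t => Finset.sum_div _ _ _
    simp only [h1]
    rw [intervalIntegral.integral_finsetSum
      (fun i _ => (cont_div (Kr_cont (2 * i + 1))).intervalIntegrable _ _)]
    rw [Finset.sum_range_succ (fun i => ∫ t in (1 : ℝ)..max 1 (s - 1), Kr (2 * i + 1) t / max 1 t)]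
    have h2 : ∫ t in (1 : ℝ)..max 1 (s - 1), Kr (2 * R + 1) t / max 1 t = 0 := by
      have h3 : Kr (2 * R + 1 + 1) s = 0 := by
        apply Kr_zero
        push_cast
        have : (0 : ℝ) ≤ R := Nat.cast_nonneg _
        linarith
      rw [Kr] at h3
      exact h3
    rw [h2, add_zero, Finset.sum_range_succ']
    have h4 : Kr (2 * 0) s = 1 := rfl
    rw [h4, add_comm]
    congr 1
  · intro s
    have h1 : ∀ t, (∑ i ∈ Finset.range (R + 1), Kr (2 * i) t) / max 1 t =
        ∑ i ∈ Finset.range (R + 1), Kr (2 * i) t / max 1 t := fun t => Finset.sum_div _ _ _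
    simp only [h1]
    rw [intervalIntegral.integral_finsetSum
      (fun i _ => (cont_div (Kr_cont (2 * i))).intervalIntegrable _ _)]
    rfl
  · intro s
    exact Finset.sum_nonneg fun i _ => Kr_nonneg _ _

namespace DD

variable {S : ℝ} {Φ φ : ℝ → ℝ}

theorem φ0 (h : DD S Φ φ) (s : ℝ) (hs : s ≤ 2) : φ s = 0 := by
  rw [h.eφ s, max_eq_left (by linarith), intervalIntegral.integral_same]

theorem Φ1 (h : DD S Φ φ) (s : ℝ) (hs : s ≤ 3) : Φ s = 1 := by
  have hS := h.hS
  rw [h.eΦ s (by linarith)]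
  have h1 : ∫ t in (1 : ℝ)..max 1 (s - 1), φ t / max 1 t =
      ∫ _t in (1 : ℝ)..max 1 (s - 1), (0 : ℝ) := by
    apply intervalIntegral.integral_congr
    intro t ht
    rw [uIcc_of_le (le_max_left _ _)] at ht
    show φ t / max 1 t = 0
    have h2 : t ≤ 2 := by
      refine ht.2.trans ?_
      apply max_le <;> linarith
    rw [h.φ0 t h2, zero_div]
  rw [h1]
  simp

theorem hasDerivAt_prim {g : ℝ → ℝ} (hg : Continuous g) (s : ℝ) :
    HasDerivAt (fun s : ℝ => ∫ t in (1 : ℝ)..(s - 1), g t) (g (s - 1)) s := by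
  have h1 : HasDerivAt (fun b : ℝ => ∫ t in (1 : ℝ)..b, g t) (g (s - 1)) (s - 1) :=
    intervalIntegral.integral_hasDerivAt_right (hg.intervalIntegrable _ _)
      (hg.stronglyMeasurableAtFilter _ _) hg.continuousAt
  have h2 : HasDerivAt (fun s : ℝ => s - 1) 1 s := (hasDerivAt_id s).sub_const 1
  have h3 := HasDerivAt.comp s h1 h2
  rw [mul_one] at h3
  exact h3

theorem dΦ (h : DD S Φ φ) (s : ℝ) (h2 : 2 < s) (hs : s < S) :
    HasDerivAt Φ (φ (s - 1) / (s - 1)) s := by
  have h3 := hasDerivAt_prim (cont_div h.cφ) s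
  have h4 : max 1 (s - 1) = s - 1 := max_eq_right (by linarith)
  rw [h4] at h3
  have h5 := h3.const_add 1
  refine h5.congr_of_eventuallyEq ?_
  filter_upwards [Ioo_mem_nhds h2 hs] with y hy
  rw [h.eΦ y hy.2.le, max_eq_right (by linarith [hy.1])]

theorem dφ (h : DD S Φ φ) (s : ℝ) (h2 : 2 < s) : HasDerivAt φ (Φ (s - 1) / (s - 1)) s := by
  have h3 := hasDerivAt_prim (cont_div h.cΦ) s
  have h4 : max 1 (s - 1) = s - 1 := max_eq_right (by linarith)
  rw [h4] at h3
  refine h3.congr_of_eventuallyEq ?_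
  filter_upwards [Ioi_mem_nhds h2] with y hy
  rw [h.eφ y, max_eq_right (by linarith [mem_Ioi.1 hy])]

/-- the invariant -/
theorem inv (h : DD S Φ φ) (s : ℝ) (h2 : 2 ≤ s) (hs : s ≤ S) :
    (s - 1) * (Φ s - φ s) = ∫ t in (s - 1)..s, (Φ t - φ t) := by
  set v : ℝ → ℝ := fun t => Φ t - φ t with hv
  have cv : Continuous v := h.cΦ.sub h.cφ
  set H : ℝ → ℝ := fun s => (s - 1) * v s - ((∫ t in (1 : ℝ)..s, v t) - ∫ t in (1 : ℝ)..(s - 1), v t)
    with hH
  have cH : Continuous H := by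
    have c1 : Continuous fun b : ℝ => ∫ t in (1 : ℝ)..b, v t :=
      intervalIntegral.continuous_primitive (fun a b => cv.intervalIntegrable a b) 1
    have c2 : Continuous fun b : ℝ => ∫ t in (1 : ℝ)..(b - 1), v t :=
      c1.comp (continuous_id.sub continuous_const)
    exact ((continuous_id.sub continuous_const).mul cv).sub (c1.sub c2)
  have dH : ∀ x ∈ Ioo 2 s, HasDerivAt H 0 x := by
    intro x hx
    have d1 : HasDerivAt v (φ (x - 1) / (x - 1) - Φ (x - 1) / (x - 1)) x :=
      (h.dΦ x hx.1 (by linarith [hx.2])).sub (h.dφ x hx.1)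
    have d2 : HasDerivAt (fun x : ℝ => x - 1) 1 x := (hasDerivAt_id x).sub_const 1
    have d3 : HasDerivAt (fun b : ℝ => ∫ t in (1 : ℝ)..b, v t) (v x) x :=
      intervalIntegral.integral_hasDerivAt_right (cv.intervalIntegrable _ _)
        (cv.stronglyMeasurableAtFilter _ _) cv.continuousAt
    have d4 := hasDerivAt_prim cv x
    have d5 := (d2.mul d1).sub (d3.sub d4)
    refine d5.congr_deriv ?_
    have hx1 : x - 1 ≠ 0 := by linarith [hx.1]
    simp only [hv]
    field_simp
    ring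
  have hHs : H s = H 2 := by
    rcases eq_or_lt_of_le h2 with h3 | h3
    · rw [h3]
    · obtain ⟨c, hc, hc2⟩ := exists_hasDerivAt_eq_slope H (fun _ => 0) h3 cH.continuousOn dH
      have h4 : s - 2 ≠ 0 := by linarith
      have h5 : (H s - H 2) / (s - 2) = 0 := hc2.symm
      rw [div_eq_zero_iff] at h5
      rcases h5 with h5 | h5
      · linarith
      · exact absurd h5 h4
  have hH2 : H 2 = 0 := by
    simp only [hH]
    have e1 : v 2 = 1 := by
      simp only [hv]
      rw [h.Φ1 2 (by norm_num), h.φ0 2 (le_refl _), sub_zero]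
    have e2 : ∫ t in (1 : ℝ)..2, v t = ∫ _t in (1 : ℝ)..2, (1 : ℝ) := by
      apply intervalIntegral.integral_congr
      intro t ht
      rw [uIcc_of_le (by norm_num)] at ht
      simp only [hv]
      rw [h.Φ1 t (by linarith [ht.2]), h.φ0 t ht.2, sub_zero]
    have e3 : ∫ t in (1 : ℝ)..(2 - 1), v t = 0 := by
      norm_num
    rw [e1, e2, e3]
    simp
  have hfin : H s = 0 := hHs.trans hH2
  have e4 : (∫ t in (1 : ℝ)..s, v t) - ∫ t in (1 : ℝ)..(s - 1), v t = ∫ t in (s - 1)..s, v t :=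
    intervalIntegral.integral_interval_sub_left (cv.intervalIntegrable _ _)
      (cv.intervalIntegrable _ _)
  simp only [hH] at hfin
  rw [e4] at hfin
  linarith

theorem v_pos (h : DD S Φ φ) (s : ℝ) (hs : s ≤ S) : 0 < Φ s - φ s := by
  by_contra hcon
  rw [not_lt] at hcon
  have h2 : 2 < s := by
    by_contra h2
    rw [not_lt] at h2
    rw [h.Φ1 s (by linarith), h.φ0 s h2] at hcon
    norm_num at hcon
  have cv : Continuous fun t => Φ t - φ t := h.cΦ.sub h.cφ
  have hK : IsCompact (Icc 2 S ∩ {t | Φ t - φ t ≤ 0}) :=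
    isCompact_Icc.inter_right (isClosed_le cv continuous_const)
  obtain ⟨s0, hs0, hmin⟩ := hK.exists_isLeast ⟨s, ⟨h2.le, hs⟩, hcon⟩
  have h3 := h.inv s0 hs0.1.1 hs0.1.2
  have h4 : 0 < ∫ t in (s0 - 1)..s0, (Φ t - φ t) := by
    apply intervalIntegral.intervalIntegral_pos_of_pos_on (cv.intervalIntegrable _ _) _ (by linarith)
    intro t ht
    by_contra h5
    rw [not_lt] at h5
    rcases lt_or_ge t 2 with h6 | h6
    · rw [h.Φ1 t (by linarith), h.φ0 t h6.le] at h5
      norm_num at h5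
    · have h7 : s0 ≤ t := hmin ⟨⟨h6, by linarith [ht.2, hs0.1.2]⟩, h5⟩
      linarith [ht.2]
  have h5 : (s0 - 1) * (Φ s0 - φ s0) ≤ 0 :=
    mul_nonpos_of_nonneg_of_nonpos (by linarith [hs0.1.1]) hs0.2
  linarith

/-- `Φ s / s` -/
noncomputable def Fh (Φ : ℝ → ℝ) (s : ℝ) : ℝ := Φ s / max 1 s

theorem Fh_eq (Φ : ℝ → ℝ) (s : ℝ) (hs : 1 ≤ s) : Fh Φ s = Φ s / s := by
  unfold Fh
  rw [max_eq_right hs]

theorem mono_upto (h : DD S Φ φ) (s0 : ℝ) (h2 : 2 ≤ s0) (hs : s0 ≤ S)
    (hyp : ∀ t, 2 < t → t < s0 → Fh φ (t - 1) ≤ Fh Φ t ∧ Fh φ t ≤ Fh Φ (t - 1)) :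
    AntitoneOn (Fh Φ) (Icc 1 s0) ∧ MonotoneOn (Fh φ) (Icc 1 s0) := by
  have hU : Icc (1 : ℝ) s0 = Icc 1 2 ∪ Icc 2 s0 := (Icc_union_Icc_eq_Icc (by norm_num) h2).symm
  have dF : ∀ t, 2 < t → t < s0 → HasDerivAt (Fh Φ) ((Fh φ (t - 1) - Fh Φ t) / t) t := by
    intro t ht hts
    have d1 := (h.dΦ t ht (by linarith)).div (hasDerivAt_id t) (by simp only [id]; linarith)
    have e1 : HasDerivAt (Fh Φ) ((φ (t - 1) / (t - 1) * id t - Φ t * 1) / id t ^ 2) t := by
      refine d1.congr_of_eventuallyEq ?_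
      filter_upwards [Ioi_mem_nhds ht] with y hy
      exact Fh_eq Φ y (by linarith [mem_Ioi.1 hy])
    refine e1.congr_deriv ?_
    rw [Fh_eq φ (t - 1) (by linarith), Fh_eq Φ t (by linarith)]
    have ht0 : t ≠ 0 := by linarith
    have ht1 : t - 1 ≠ 0 := by linarith
    simp only [id]
    field_simp
  have df : ∀ t, 2 < t → t < s0 → HasDerivAt (Fh φ) ((Fh Φ (t - 1) - Fh φ t) / t) t := by
    intro t ht hts
    have d1 := (h.dφ t ht).div (hasDerivAt_id t) (by simp only [id]; linarith)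
    have e1 : HasDerivAt (Fh φ) ((Φ (t - 1) / (t - 1) * id t - φ t * 1) / id t ^ 2) t := by
      refine d1.congr_of_eventuallyEq ?_
      filter_upwards [Ioi_mem_nhds ht] with y hy
      exact Fh_eq φ y (by linarith [mem_Ioi.1 hy])
    refine e1.congr_deriv ?_
    rw [Fh_eq Φ (t - 1) (by linarith), Fh_eq φ t (by linarith)]
    have ht0 : t ≠ 0 := by linarith
    have ht1 : t - 1 ≠ 0 := by linarith
    simp only [id]
    field_simp
  have cF : Continuous (Fh Φ) := cont_div h.cΦ
  have cf : Continuous (Fh φ) := cont_div h.cφ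
  constructor
  · rw [hU]
    apply AntitoneOn.union_right _ _ (isGreatest_Icc (by norm_num)) (isLeast_Icc h2)
    · intro a ha b hb hab
      rw [Fh_eq Φ a ha.1, Fh_eq Φ b hb.1, h.Φ1 a (by linarith [ha.2]), h.Φ1 b (by linarith [hb.2])]
      exact one_div_le_one_div_of_le (by linarith [ha.1]) hab
    · apply antitoneOn_of_deriv_nonpos (convex_Icc 2 s0) cF.continuousOn
      · intro t ht
        rw [interior_Icc] at ht
        exact (dF t ht.1 ht.2).differentiableAt.differentiableWithinAt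
      · intro t ht
        rw [interior_Icc] at ht
        rw [(dF t ht.1 ht.2).deriv]
        apply div_nonpos_of_nonpos_of_nonneg
        · linarith [(hyp t ht.1 ht.2).1]
        · linarith [ht.1]
  · rw [hU]
    apply MonotoneOn.union_right _ _ (isGreatest_Icc (by norm_num)) (isLeast_Icc h2)
    · intro a ha b hb hab
      rw [Fh_eq φ a ha.1, Fh_eq φ b hb.1, h.φ0 a ha.2, h.φ0 b hb.2, zero_div, zero_div]
    · apply monotoneOn_of_deriv_nonneg (convex_Icc 2 s0) cf.continuousOn
      · intro t ht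
        rw [interior_Icc] at ht
        exact (df t ht.1 ht.2).differentiableAt.differentiableWithinAt
      · intro t ht
        rw [interior_Icc] at ht
        rw [(df t ht.1 ht.2).deriv]
        apply div_nonneg
        · linarith [(hyp t ht.1 ht.2).2]
        · linarith [ht.1]

theorem Fh_sub (h : DD S Φ φ) (s : ℝ) (hs1 : 1 ≤ s) (hs : s ≤ S) : Fh φ s < Fh Φ s := by
  rw [Fh_eq Φ s hs1, Fh_eq φ s hs1]
  exact div_lt_div_of_pos_right (by linarith [h.v_pos s hs]) (by linarith)

theorem mono (h : DD S Φ φ) :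
    AntitoneOn (Fh Φ) (Icc 1 S) ∧ MonotoneOn (Fh φ) (Icc 1 S) := by
  have hS := h.hS
  have cF : Continuous (Fh Φ) := cont_div h.cΦ
  have cf : Continuous (Fh φ) := cont_div h.cφ
  apply h.mono_upto S (by linarith) (le_refl _)
  by_contra hcon
  push Not at hcon
  obtain ⟨t, ht2, htS, ht⟩ := hcon
  have c1 : Continuous fun t : ℝ => Fh Φ t - Fh φ (t - 1) :=
    cF.sub (cf.comp (continuous_id.sub continuous_const))
  have c2 : Continuous fun t : ℝ => Fh Φ (t - 1) - Fh φ t :=
    (cF.comp (continuous_id.sub continuous_const)).sub cf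
  have hK : IsCompact (Icc 2 S ∩ ({t | Fh Φ t - Fh φ (t - 1) ≤ 0} ∪
      {t | Fh Φ (t - 1) - Fh φ t ≤ 0})) :=
    isCompact_Icc.inter_right ((isClosed_le c1 continuous_const).union
      (isClosed_le c2 continuous_const))
  have hne : (Icc 2 S ∩ ({t | Fh Φ t - Fh φ (t - 1) ≤ 0} ∪
      {t | Fh Φ (t - 1) - Fh φ t ≤ 0})).Nonempty := by
    refine ⟨t, ⟨ht2.le, htS.le⟩, ?_⟩
    by_cases h1 : Fh φ (t - 1) ≤ Fh Φ t
    · right
      have := ht h1
      simp only [mem_ofPred_eq]
      linarith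
    · left
      simp only [mem_ofPred_eq]
      linarith
  obtain ⟨s0, hs0, hmin⟩ := hK.exists_isLeast hne
  have h20 : 2 ≤ s0 := hs0.1.1
  have h2S : s0 ≤ S := hs0.1.2
  obtain ⟨hA, hM⟩ := h.mono_upto s0 h20 h2S (by
    intro t ht hts
    constructor
    · by_contra h5
      have : s0 ≤ t := hmin ⟨⟨ht.le, by linarith⟩, Or.inl (by simp only [mem_ofPred_eq]; linarith)⟩
      linarith
    · by_contra h5
      have : s0 ≤ t := hmin ⟨⟨ht.le, by linarith⟩, Or.inr (by simp only [mem_ofPred_eq]; linarith)⟩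
      linarith)
  have hlt := h.Fh_sub s0 (by linarith) h2S
  have m1 : s0 - 1 ∈ Icc (1 : ℝ) s0 := ⟨by linarith, by linarith⟩
  have m2 : s0 ∈ Icc (1 : ℝ) s0 := ⟨by linarith, le_refl _⟩
  have a1 := hA m1 m2 (by linarith)
  have a2 := hM m1 m2 (by linarith)
  rcases hs0.2 with h5 | h5
  · simp only [mem_ofPred_eq] at h5
    linarith
  · simp only [mem_ofPred_eq] at h5
    linarith

end DD

open DD

/-- existence of the functions of the linear sieve on `(0, S]` -/
theorem ff_exists (S : ℝ) (hS : 4 ≤ S) : ∃ (A : ℝ) (F f : ℝ → ℝ), FF A S F f := by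
  obtain ⟨Φ, φ, h⟩ := dd_exists S hS
  obtain ⟨hAnt, hMon⟩ := h.mono
  set c := Fh Φ S with hc
  have hcpos : 0 < c := by
    have h1 := h.Fh_sub S (by linarith) (le_refl _)
    have h2 : 0 ≤ Fh φ S := by
      rw [Fh_eq φ S (by linarith)]
      exact div_nonneg (h.nφ S) (by linarith)
    linarith
  have hA0 : 0 < 1 / c := by positivity
  have mS : S ∈ Icc (1 : ℝ) S := ⟨by linarith, le_refl _⟩
  have F_ge : ∀ s, 1 ≤ s → s ≤ S → 1 ≤ 1 / c * (Φ s / s) := by
    intro s h1 h2
    have h3 := hAnt ⟨h1, h2⟩ mS h2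
    rw [Fh_eq Φ s h1] at h3
    rw [one_div, ← div_eq_inv_mul, le_div_iff₀ hcpos]
    linarith
  have hA3 : 3 ≤ 1 / c := by
    have h1 := F_ge 3 (by norm_num) (by linarith)
    rw [h.Φ1 3 (le_refl _)] at h1
    linarith
  have f_eq : ∀ s, 1 ≤ s → 1 / c * (φ s / max 1 s) = 1 / c * (φ s / s) := by
    intro s hs
    rw [max_eq_right hs]
  have f_small : ∀ s, s ≤ 2 → 1 / c * (φ s / max 1 s) = 0 := by
    intro s hs
    rw [h.φ0 s hs, zero_div, mul_zero]
  have F_small : ∀ s, s ≤ 3 → 1 / c * (Φ s / s) = 1 / c / s := by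
    intro s hs
    rw [h.Φ1 s hs]
    ring
  refine ⟨1 / c, fun s => 1 / c * (Φ s / s), fun s => 1 / c * (φ s / max 1 s), hS, hA3,
    ?_, ?_, ?_, ?_, ?_, ?_, ?_, ?_, ?_, ?_, ?_⟩
  · intro s _ h2
    exact F_small s h2
  · intro s hs
    exact f_small s hs
  · apply ContinuousOn.mul continuousOn_const
    apply ContinuousOn.div h.cΦ.continuousOn continuousOn_id
    intro s hs
    exact ne_of_gt (mem_Ioi.1 hs)
  · exact continuous_const.mul (cont_div h.cφ)
  · intro a b ha hab hb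
    show b * (1 / c * (Φ b / b)) - a * (1 / c * (Φ a / a)) =
      ∫ t in a..b, 1 / c * (φ (t - 1) / max 1 (t - 1))
    have hb0 : b ≠ 0 := by linarith
    have ha0 : a ≠ 0 := by linarith
    have e1 : b * (1 / c * (Φ b / b)) - a * (1 / c * (Φ a / a)) = 1 / c * (Φ b - Φ a) := by
      field_simp
    rw [e1, intervalIntegral.integral_const_mul]
    congr 1
    rw [h.eΦ b hb, h.eΦ a (by linarith), max_eq_right (by linarith : (1:ℝ) ≤ b - 1),
      max_eq_right (by linarith : (1:ℝ) ≤ a - 1)]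
    rw [intervalIntegral.integral_comp_sub_right (fun t => φ t / max 1 t) 1]
    rw [add_sub_add_left_eq_sub]
    exact intervalIntegral.integral_interval_sub_left ((cont_div h.cφ).intervalIntegrable _ _)
      ((cont_div h.cφ).intervalIntegrable _ _)
  · intro a b ha hab hb
    show b * (1 / c * (φ b / max 1 b)) - a * (1 / c * (φ a / max 1 a)) =
      ∫ t in a..b, 1 / c * (Φ (t - 1) / (t - 1))
    have hb0 : b ≠ 0 := by linarith
    have ha0 : a ≠ 0 := by linarith
    rw [max_eq_right (by linarith : (1:ℝ) ≤ b), max_eq_right (by linarith : (1:ℝ) ≤ a)]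
    have e1 : b * (1 / c * (φ b / b)) - a * (1 / c * (φ a / a)) = 1 / c * (φ b - φ a) := by
      field_simp
    rw [e1, intervalIntegral.integral_const_mul]
    congr 1
    rw [h.eφ b, h.eφ a, max_eq_right (by linarith : (1:ℝ) ≤ b - 1),
      max_eq_right (by linarith : (1:ℝ) ≤ a - 1)]
    have e2 : ∫ t in a..b, Φ (t - 1) / (t - 1) = ∫ t in a..b, Φ (t - 1) / max 1 (t - 1) := by
      apply intervalIntegral.integral_congr
      intro t ht
      rw [uIcc_of_le hab] at ht
      show Φ (t - 1) / (t - 1) = Φ (t - 1) / max 1 (t - 1)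
      rw [max_eq_right (by linarith [ht.1])]
    rw [e2, intervalIntegral.integral_comp_sub_right (fun t => Φ t / max 1 t) 1]
    exact intervalIntegral.integral_interval_sub_left ((cont_div h.cΦ).intervalIntegrable _ _)
      ((cont_div h.cΦ).intervalIntegrable _ _)
  · intro s h1 h2
    show 1 ≤ 1 / c * (Φ s / s)
    rcases le_or_gt 1 s with h3 | h3
    · exact F_ge s h3 h2
    · rw [F_small s (by linarith), le_div_iff₀ h1]
      linarith
  · intro s _
    show 0 ≤ 1 / c * (φ s / max 1 s)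
    apply mul_nonneg hA0.le
    exact div_nonneg (h.nφ s) (by linarith [le_max_left (1 : ℝ) s])
  · intro s hs
    show 1 / c * (φ s / max 1 s) ≤ 1
    rcases le_or_gt 1 s with h3 | h3
    · have h4 := hMon ⟨h3, hs⟩ mS hs
      have h5 := h.Fh_sub S (by linarith) (le_refl _)
      have h6 : Fh φ s = φ s / max 1 s := rfl
      rw [← h6, one_div, ← div_eq_inv_mul, div_le_one hcpos]
      linarith
    · rw [f_small s (by linarith)]
      exact zero_le_one
  · intro a b ha hab hb
    show 1 / c * (Φ b / b) ≤ 1 / c * (Φ a / a)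
    apply mul_le_mul_of_nonneg_left _ hA0.le
    rcases le_or_gt 1 a with h3 | h3
    · have h4 := hAnt ⟨h3, by linarith⟩ ⟨by linarith, hb⟩ hab
      rw [Fh_eq Φ a h3, Fh_eq Φ b (by linarith)] at h4
      exact h4
    · rw [h.Φ1 a (by linarith)]
      rcases le_or_gt 1 b with h5 | h5
      · have h4 := hAnt ⟨le_refl _, by linarith⟩ ⟨h5, hb⟩ h5
        rw [Fh_eq Φ 1 (le_refl _), Fh_eq Φ b h5, h.Φ1 1 (by norm_num)] at h4
        refine h4.trans ?_
        rw [div_one, le_div_iff₀ ha]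
        linarith
      · rw [h.Φ1 b (by linarith)]
        exact one_div_le_one_div_of_le ha hab
  · intro a b hab hb
    show 1 / c * (φ a / max 1 a) ≤ 1 / c * (φ b / max 1 b)
    rcases le_or_gt 1 a with h3 | h3
    · exact mul_le_mul_of_nonneg_left (hMon ⟨h3, by linarith⟩ ⟨by linarith, hb⟩ hab) hA0.le
    · rw [f_small a (by linarith)]
      apply mul_nonneg hA0.le
      exact div_nonneg (h.nφ b) (by linarith [le_max_left (1 : ℝ) b])

end Pool.Agent.H89.P2
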