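import Pool.Agent.H89.P2.Pw

/-!
[H89 P2 RI]  Richert's weights and the factorisation of their patterns.
-/

namespace Pool.Agent.H89.P2

/-- the lower sieve of level `M` for the boxes below `m`, minus `b j` times the primes of the boxes
`m ≤ j < κ` with an upper sieve of level `M - (j + 1)` -/
noncomputable def rich (J m M : ℕ) (b : ℕ → ℝ) : ℕ → List (ℝ × List ℕ)
  | 0 => sv J m false M
  | κ + 1 => rich J m M b κ ++ if m ≤ κ then put κ (-b κ) (sv J m true (M - (κ + 1))) else []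

theorem ev_rich (J m M : ℕ) (b : ℕ → ℝ) (k : ℕ → ℕ) : ∀ κ, ev (rich J m M b κ) k =
    ev (sv J m false M) k -
      ∑ j ∈ Finset.Ico m κ, b j * k j * ev (sv J m true (M - (j + 1))) k := by
  intro κ
  induction κ with
  | zero => simp [rich]
  | succ κ ih =>
    rw [rich, ev_append, ih]
    split_ifs with h
    · rw [ev_put κ (-b κ) _ k (fun w hw hm => by
        have := mem_sv J m _ _ w hw κ hm
        omega), Finset.sum_Ico_succ_top h]
      ring
    · rw [ev_nil, Finset.Ico_eq_empty_of_le (by omega : κ ≤ m),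
        Finset.Ico_eq_empty_of_le (by omega : κ + 1 ≤ m)]
      simp

theorem mv_rich (J m M : ℕ) (b : ℕ → ℝ) (μ : ℕ → ℝ) : ∀ κ, mv (rich J m M b κ) μ =
    mv (sv J m false M) μ -
      ∑ j ∈ Finset.Ico m κ, b j * μ j * mv (sv J m true (M - (j + 1))) μ := by
  intro κ
  induction κ with
  | zero => simp [rich]
  | succ κ ih =>
    rw [rich, mv_append, ih]
    split_ifs with h
    · rw [mv_put, Finset.sum_Ico_succ_top h]
      ring
    · have : mv [] μ = 0 := rfl
      rw [this, Finset.Ico_eq_empty_of_le (by omega : κ ≤ m),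
        Finset.Ico_eq_empty_of_le (by omega : κ + 1 ≤ m)]
      simp

/-- Richert's weight is at most the indicator of the sifted numbers times `1 - ∑ b j k j` -/
theorem rich_le (J m M : ℕ) (b : ℕ → ℝ) (k : ℕ → ℕ) (κ : ℕ) (hb : ∀ j, m ≤ j → j < κ → 0 ≤ b j) :
    ev (rich J m M b κ) k ≤ ind J m k * (1 - ∑ j ∈ Finset.Ico m κ, b j * k j) := by
  rw [ev_rich, mul_sub, mul_one, Finset.mul_sum]
  have h1 := (pw J k m M).1
  have h2 : ∑ j ∈ Finset.Ico m κ, ind J m k * (b j * k j) ≤
      ∑ j ∈ Finset.Ico m κ, b j * k j * ev (sv J m true (M - (j + 1))) k := by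
    apply Finset.sum_le_sum
    intro j hj
    rw [Finset.mem_Ico] at hj
    have h3 : 0 ≤ b j * k j := mul_nonneg (hb j hj.1 hj.2) (Nat.cast_nonneg _)
    have h4 := mul_le_mul_of_nonneg_left (pw J k m (M - (j + 1))).2 h3
    linarith
  linarith

theorem rich_bound (J m M : ℕ) (b : ℕ → ℝ) (k : ℕ → ℕ) (κ : ℕ)
    (hb : ∀ j, m ≤ j → j < κ → 0 ≤ b j ∧ b j ≤ 2) (B : ℕ) (hmκ : m ≤ κ) (hB : κ ≤ B) :
    |ev (rich J m M b κ) k| ≤ 2 * Real.exp (∑ j ∈ Finset.range B, (k j : ℝ)) := by
  rw [ev_rich]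
  set E := Real.exp (∑ j ∈ Finset.range m, (k j : ℝ)) with hE
  have hE0 : 0 < E := Real.exp_pos _
  have h1 := ev_bound J k m false M
  have h2 : |∑ j ∈ Finset.Ico m κ, b j * k j * ev (sv J m true (M - (j + 1))) k| ≤
      ∑ j ∈ Finset.Ico m κ, 2 * (k j : ℝ) * E := by
    refine (Finset.abs_sum_le_sum_abs _ _).trans ?_
    apply Finset.sum_le_sum
    intro j hj
    rw [Finset.mem_Ico] at hj
    obtain ⟨h3, h4⟩ := hb j hj.1 hj.2
    have h5 : (0 : ℝ) ≤ k j := Nat.cast_nonneg _
    rw [abs_mul, abs_of_nonneg (mul_nonneg h3 h5)]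
    apply mul_le_mul _ (ev_bound J k m true _) (abs_nonneg _) (by positivity)
    exact mul_le_mul_of_nonneg_right h4 h5
  have h3 : ∑ j ∈ Finset.Ico m κ, 2 * (k j : ℝ) * E = 2 * (∑ j ∈ Finset.Ico m κ, (k j : ℝ)) * E := by
    rw [Finset.mul_sum, Finset.sum_mul]
  rw [h3] at h2
  set s := ∑ j ∈ Finset.Ico m κ, (k j : ℝ) with hs
  have hs0 : 0 ≤ s := Finset.sum_nonneg fun j _ => Nat.cast_nonneg _
  have h4 : ∑ j ∈ Finset.range m, (k j : ℝ) + s ≤ ∑ j ∈ Finset.range B, (k j : ℝ) := by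
    rw [hs, Finset.sum_range_add_sum_Ico _ hmκ]
    exact Finset.sum_le_sum_of_subset_of_nonneg (Finset.range_mono hB)
      fun j _ _ => Nat.cast_nonneg _
  have h5 : E * Real.exp s ≤ Real.exp (∑ j ∈ Finset.range B, (k j : ℝ)) := by
    rw [hE, ← Real.exp_add]
    exact Real.exp_le_exp.2 h4
  have h6 : 1 + s ≤ Real.exp s := by linarith [Real.add_one_le_exp s]
  have h7 : E * (1 + s) ≤ E * Real.exp s := mul_le_mul_of_nonneg_left h6 hE0.le
  have h8 := abs_sub (ev (sv J m false M) k)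
    (∑ j ∈ Finset.Ico m κ, b j * k j * ev (sv J m true (M - (j + 1))) k)
  have h9 : E ≤ E * (1 + s) := by nlinarith
  calc _ ≤ _ := h8
    _ ≤ E + 2 * s * E := add_le_add h1 h2
    _ ≤ 2 * (E * (1 + s)) := by nlinarith
    _ ≤ _ := by linarith

/-- splitting of a pattern into two parts of bounded sizes -/
def Spl (P : List ℕ) (Ma Mb : ℕ) : Prop :=
  ∃ P1 P2 : List ℕ, (P1 ++ P2).Perm P ∧ size P1 ≤ Ma ∧ size P2 ≤ Mb

theorem size_cons (j : ℕ) (P : List ℕ) : size (j :: P) = j + 1 + size P := by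
  simp [size]

theorem spl_nil (Ma Mb : ℕ) : Spl [] Ma Mb := ⟨[], [], by simp, by simp [size], by simp [size]⟩

theorem spl_left {j : ℕ} {P : List ℕ} {Ma Mb : ℕ} (h : j + 1 ≤ Ma) (hP : Spl P (Ma - (j + 1)) Mb) :
    Spl (j :: P) Ma Mb := by
  obtain ⟨P1, P2, h1, h2, h3⟩ := hP
  refine ⟨j :: P1, P2, ?_, ?_, h3⟩
  · exact List.Perm.cons j h1
  · rw [size_cons]; omega

theorem spl_right {j : ℕ} {P : List ℕ} {Ma Mb : ℕ} (h : j + 1 ≤ Mb) (hP : Spl P Ma (Mb - (j + 1))) :
    Spl (j :: P) Ma Mb := by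
  obtain ⟨P1, P2, h1, h2, h3⟩ := hP
  refine ⟨P1, j :: P2, ?_, h2, ?_⟩
  · exact List.perm_middle.trans (List.Perm.cons j h1)
  · rw [size_cons]; omega

theorem spl_sv (J : ℕ) : ∀ m : ℕ,
    (∀ M, 2 * m ≤ M → ∀ w ∈ sv J m false M, ∀ Ma Mb, Ma + Mb = M → Spl w.2 Ma Mb) ∧
    (∀ M, ∀ w ∈ sv J m true M, ∀ Ma Mb, Ma + Mb = M → Spl w.2 Ma Mb) := by
  intro m
  induction m with
  | zero =>
    constructor
    · intro M _ w hw Ma Mb _
      have : w = (1, []) := by simpa [sv] using hw
      rw [this]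
      exact spl_nil _ _
    · intro M w hw Ma Mb _
      have : w = (1, []) := by simpa [sv] using hw
      rw [this]
      exact spl_nil _ _
  | succ m ih =>
    constructor
    · intro M hM w hw Ma Mb hab
      rw [sv, List.mem_append] at hw
      rcases hw with hw | hw
      · exact ih.1 M (by omega) w hw Ma Mb hab
      · split_ifs at hw with h
        · rw [put, List.mem_map] at hw
          obtain ⟨v, hv, rfl⟩ := hw
          rcases Nat.lt_or_ge Ma (m + 1) with h1 | h1
          · exact spl_right (by omega) (ih.2 _ v hv Ma (Mb - (m + 1)) (by omega))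
          · exact spl_left h1 (ih.2 _ v hv (Ma - (m + 1)) Mb (by omega))
        · simp at hw
    · intro M w hw Ma Mb hab
      rw [sv, List.mem_append] at hw
      rcases hw with hw | hw
      · exact ih.2 M w hw Ma Mb hab
      · split_ifs at hw with h
        · rw [List.mem_append] at hw
          rcases hw with hw | hw
          · rw [put, List.mem_map] at hw
            obtain ⟨v, hv, rfl⟩ := hw
            rcases Nat.lt_or_ge Ma (m + 1) with h1 | h1
            · exact spl_right (by omega) (ih.1 _ (by omega) v hv Ma (Mb - (m + 1)) (by omega))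
            · exact spl_left h1 (ih.1 _ (by omega) v hv (Ma - (m + 1)) Mb (by omega))
          · rw [List.mem_singleton] at hw
            rw [hw]
            have key : ∀ Ma Mb : ℕ, m + 1 ≤ Ma ∨ m + 1 ≤ Mb → Spl [m] Ma Mb := by
              intro Ma Mb h1
              rcases h1 with h1 | h1
              · exact spl_left h1 (spl_nil _ _)
              · exact spl_right h1 (spl_nil _ _)
            rcases Nat.lt_or_ge Ma (m + 1) with h1 | h1
            · exact spl_right (by omega) (key _ _ (by omega))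
            · exact spl_left h1 (key _ _ (by omega))
        · simp at hw

theorem spl_rich (J m M : ℕ) (b : ℕ → ℝ) (hM : 2 * m ≤ M) (Ma Mb : ℕ) (hab : Ma + Mb = M) :
    ∀ κ, κ ≤ Ma → ∀ w ∈ rich J m M b κ, Spl w.2 Ma Mb := by
  intro κ
  induction κ with
  | zero => intro _ w hw; exact (spl_sv J m).1 M hM w hw Ma Mb hab
  | succ κ ih =>
    intro hκ w hw
    rw [rich, List.mem_append] at hw
    rcases hw with hw | hw
    · exact ih (by omega) w hw
    · split_ifs at hw with h
      · rw [put, List.mem_map] at hw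
        obtain ⟨v, hv, rfl⟩ := hw
        exact spl_left hκ ((spl_sv J m).2 _ v hv (Ma - (κ + 1)) Mb (by omega))
      · simp at hw

theorem mem_rich (J m M : ℕ) (b : ℕ → ℝ) (hJ : J ≤ m) : ∀ κ, m ≤ κ → ∀ w ∈ rich J m M b κ,
    ∀ j ∈ w.2, J ≤ j ∧ j < κ := by
  have key : ∀ κ, ∀ w ∈ rich J m M b κ, ∀ j ∈ w.2, J ≤ j ∧ (j < m ∨ j < κ) := by
    intro κ
    induction κ with
    | zero =>
      intro w hw j hj
      have := mem_sv J m false M w hw j hj
      exact ⟨this.1, Or.inl this.2⟩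
    | succ κ ih =>
      intro w hw j hj
      rw [rich, List.mem_append] at hw
      rcases hw with hw | hw
      · have := ih w hw j hj
        omega
      · split_ifs at hw with h
        · rw [put, List.mem_map] at hw
          obtain ⟨v, hv, rfl⟩ := hw
          rcases List.mem_cons.1 hj with rfl | hj
          · omega
          · have := mem_sv J m _ _ v hv j hj
            omega
        · simp at hw
  intro κ hκ w hw j hj
  have := key κ w hw j hj
  omega

/-- value of a split weight -/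
noncomputable def ev2 (W : List (ℝ × List ℕ × List ℕ)) (k : ℕ → ℕ) : ℝ :=
  (W.map fun c => c.1 * mono (c.2.1 ++ c.2.2) k).sum

/-- model mean of a split weight -/
noncomputable def mv2 (W : List (ℝ × List ℕ × List ℕ)) (μ : ℕ → ℝ) : ℝ :=
  (W.map fun c => c.1 * ((c.2.1 ++ c.2.2).map μ).prod).sum

theorem lift_split (p : List ℕ → List ℕ → Prop) : ∀ (L : List (ℝ × List ℕ)),
    (∀ w ∈ L, ∃ P1 P2 : List ℕ, (P1 ++ P2).Perm w.2 ∧ p P1 P2) →
    ∃ W : List (ℝ × List ℕ × List ℕ), (∀ k, ev2 W k = ev L k) ∧ (∀ μ, mv2 W μ = mv L μ) ∧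
      ∀ w ∈ W, p w.2.1 w.2.2 ∧ ∃ v ∈ L, (w.2.1 ++ w.2.2).Perm v.2 := by
  intro L
  induction L with
  | nil => intro _; exact ⟨[], fun _ => rfl, fun _ => rfl, by simp⟩
  | cons v L ih =>
    intro h
    obtain ⟨W, h1, h2, h3⟩ := ih fun w hw => h w (List.mem_cons_of_mem _ hw)
    obtain ⟨P1, P2, h4, h5⟩ := h v List.mem_cons_self
    refine ⟨(v.1, P1, P2) :: W, ?_, ?_, ?_⟩
    · intro k
      have e1 : ev2 ((v.1, P1, P2) :: W) k = v.1 * mono (P1 ++ P2) k + ev2 W k := by
        simp [ev2]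
      have e2 : ev (v :: L) k = v.1 * mono v.2 k + ev L k := by simp [ev]
      rw [e1, e2, h1 k, mono_perm h4]
    · intro μ
      have e1 : mv2 ((v.1, P1, P2) :: W) μ = v.1 * ((P1 ++ P2).map μ).prod + mv2 W μ := by
        simp [mv2]
      have e2 : mv (v :: L) μ = v.1 * (v.2.map μ).prod + mv L μ := by simp [mv]
      rw [e1, e2, h2 μ, (h4.map μ).prod_eq]
    · intro w hw
      rcases List.mem_cons.1 hw with rfl | hw
      · exact ⟨h5, v, List.mem_cons_self, h4⟩
      · obtain ⟨h6, u, hu, h7⟩ := h3 w hw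
        exact ⟨h6, u, List.mem_cons_of_mem _ hu, h7⟩

end Pool.Agent.H89.P2
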