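import Pool.Agent.H89.P2.Wt
import Pool.Agent.H89.P2.Tr

/-!
[H89 P2 ALL]  The `P_2` weights, arithmetic form (final theorem of the sieve part).
-/

namespace Pool.Agent.H89.P2

open Pool.Agent.H11.PT Finset

/-- For `0 < a ≤ 1/20` there are `J`, `W` such that with `δ = a/J` and `w(n) = ev2 W (kk x δ n)`: the patterns
split into parts of level `x^(1/2-1/2000)` and `x^(1/20-1/2000)`; for large `x` and squarefree `n ≤ x^(1+1/1000)`
without prime factor below `x^a` with `w(n) > 0`: `Ω(n) ≤ 2` and `n < p^8` for all prime factors `p` of `n`;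
`|w(n)| ≤ 2 exp(2/a)` for all `n ≤ x^(1+1/1000)`; the model mean is at least `a/100`, the absolute model mean at most
`1/a`. -/
theorem weights_final (a : ℝ) (ha : 0 < a) (ha1 : a ≤ 1 / 20) :
    ∃ (J : ℕ) (W : List (ℝ × List ℕ × List ℕ)), 0 < J ∧ a / J ≤ 1 / 1000 ∧
      (∀ w ∈ W, ∀ j ∈ w.2.1 ++ w.2.2, J ≤ j ∧ a ≤ (j : ℝ) * (a / J) ∧
        ((j : ℝ) + 1) * (a / J) ≤ 1 / 2 - 1 / 200) ∧
      (∀ w ∈ W, (size w.2.1 : ℝ) * (a / J) ≤ 1 / 2 - 1 / 2000 ∧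
        (size w.2.2 : ℝ) * (a / J) ≤ 1 / 20 - 1 / 2000) ∧
      (∃ x0 : ℝ, ∀ x ≥ x0, ∀ n : ℕ, 0 < n → (n : ℝ) ≤ x ^ (1 + 1 / 1000 : ℝ) →
        ((∀ p, p.Prime → p ∣ n → x ^ a ≤ (p : ℝ)) → Squarefree n →
          0 < ev2 W (kk x (a / J) n) →
          n.primeFactorsList.length ≤ 2 ∧ ∀ p, p.Prime → p ∣ n → n < p ^ 8) ∧
        |ev2 W (kk x (a / J) n)| ≤ 2 * Real.exp (2 / a)) ∧
      a / 100 ≤ mv2 W mu ∧ mva2 W mu ≤ 1 / a := by
  obtain ⟨J0, hJ0, h⟩ := weights_exist a ha ha1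
  set J := max J0 1000 with hJ
  obtain ⟨W, h1, h2, h3, h4, h5, h6, h7⟩ := h J (le_max_left _ _)
  have hJ1000 : 1000 ≤ J := le_max_right _ _
  have hJN : 0 < J := by omega
  have hJR : (1000 : ℝ) ≤ J := by exact_mod_cast hJ1000
  have hJp : (0 : ℝ) < J := by linarith
  have hδs : a / J ≤ 1 / 1000 := by
    rw [div_le_div_iff₀ hJp (by norm_num)]
    linarith
  obtain ⟨x1, hx1⟩ := pos_imp a ha J hJN hδs W h3 h4
  obtain ⟨x2, hx2⟩ := bound_kk a ha J hJN W (fun w hw j hj => (h1 w hw j hj).1) h5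
  refine ⟨J, W, hJN, hδs, ?_, h2, ⟨max x1 x2, ?_⟩, h6, h7⟩
  · intro w hw j hj
    obtain ⟨e1, e2⟩ := h1 w hw j hj
    refine ⟨e1, ?_, e2⟩
    have e3 : (J : ℝ) ≤ j := by exact_mod_cast e1
    have e4 : (J : ℝ) * (a / J) ≤ (j : ℝ) * (a / J) :=
      mul_le_mul_of_nonneg_right e3 (by positivity)
    have e5 : (J : ℝ) * (a / J) = a := by
      field_simp
    linarith
  · intro x hx n hn hnx
    exact ⟨fun hr hsq hpos => hx1 x (le_trans (le_max_left _ _) hx) n hn hnx hr hsq hpos,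
      hx2 x (le_trans (le_max_right _ _) hx) n hn hnx⟩

end Pool.Agent.H89.P2
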