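import Mathlib

/-!
[H89 P2 DF]  The linear sieve in the presieved model: definitions.

A number `n` whose primes lie in the boxes `[x^(j δ), x^((j+1) δ))` is described by the numbers `k j` of its
primes in box `j`.  A pattern is a list of boxes; `mono P k` is the number of tuples of distinct primes of
`n` with pattern `P`.  `sv J m b M` is the lower (`b = false`) or upper (`b = true`) Rosser sieve of level
`M` (sum of the `j + 1`) for the boxes `J ≤ j < m`, as a list of coefficients and patterns.
-/

namespace Pool.Agent.H89.P2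

/-- number of tuples of distinct primes of pattern `P`, when box `j` contains `k j` primes -/
noncomputable def mono (P : List ℕ) (k : ℕ → ℕ) : ℝ :=
  ∏ j ∈ P.toFinset, ((k j).descFactorial (P.count j) : ℝ)

/-- the value of a weight at `k` -/
noncomputable def ev (W : List (ℝ × List ℕ)) (k : ℕ → ℕ) : ℝ :=
  (W.map fun c => c.1 * mono c.2 k).sum

/-- the model mean of a weight, `μ j` = mean number of primes in box `j` -/
noncomputable def mv (W : List (ℝ × List ℕ)) (μ : ℕ → ℝ) : ℝ :=
  (W.map fun c => c.1 * (c.2.map μ).prod).sum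

/-- multiply by `c` and add a prime in box `m` -/
def put (m : ℕ) (c : ℝ) (W : List (ℝ × List ℕ)) : List (ℝ × List ℕ) :=
  W.map fun w => (c * w.1, m :: w.2)

/-- the lower (`false`) and upper (`true`) sieve of level `M` for the boxes `J ≤ j < m` -/
noncomputable def sv (J : ℕ) : ℕ → Bool → ℕ → List (ℝ × List ℕ)
  | 0, _, _ => [(1, [])]
  | m + 1, false, M => sv J m false M ++
      if J ≤ m then put m (-1) (sv J m true (M - (m + 1))) else []
  | m + 1, true, M => sv J m true M ++
      if J ≤ m ∧ 3 * (m + 1) ≤ M then
        put m (-1) (sv J m false (M - (m + 1))) ++ [(1 / 2, [m, m])] else []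

/-- the mass of box `j` -/
noncomputable def mu (j : ℕ) : ℝ := Real.log (((j : ℝ) + 1) / j)

/-- the size of a pattern -/
def size (P : List ℕ) : ℕ := (P.map (· + 1)).sum

theorem ev_nil (k : ℕ → ℕ) : ev [] k = 0 := rfl

theorem ev_append (V W : List (ℝ × List ℕ)) (k : ℕ → ℕ) : ev (V ++ W) k = ev V k + ev W k := by
  simp [ev]

theorem mv_append (V W : List (ℝ × List ℕ)) (μ : ℕ → ℝ) : mv (V ++ W) μ = mv V μ + mv W μ := by
  simp [mv]

theorem mono_nil (k : ℕ → ℕ) : mono [] k = 1 := by simp [mono]

theorem mono_cons (m : ℕ) (P : List ℕ) (k : ℕ → ℕ) (h : m ∉ P) :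
    mono (m :: P) k = k m * mono P k := by
  unfold mono
  rw [List.toFinset_cons, Finset.prod_insert (by simpa using h)]
  have h1 : (m :: P).count m = 1 := by simp [List.count_eq_zero_of_not_mem h]
  rw [h1]
  congr 1
  · simp
  · refine Finset.prod_congr rfl fun j hj => ?_
    have hjm : m ≠ j := by
      rintro rfl
      exact h (by simpa using hj)
    rw [List.count_cons_of_ne hjm]

theorem mono_pair (m : ℕ) (k : ℕ → ℕ) : mono [m, m] k = k m * (k m - 1) := by
  unfold mono
  have : [m, m].toFinset = {m} := by simp
  rw [this, Finset.prod_singleton]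
  have h1 : [m, m].count m = 2 := by simp
  rw [h1]
  rcases Nat.eq_zero_or_pos (k m) with h | h
  · simp [h]
  · simp only [Nat.descFactorial_succ, Nat.descFactorial_zero, Nat.sub_zero, mul_one]
    push_cast [Nat.cast_sub h]
    ring

theorem mono_perm {P Q : List ℕ} (h : P.Perm Q) (k : ℕ → ℕ) : mono P k = mono Q k := by
  unfold mono
  rw [List.toFinset_eq_of_perm _ _ h]
  exact Finset.prod_congr rfl fun j _ => by rw [h.count_eq]

theorem ev_put (m : ℕ) (c : ℝ) (W : List (ℝ × List ℕ)) (k : ℕ → ℕ) (h : ∀ w ∈ W, m ∉ w.2) :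
    ev (put m c W) k = c * k m * ev W k := by
  induction W with
  | nil => simp [ev, put]
  | cons w W ih =>
    have h1 := ih fun v hv => h v (List.mem_cons_of_mem _ hv)
    have h2 : ev (put m c (w :: W)) k = c * w.1 * mono (m :: w.2) k + ev (put m c W) k := by
      simp [ev, put]
    have h3 : ev (w :: W) k = w.1 * mono w.2 k + ev W k := by simp [ev]
    rw [h2, h3, h1, mono_cons m w.2 k (h w (List.mem_cons_self))]
    ring

theorem mv_put (m : ℕ) (c : ℝ) (W : List (ℝ × List ℕ)) (μ : ℕ → ℝ) :
    mv (put m c W) μ = c * μ m * mv W μ := by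
  induction W with
  | nil => simp [mv, put]
  | cons w W ih =>
    have h2 : mv (put m c (w :: W)) μ = c * w.1 * (μ m * (w.2.map μ).prod) + mv (put m c W) μ := by
      simp [mv, put]
    have h3 : mv (w :: W) μ = w.1 * (w.2.map μ).prod + mv W μ := by simp [mv]
    rw [h2, h3, ih]
    ring

/-- the boxes of the patterns of `sv J m b M` lie in `[J, m)` -/
theorem mem_sv (J : ℕ) : ∀ (m : ℕ) (b : Bool) (M : ℕ) (w : ℝ × List ℕ), w ∈ sv J m b M →
    ∀ j ∈ w.2, J ≤ j ∧ j < m := by
  intro m
  induction m with
  | zero =>
    intro b M w hw j hj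
    have : w = (1, []) := by cases b <;> simpa [sv] using hw
    rw [this] at hj
    simp at hj
  | succ m ih =>
    intro b M w hw j hj
    cases b with
    | false =>
      rw [sv, List.mem_append] at hw
      rcases hw with hw | hw
      · have := ih _ _ _ hw j hj
        omega
      · split_ifs at hw with h
        · rw [put, List.mem_map] at hw
          obtain ⟨v, hv, rfl⟩ := hw
          rcases List.mem_cons.1 hj with rfl | hj
          · omega
          · have := ih _ _ _ hv j hj
            omega
        · simp at hw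
    | true =>
      rw [sv, List.mem_append] at hw
      rcases hw with hw | hw
      · have := ih _ _ _ hw j hj
        omega
      · split_ifs at hw with h
        · rw [List.mem_append] at hw
          rcases hw with hw | hw
          · rw [put, List.mem_map] at hw
            obtain ⟨v, hv, rfl⟩ := hw
            rcases List.mem_cons.1 hj with rfl | hj
            · omega
            · have := ih _ _ _ hv j hj
              omega
          · rw [List.mem_singleton] at hw
            rw [hw] at hj
            simp at hj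
            omega
        · simp at hw

theorem notMem_sv (J m : ℕ) (b : Bool) (M : ℕ) (w : ℝ × List ℕ) (hw : w ∈ sv J m b M) : m ∉ w.2 :=
  fun h => by have := mem_sv J m b M w hw m h; omega

/-- recursion of the values: lower sieve -/
theorem ev_low (J m M : ℕ) (k : ℕ → ℕ) : ev (sv J (m + 1) false M) k =
    ev (sv J m false M) k - if J ≤ m then k m * ev (sv J m true (M - (m + 1))) k else 0 := by
  rw [sv, ev_append]
  split_ifs with h
  · rw [ev_put m (-1) _ k (fun w hw => notMem_sv J m _ _ w hw)]
    ring
  · simp [ev]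

/-- recursion of the values: upper sieve -/
theorem ev_up (J m M : ℕ) (k : ℕ → ℕ) : ev (sv J (m + 1) true M) k =
    ev (sv J m true M) k - if J ≤ m ∧ 3 * (m + 1) ≤ M then
      k m * ev (sv J m false (M - (m + 1))) k - k m * (k m - 1) / 2 else 0 := by
  rw [sv, ev_append]
  split_ifs with h
  · rw [ev_append, ev_put m (-1) _ k (fun w hw => notMem_sv J m _ _ w hw)]
    have : ev [(1 / 2, [m, m])] k = 1 / 2 * (k m * (k m - 1)) := by
      simp [ev, mono_pair]
    rw [this]
    ring
  · simp [ev]

/-- recursion of the means: lower sieve -/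
theorem mv_low (J m M : ℕ) (μ : ℕ → ℝ) : mv (sv J (m + 1) false M) μ =
    mv (sv J m false M) μ - if J ≤ m then μ m * mv (sv J m true (M - (m + 1))) μ else 0 := by
  rw [sv, mv_append]
  split_ifs with h
  · rw [mv_put]
    ring
  · simp [mv]

/-- recursion of the means: upper sieve -/
theorem mv_up (J m M : ℕ) (μ : ℕ → ℝ) : mv (sv J (m + 1) true M) μ =
    mv (sv J m true M) μ - if J ≤ m ∧ 3 * (m + 1) ≤ M then
      μ m * mv (sv J m false (M - (m + 1))) μ - μ m ^ 2 / 2 else 0 := by
  rw [sv, mv_append]
  split_ifs with h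
  · rw [mv_append, mv_put]
    have : mv [(1 / 2, [m, m])] μ = 1 / 2 * (μ m * μ m) := by
      simp [mv]
    rw [this]
    ring
  · simp [mv]

theorem ev_zero (J : ℕ) (b : Bool) (M : ℕ) (k : ℕ → ℕ) : ev (sv J 0 b M) k = 1 := by
  cases b <;> simp [sv, ev, mono_nil]

theorem mv_zero (J : ℕ) (b : Bool) (M : ℕ) (μ : ℕ → ℝ) : mv (sv J 0 b M) μ = 1 := by
  cases b <;> simp [sv, mv]

end Pool.Agent.H89.P2
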