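import Pool.Agent.H89.P2.Nu
import Pool.Agent.H89.P2.Ri
import Pool.Agent.H89.P2.Dy

/-!
[H89 P2 FIN]  The `P_2` weights: final statement of the sieve part.

Boxes `[x^(j δ), x^((j+1) δ))` with `δ = a/J`, `j ≥ J`; `Mδ = α ∈ [.5485, .549]`, `M = 20 n`, `m = 5 n`,
`κ = 18 n`, `b j = (1 - (j+1)/(18n))/λ`, `λ = 3 - 3/(18n) - 1.001/(18 n δ) ≥ .97`.
-/

namespace Pool.Agent.H89.P2

/-- Richert's inequality: three primes give total weight at least `1` -/
theorem richert_ge (n : ℕ) (hn : 0 < n) (δ lam : ℝ) (hδ : 0 < δ) (hlam : 0 < lam)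
    (hl : lam = 3 - 3 / (18 * n) - (1 + 1 / 1000) / (18 * n * δ))
    (k : ℕ → ℕ) (B : ℕ) (hk : ∀ j, j < 5 * n → k j = 0)
    (h3 : 3 ≤ ∑ j ∈ Finset.range B, k j)
    (hs : (∑ j ∈ Finset.range B, (k j : ℝ) * j) * δ ≤ 1 + 1 / 1000) :
    1 ≤ ∑ j ∈ Finset.Ico (5 * n) (18 * n), (1 - ((j : ℝ) + 1) / (18 * n)) / lam * k j := by
  have hn0 : (0 : ℝ) < n := by exact_mod_cast hn
  have h1 : ∑ j ∈ Finset.range B, (1 - ((j : ℝ) + 1) / (18 * n)) / lam * k j ≤
      ∑ j ∈ Finset.Ico (5 * n) (18 * n), (1 - ((j : ℝ) + 1) / (18 * n)) / lam * k j := by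
    have e1 : ∑ j ∈ Finset.range B, (1 - ((j : ℝ) + 1) / (18 * n)) / lam * k j ≤
        ∑ j ∈ Finset.range B, if j ∈ Finset.Ico (5 * n) (18 * n) then
          (1 - ((j : ℝ) + 1) / (18 * n)) / lam * k j else 0 := by
      apply Finset.sum_le_sum
      intro j _
      split_ifs with h
      · exact le_refl _
      · rw [Finset.mem_Ico, not_and_or, not_le, not_lt] at h
        rcases h with h | h
        · rw [hk j h]
          simp
        · have h2 : 18 * (n : ℝ) ≤ j := by exact_mod_cast h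
          have h4 : 1 - ((j : ℝ) + 1) / (18 * n) ≤ 0 := by
            rw [sub_nonpos, le_div_iff₀ (by linarith)]
            linarith
          have h5 : (1 - ((j : ℝ) + 1) / (18 * n)) / lam ≤ 0 := div_nonpos_of_nonpos_of_nonneg h4 hlam.le
          exact mul_nonpos_of_nonpos_of_nonneg h5 (Nat.cast_nonneg _)
    refine e1.trans ?_
    rw [← Finset.sum_filter]
    apply Finset.sum_le_sum_of_subset_of_nonneg
    · intro j hj
      exact (Finset.mem_filter.1 hj).2
    · intro j hj _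
      rw [Finset.mem_Ico] at hj
      have h2 : (j : ℝ) + 1 ≤ 18 * n := by
        have : j + 1 ≤ 18 * n := by omega
        exact_mod_cast this
      have h4 : 0 ≤ 1 - ((j : ℝ) + 1) / (18 * n) := by
        rw [sub_nonneg, div_le_one (by linarith)]
        exact h2
      positivity
  refine le_trans ?_ h1
  set r := ∑ j ∈ Finset.range B, (k j : ℝ) with hr
  set T := ∑ j ∈ Finset.range B, (k j : ℝ) * j with hT
  have h3r : 3 ≤ r := by
    rw [hr]
    exact_mod_cast h3
  have e2 : ∑ j ∈ Finset.range B, (1 - ((j : ℝ) + 1) / (18 * n)) / lam * k j =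
      (r - (T + r) / (18 * n)) / lam := by
    rw [hr, hT, ← Finset.sum_add_distrib, Finset.sum_div, ← Finset.sum_sub_distrib, Finset.sum_div]
    apply Finset.sum_congr rfl
    intro j _
    ring
  rw [e2, le_div_iff₀ hlam, one_mul, hl]
  have e3 : T ≤ (1 + 1 / 1000) / δ := by
    rw [le_div_iff₀ hδ]
    exact hs
  have e4 : T / (18 * n) ≤ (1 + 1 / 1000) / (18 * n * δ) := by
    have : (1 + 1 / 1000) / (18 * n * δ) = (1 + 1 / 1000) / δ / (18 * n) := by
      field_simp
    rw [this]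
    exact div_le_div_of_nonneg_right e3 (by linarith)
  have e5 : (T + r) / (18 * n) = T / (18 * n) + r / (18 * n) := add_div _ _ _
  have e6 : 0 ≤ (r - 3) * (1 - 1 / (18 * n)) := by
    apply mul_nonneg (by linarith)
    rw [sub_nonneg, div_le_one (by linarith)]
    have : (1 : ℝ) ≤ n := by exact_mod_cast hn
    linarith
  have e7 : (r - 3) * (1 - 1 / (18 * n)) = r - r / (18 * n) - 3 + 3 / (18 * n) := by ring
  rw [e5]
  linarith

/-- the model mean of Richert's weight -/
theorem rich_mean {A S : ℝ} {F f : ℝ → ℝ} (h : FF A S F f) {J n : ℕ} (hJ : 0 < J) (hJn : J ≤ 2 * n)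
    (hS : 20 * (n : ℝ) ≤ S * J) (lam : ℝ) (hlam : 0 < lam) :
    (J : ℝ) / (5 * n) * (A / 4) * Real.log 3 * (1 - 26 / 27 * (1 + 1 / (5 * n)) / lam) -
      (1 + 6 / lam) * (32 * A * Real.exp (6 * S) / J) ≤
    mv (rich J (5 * n) (20 * n) (fun j => (1 - ((j : ℝ) + 1) / (18 * n)) / lam) (18 * n)) mu := by
  have hA := h.hA
  have hJ0 : (0 : ℝ) < J := by exact_mod_cast hJ
  have hn : 0 < n := by omega
  have hn0 : (0 : ℝ) < n := by exact_mod_cast hn
  have hn1 : (1 : ℝ) ≤ n := by exact_mod_cast hn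
  have hJn' : (J : ℝ) ≤ 2 * n := by exact_mod_cast hJn
  set e0 := 32 * A * Real.exp (6 * S) / J with he0
  have he0' : 0 ≤ e0 := by positivity
  have hEr : ∀ M' : ℝ, 0 ≤ M' → M' ≤ 20 * n → Er A J M' (5 * n) ≤ e0 := by
    intro M' h0 h1
    unfold Er
    have h2 : Real.exp (6 * M' / J) ≤ Real.exp (6 * S) := by
      apply Real.exp_le_exp.2
      rw [div_le_iff₀ hJ0]
      nlinarith
    have h3 : 0 ≤ 2 / (J : ℝ) - 1 / (5 * n) := by
      rw [sub_nonneg, div_le_div_iff₀ (by positivity) hJ0]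
      linarith
    calc 16 * A * Real.exp (6 * M' / J) * (2 / J - 1 / (5 * n))
        ≤ 16 * A * Real.exp (6 * S) * (2 / J) := by
          apply mul_le_mul _ _ h3 (by positivity)
          · exact mul_le_mul_of_nonneg_left h2 (by positivity)
          · have : 0 < 1 / (5 * (n : ℝ)) := by positivity
            linarith
      _ = e0 := by rw [he0]; ring
  rw [mv_rich]
  have hlow := main_low h hJ (m := 5 * n) (M := 20 * n) (by omega) (by omega)
    (by push_cast; exact hS)
  push_cast at hlow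
  have hEr1 := hEr (20 * n) (by positivity) (le_refl _)
  have e1 : 20 * (n : ℝ) / (5 * n) = 4 := by
    field_simp
    norm_num
  rw [e1, h.f4 4 (by norm_num) (le_refl _)] at hlow
  have e2 : (4 : ℝ) - 1 = 3 := by norm_num
  rw [e2] at hlow
  have hup : ∀ j ∈ Finset.Ico (5 * n) (18 * n),
      (1 - ((j : ℝ) + 1) / (18 * n)) / lam * mu j * mv (sv J (5 * n) true (20 * n - (j + 1))) mu ≤
      (J : ℝ) / (5 * n) * A / lam * ((1 - ((j : ℝ) + 1) / (18 * n)) * mu j *
        (5 * n / (20 * n - ((j : ℝ) + 1)))) + 1 / (5 * n) / lam * (2 * e0) := by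
    intro j hj
    rw [Finset.mem_Ico] at hj
    have hj5 : 5 * (n : ℝ) ≤ j := by exact_mod_cast hj.1
    have hj18 : (j : ℝ) + 1 ≤ 18 * n := by
      have : j + 1 ≤ 18 * n := by omega
      exact_mod_cast this
    have hM' : ((20 * n - (j + 1) : ℕ) : ℝ) = 20 * (n : ℝ) - (j + 1) := by
      rw [Nat.cast_sub (by omega)]
      push_cast
      ring
    have h1 := main_up h hJ (m := 5 * n) (M := 20 * n - (j + 1)) (by omega) (by omega)
      (by rw [hM']; linarith)
    rw [hM'] at h1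
    push_cast at h1
    have h2 := hEr (20 * n - (j + 1)) (by linarith) (by linarith)
    have hpos : 0 < 20 * (n : ℝ) - (j + 1) := by linarith
    have h3 : F ((20 * (n : ℝ) - (j + 1)) / (5 * n)) = A * (5 * n / (20 * n - ((j : ℝ) + 1))) := by
      rw [h.F3 _ (by positivity) (by rw [div_le_iff₀ (by linarith)]; linarith)]
      field_simp
    rw [h3] at h1
    have hmu0 := mu_nonneg j (by omega)
    have hmu1 : mu j ≤ 1 / (5 * n) := by
      refine (mu_le j (by omega)).trans ?_
      exact one_div_le_one_div_of_le (by linarith) hj5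
    have hc0 : 0 ≤ 1 - ((j : ℝ) + 1) / (18 * n) := by
      rw [sub_nonneg, div_le_one (by linarith)]
      exact hj18
    have hc1 : 1 - ((j : ℝ) + 1) / (18 * n) ≤ 1 := by
      have : 0 ≤ ((j : ℝ) + 1) / (18 * n) := by positivity
      linarith
    have h4 : mv (sv J (5 * n) true (20 * n - (j + 1))) mu ≤
        (J : ℝ) / (5 * n) * (A * (5 * n / (20 * n - ((j : ℝ) + 1)))) + 2 * e0 := by linarith
    have h5 : 0 ≤ (1 - ((j : ℝ) + 1) / (18 * n)) / lam * mu j := by positivity
    refine (mul_le_mul_of_nonneg_left h4 h5).trans ?_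
    rw [mul_add]
    apply add_le_add
    · apply le_of_eq
      ring
    · apply mul_le_mul_of_nonneg_right _ (by linarith)
      have h6 : (1 - ((j : ℝ) + 1) / (18 * n)) / lam ≤ 1 / lam :=
        div_le_div_of_nonneg_right hc1 hlam.le
      calc (1 - ((j : ℝ) + 1) / (18 * n)) / lam * mu j ≤ 1 / lam * (1 / (5 * n)) :=
            mul_le_mul h6 hmu1 hmu0 (by positivity)
        _ = _ := by ring
  have hsum := Finset.sum_le_sum hup
  rw [Finset.sum_add_distrib, ← Finset.mul_sum, Finset.sum_const, Nat.card_Ico, nsmul_eq_mul] at hsum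
  have hcard : ((18 * n - 5 * n : ℕ) : ℝ) = 13 * n := by
    have : 18 * n - 5 * n = 13 * n := by omega
    rw [this]
    push_cast
    ring
  rw [hcard] at hsum
  have hlarge := sum_large n hn
  have h7 : (J : ℝ) / (5 * n) * A / lam * (∑ j ∈ Finset.Ico (5 * n) (18 * n),
      (1 - ((j : ℝ) + 1) / (18 * n)) * mu j * (5 * n / (20 * n - ((j : ℝ) + 1)))) ≤
      (J : ℝ) / (5 * n) * A / lam * ((1 + 1 / (5 * n)) * (13 / 54 * Real.log 3)) :=
    mul_le_mul_of_nonneg_left hlarge (by positivity)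
  have h8 : 13 * (n : ℝ) * (1 / (5 * n) / lam * (2 * e0)) ≤ 6 / lam * e0 := by
    have : 13 * (n : ℝ) * (1 / (5 * n) / lam * (2 * e0)) = (26 / 5) / lam * e0 := by
      field_simp
      ring
    rw [this]
    apply mul_le_mul_of_nonneg_right _ he0'
    apply div_le_div_of_nonneg_right _ hlam.le
    norm_num
  have h9 : (J : ℝ) / (5 * n) * (A / 4) * Real.log 3 * (1 - 26 / 27 * (1 + 1 / (5 * n)) / lam) =
      (J : ℝ) / (5 * n) * (A / 4 * Real.log 3) -
      (J : ℝ) / (5 * n) * A / lam * ((1 + 1 / (5 * n)) * (13 / 54 * Real.log 3)) := by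
    ring
  rw [h9]
  linarith

end Pool.Agent.H89.P2
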