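import Pool.Agent.H89.P2.Mt

/-!
[H89 P2 NU]  The sum over the large primes in Richert's weights.

`∑_{5n ≤ j < 18n} (1 - (j+1)/(18n)) μ_j 5n/(20n - (j+1)) ≤ (1 + 1/(5n)) I`,
`I = ∫_{5n}^{18n} (1/(4y) - 1/(36(20n-y))) dy = log(18/5)/4 - log(15/2)/36 ≤ (13/54) log 3` (`3^11 ≤ (15/2)^6`).
-/

namespace Pool.Agent.H89.P2

/-- the integrand -/
noncomputable def Gn (n : ℕ) (y : ℝ) : ℝ := 1 / (4 * y) - 1 / (36 * (20 * n - y))

theorem Gn_anti (n : ℕ) (hn : 0 < n) :
    AntitoneOn (Gn n) (Set.Icc ((5 * n : ℕ) : ℝ) ((18 * n : ℕ) : ℝ)) := by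
  have hn0 : (0 : ℝ) < n := by exact_mod_cast hn
  intro a ha b hb hab
  push_cast at ha hb
  unfold Gn
  have ha0 : 0 < a := by linarith [ha.1]
  have h1 : 1 / (4 * b) ≤ 1 / (4 * a) := one_div_le_one_div_of_le (by linarith) (by linarith)
  have h2 : 1 / (36 * (20 * (n : ℝ) - a)) ≤ 1 / (36 * (20 * n - b)) :=
    one_div_le_one_div_of_le (by linarith [hb.2]) (by linarith)
  linarith

theorem Gn_int (n : ℕ) (hn : 0 < n) : ∫ y in ((5 * n : ℕ) : ℝ)..((18 * n : ℕ) : ℝ), Gn n y =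
    Real.log (18 / 5) / 4 - Real.log (15 / 2) / 36 := by
  have hn0 : (0 : ℝ) < n := by exact_mod_cast hn
  have h5 : ((5 * n : ℕ) : ℝ) = 5 * n := by push_cast; ring
  have h18 : ((18 * n : ℕ) : ℝ) = 18 * n := by push_cast; ring
  rw [h5, h18]
  have hle : 5 * (n : ℝ) ≤ 18 * n := by linarith
  have e0 : ∀ y, Gn n y = (1 / 4) * y⁻¹ - (1 / 36) * (20 * (n : ℝ) - y)⁻¹ := by
    intro y
    unfold Gn
    rw [one_div, one_div, mul_inv, mul_inv]
    norm_num
  simp only [e0]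
  have i1 : IntervalIntegrable (fun y : ℝ => (1 / 4) * y⁻¹) MeasureTheory.volume (5 * (n : ℝ))
      (18 * n) := by
    apply ContinuousOn.intervalIntegrable
    apply ContinuousOn.mul continuousOn_const
    apply ContinuousOn.inv₀ continuousOn_id
    intro y hy
    rw [Set.uIcc_of_le hle] at hy
    show y ≠ 0
    have := hy.1
    intro h
    linarith
  have i2 : IntervalIntegrable (fun y : ℝ => (1 / 36) * (20 * (n : ℝ) - y)⁻¹)
      MeasureTheory.volume (5 * (n : ℝ)) (18 * n) := by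
    apply ContinuousOn.intervalIntegrable
    apply ContinuousOn.mul continuousOn_const
    apply ContinuousOn.inv₀ (continuousOn_const.sub continuousOn_id)
    intro y hy
    rw [Set.uIcc_of_le hle] at hy
    have := hy.2
    intro h
    have h' : 20 * (n : ℝ) - y = 0 := h
    linarith
  rw [intervalIntegral.integral_sub i1 i2, intervalIntegral.integral_const_mul,
    intervalIntegral.integral_const_mul,
    intervalIntegral.integral_comp_sub_left (fun y => y⁻¹) (20 * (n : ℝ)),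
    integral_inv_of_pos (by linarith) (by linarith),
    integral_inv_of_pos (by linarith) (by linarith)]
  have e1 : 18 * (n : ℝ) / (5 * n) = 18 / 5 := by field_simp
  have e2 : (20 * (n : ℝ) - 5 * n) / (20 * n - 18 * n) = 15 / 2 := by
    rw [div_eq_div_iff (by linarith) (by norm_num)]
    ring
  rw [e1, e2]
  ring

theorem I_le : Real.log (18 / 5) / 4 - Real.log (15 / 2) / 36 ≤ 13 / 54 * Real.log 3 := by
  have h1 : Real.log (18 / 5) = 3 * Real.log 3 - Real.log (15 / 2) := by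
    have : (18 / 5 : ℝ) = 3 ^ 3 / (15 / 2) := by norm_num
    rw [this, Real.log_div (by norm_num) (by norm_num), Real.log_pow]
    norm_num
  have h2 : 11 * Real.log 3 ≤ 6 * Real.log (15 / 2) := by
    have h3 : Real.log ((3 : ℝ) ^ 11) ≤ Real.log ((15 / 2 : ℝ) ^ 6) :=
      Real.log_le_log (by norm_num) (by norm_num)
    rw [Real.log_pow, Real.log_pow] at h3
    norm_num at h3
    linarith
  rw [h1]
  linarith

theorem sum_large (n : ℕ) (hn : 0 < n) :
    ∑ j ∈ Finset.Ico (5 * n) (18 * n), (1 - ((j : ℝ) + 1) / (18 * n)) * mu j *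
      (5 * n / (20 * n - ((j : ℝ) + 1))) ≤ (1 + 1 / (5 * n)) * (13 / 54 * Real.log 3) := by
  have hn0 : (0 : ℝ) < n := by exact_mod_cast hn
  have h1 : ∑ i ∈ Finset.Ico (5 * n) (18 * n), Gn n ((i + 1 : ℕ) : ℝ) ≤
      ∫ y in ((5 * n : ℕ) : ℝ)..((18 * n : ℕ) : ℝ), Gn n y :=
    (Gn_anti n hn).sum_le_integral_Ico (by omega)
  rw [Gn_int n hn] at h1
  have h2 := h1.trans I_le
  have h3 : ∑ j ∈ Finset.Ico (5 * n) (18 * n), (1 - ((j : ℝ) + 1) / (18 * n)) * mu j *
      (5 * n / (20 * n - ((j : ℝ) + 1))) ≤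
      ∑ j ∈ Finset.Ico (5 * n) (18 * n), (1 + 1 / (5 * n)) * Gn n ((j + 1 : ℕ) : ℝ) := by
    apply Finset.sum_le_sum
    intro j hj
    rw [Finset.mem_Ico] at hj
    have hj0 : 0 < j := by omega
    have hj5 : 5 * (n : ℝ) ≤ j := by exact_mod_cast hj.1
    have hj18 : (j : ℝ) + 1 ≤ 18 * n := by
      have : j + 1 ≤ 18 * n := by omega
      exact_mod_cast this
    have hjR : (0 : ℝ) < j := by linarith
    have hmu := mu_le j hj0
    have hpos : 0 < 20 * (n : ℝ) - (j + 1) := by linarith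
    have h4 : 0 ≤ 1 - ((j : ℝ) + 1) / (18 * n) := by
      rw [sub_nonneg, div_le_one (by linarith)]
      exact hj18
    have e1 : Gn n ((j + 1 : ℕ) : ℝ) = (1 - ((j : ℝ) + 1) / (18 * n)) *
        (5 * n / (20 * n - ((j : ℝ) + 1))) * (1 / ((j : ℝ) + 1)) := by
      unfold Gn
      push_cast
      field_simp
      ring
    have h5 : mu j ≤ (1 + 1 / (5 * n)) * (1 / ((j : ℝ) + 1)) := by
      refine hmu.trans ?_
      have h6 : 1 / (j : ℝ) ≤ 1 / (5 * n) := one_div_le_one_div_of_le (by linarith) hj5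
      have h7 : 1 / (j : ℝ) = (1 + 1 / j) * (1 / ((j : ℝ) + 1)) := by
        field_simp
      rw [h7]
      apply mul_le_mul_of_nonneg_right _ (by positivity)
      linarith
    rw [e1]
    have h8 : 0 ≤ (1 - ((j : ℝ) + 1) / (18 * n)) * (5 * n / (20 * n - ((j : ℝ) + 1))) :=
      mul_nonneg h4 (by positivity)
    calc (1 - ((j : ℝ) + 1) / (18 * n)) * mu j * (5 * n / (20 * n - ((j : ℝ) + 1)))
        = (1 - ((j : ℝ) + 1) / (18 * n)) * (5 * n / (20 * n - ((j : ℝ) + 1))) * mu j := by ring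
      _ ≤ (1 - ((j : ℝ) + 1) / (18 * n)) * (5 * n / (20 * n - ((j : ℝ) + 1))) *
          ((1 + 1 / (5 * n)) * (1 / ((j : ℝ) + 1))) := mul_le_mul_of_nonneg_left h5 h8
      _ = _ := by ring
  refine h3.trans ?_
  rw [← Finset.mul_sum]
  exact mul_le_mul_of_nonneg_left h2 (by positivity)

end Pool.Agent.H89.P2
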