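import Pool.Agent.H89.P2.Df

/-!
[H89 P2 PW]  Pointwise inequalities: lower sieve ≤ indicator ≤ upper sieve, and the trivial bound.
-/

namespace Pool.Agent.H89.P2

open Classical in
/-- indicator of `k` having no prime in the boxes `J ≤ j < m` -/
noncomputable def ind (J m : ℕ) (k : ℕ → ℕ) : ℝ := if ∀ j, J ≤ j → j < m → k j = 0 then 1 else 0

theorem ind_nonneg (J m : ℕ) (k : ℕ → ℕ) : 0 ≤ ind J m k := by
  unfold ind; split_ifs <;> norm_num

theorem ind_le_one (J m : ℕ) (k : ℕ → ℕ) : ind J m k ≤ 1 := by
  unfold ind; split_ifs <;> norm_num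

theorem ind_zero_or_one (J m : ℕ) (k : ℕ → ℕ) : ind J m k = 0 ∨ ind J m k = 1 := by
  unfold ind; split_ifs <;> simp

theorem ind_zero (J : ℕ) (k : ℕ → ℕ) : ind J 0 k = 1 := by
  unfold ind
  rw [if_pos]
  intro j _ h
  omega

theorem ind_succ (J m : ℕ) (k : ℕ → ℕ) :
    ind J (m + 1) k = if J ≤ m ∧ k m ≠ 0 then 0 else ind J m k := by
  by_cases h : J ≤ m ∧ k m ≠ 0
  · rw [if_pos h]
    unfold ind
    rw [if_neg]
    intro h1
    exact h.2 (h1 m h.1 (Nat.lt_succ_self m))
  · rw [if_neg h]
    unfold ind
    congr 1
    apply propext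
    constructor
    · intro h1 j hj hjm
      exact h1 j hj (Nat.lt_succ_of_lt hjm)
    · intro h1 j hj hjm
      rcases Nat.lt_succ_iff_lt_or_eq.1 hjm with h2 | h2
      · exact h1 j hj h2
      · rw [h2] at hj ⊢
        by_contra h4
        exact h ⟨hj, h4⟩

theorem pw (J : ℕ) (k : ℕ → ℕ) : ∀ (m M : ℕ), ev (sv J m false M) k ≤ ind J m k ∧
    ind J m k ≤ ev (sv J m true M) k := by
  intro m
  induction m with
  | zero =>
    intro M
    rw [ev_zero, ev_zero, ind_zero]
    exact ⟨le_refl _, le_refl _⟩
  | succ m ih =>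
    intro M
    have hI0 := ind_nonneg J m k
    have hI1 := ind_le_one J m k
    constructor
    · rw [ev_low, ind_succ]
      have h1 := (ih M).1
      have h2 := (ih (M - (m + 1))).2
      by_cases hJ : J ≤ m
      · rw [if_pos hJ]
        by_cases hk : k m = 0
        · rw [if_neg (by simp [hk]), hk]
          simp only [Nat.cast_zero, zero_mul, sub_zero]
          exact h1
        · rw [if_pos ⟨hJ, hk⟩]
          have hk1 : (1 : ℝ) ≤ k m := by exact_mod_cast Nat.one_le_iff_ne_zero.2 hk
          have h3 : ind J m k ≤ k m * ev (sv J m true (M - (m + 1))) k := by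
            calc ind J m k = 1 * ind J m k := (one_mul _).symm
              _ ≤ k m * ev (sv J m true (M - (m + 1))) k :=
                mul_le_mul hk1 h2 hI0 (by linarith)
          linarith
      · rw [if_neg hJ, if_neg (by tauto)]
        linarith
    · rw [ev_up, ind_succ]
      have h1 := (ih M).2
      have h2 := (ih (M - (m + 1))).1
      by_cases hk : k m = 0
      · have e1 : (if J ≤ m ∧ k m ≠ 0 then (0 : ℝ) else ind J m k) = ind J m k := by
          rw [if_neg (by simp [hk])]
        rw [e1, hk]
        simp only [Nat.cast_zero, zero_mul, zero_div, sub_self, ite_self, sub_zero]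
        exact h1
      · by_cases hJ : J ≤ m
        · rw [if_pos ⟨hJ, hk⟩]
          have hk1 : 1 ≤ k m := Nat.one_le_iff_ne_zero.2 hk
          have hk1' : (1 : ℝ) ≤ k m := by exact_mod_cast hk1
          split_ifs with h3
          · have h4 : (k m : ℝ) * ev (sv J m false (M - (m + 1))) k ≤ k m * ind J m k :=
              mul_le_mul_of_nonneg_left h2 (by linarith)
            have h5 : (k m : ℝ) * ind J m k - k m * (k m - 1) / 2 ≤ ind J m k := by
              rcases ind_zero_or_one J m k with h | h
              · rw [h]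
                nlinarith
              · rw [h]
                have h6 : (0 : ℝ) ≤ ((k m : ℝ) - 1) * ((k m : ℝ) - 2) := by
                  rcases Nat.lt_or_ge (k m) 2 with h7 | h7
                  · have : k m = 1 := by omega
                    rw [this]; norm_num
                  · have : (2 : ℝ) ≤ k m := by exact_mod_cast h7
                    exact mul_nonneg (by linarith) (by linarith)
                nlinarith
            linarith
          · linarith
        · rw [if_neg (by tauto), if_neg (by tauto)]
          linarith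

theorem ev_bound (J : ℕ) (k : ℕ → ℕ) : ∀ (m : ℕ) (b : Bool) (M : ℕ),
    |ev (sv J m b M) k| ≤ Real.exp (∑ j ∈ Finset.range m, (k j : ℝ)) := by
  intro m
  induction m with
  | zero =>
    intro b M
    rw [ev_zero]
    simp
  | succ m ih =>
    intro b M
    rw [Finset.sum_range_succ, Real.exp_add]
    set E := Real.exp (∑ j ∈ Finset.range m, (k j : ℝ)) with hE
    have hE1 : 1 ≤ E := by
      rw [hE]
      apply Real.one_le_exp
      exact Finset.sum_nonneg fun j _ => Nat.cast_nonneg _
    have hk0 : (0 : ℝ) ≤ k m := Nat.cast_nonneg _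
    have hexp : 1 + (k m : ℝ) + (k m : ℝ) ^ 2 / 2 ≤ Real.exp (k m) :=
      Real.quadratic_le_exp_of_nonneg hk0
    have hmain : E * (1 + (k m : ℝ) + (k m : ℝ) ^ 2 / 2) ≤ E * Real.exp (k m) :=
      mul_le_mul_of_nonneg_left hexp (by linarith)
    have hkk : 0 ≤ (k m : ℝ) * (k m - 1) := by
      rcases Nat.eq_zero_or_pos (k m) with h | h
      · rw [h]; norm_num
      · have : (1 : ℝ) ≤ k m := by exact_mod_cast h
        exact mul_nonneg hk0 (by linarith)
    cases b with
    | false =>
      rw [ev_low]
      have h1 := ih false M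
      have h2 := ih true (M - (m + 1))
      rw [abs_le] at h1 h2
      have h3 : (k m : ℝ) * ev (sv J m true (M - (m + 1))) k ≤ k m * E :=
        mul_le_mul_of_nonneg_left h2.2 hk0
      have h4 : (k m : ℝ) * (-E) ≤ k m * ev (sv J m true (M - (m + 1))) k :=
        mul_le_mul_of_nonneg_left h2.1 hk0
      have h5 : 0 ≤ E * ((k m : ℝ) ^ 2 / 2) := by positivity
      have h6 : 0 ≤ E * (k m : ℝ) := by positivity
      rw [abs_le]
      split_ifs <;> constructor <;> nlinarith
    | true =>
      rw [ev_up]
      have h1 := ih true M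
      have h2 := ih false (M - (m + 1))
      rw [abs_le] at h1 h2
      have h3 : (k m : ℝ) * ev (sv J m false (M - (m + 1))) k ≤ k m * E :=
        mul_le_mul_of_nonneg_left h2.2 hk0
      have h4 : (k m : ℝ) * (-E) ≤ k m * ev (sv J m false (M - (m + 1))) k :=
        mul_le_mul_of_nonneg_left h2.1 hk0
      have h5 : 0 ≤ E * ((k m : ℝ) ^ 2 / 2) := by positivity
      have h6 : 0 ≤ E * (k m : ℝ) := by positivity
      have h7 : (k m : ℝ) * (k m - 1) / 2 ≤ E * ((k m : ℝ) ^ 2 / 2) := by nlinarith
      rw [abs_le]
      split_ifs <;> constructor <;> nlinarith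

end Pool.Agent.H89.P2
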