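import Pool.Agent.H89.P2.Dy

/-!
[H89 P2 UA]  The constant of the linear sieve: `A ≤ 2/.553`.

`ff_exists1` is `ff_exists` with the additional information `F S = 1`.  With `Q s = s (F s + f s)` one has
`Q b - Q a = ∫_a^b Q(t-1)/(t-1) dt` (Buchstab) and `Q s ≥ A (1 + log (s-1)) ≥ .553 A s` on `[2.36, 3.36]`
(concavity), hence `Q s ≥ .553 A s` on `[2.36, S]` by induction over unit intervals, and
`.553 A S ≤ Q S = S (1 + f S) ≤ 2 S`.
-/

namespace Pool.Agent.H89.P2

open MeasureTheory Set DD

/-- existence of the functions of the linear sieve on `(0, S]`, normalised by `F S = 1` -/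
theorem ff_exists1 (S : ℝ) (hS : 4 ≤ S) : ∃ (A : ℝ) (F f : ℝ → ℝ), FF A S F f ∧ F S = 1 := by
  obtain ⟨Φ, φ, h⟩ := dd_exists S hS
  obtain ⟨hAnt, hMon⟩ := h.mono
  set c := Fh Φ S with hc
  have hcpos : 0 < c := by
    have h1 := h.Fh_sub S (by linarith) (le_refl _)
    have h2 : 0 ≤ Fh φ S := by
      rw [Fh_eq φ S (by linarith)]
      exact div_nonneg (h.nφ S) (by linarith)
    linarith
  have hA0 : 0 < 1 / c := by positivity
  have mS : S ∈ Icc (1 : ℝ) S := ⟨by linarith, le_refl _⟩
  have F_ge : ∀ s, 1 ≤ s → s ≤ S → 1 ≤ 1 / c * (Φ s / s) := by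
    intro s h1 h2
    have h3 := hAnt ⟨h1, h2⟩ mS h2
    rw [Fh_eq Φ s h1] at h3
    rw [one_div, ← div_eq_inv_mul, le_div_iff₀ hcpos]
    linarith
  have hA3 : 3 ≤ 1 / c := by
    have h1 := F_ge 3 (by norm_num) (by linarith)
    rw [h.Φ1 3 (le_refl _)] at h1
    linarith
  have f_eq : ∀ s, 1 ≤ s → 1 / c * (φ s / max 1 s) = 1 / c * (φ s / s) := by
    intro s hs
    rw [max_eq_right hs]
  have f_small : ∀ s, s ≤ 2 → 1 / c * (φ s / max 1 s) = 0 := by
    intro s hs
    rw [h.φ0 s hs, zero_div, mul_zero]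
  have F_small : ∀ s, s ≤ 3 → 1 / c * (Φ s / s) = 1 / c / s := by
    intro s hs
    rw [h.Φ1 s hs]
    ring
  have hFS : 1 / c * (Φ S / S) = 1 := by
    rw [← Fh_eq Φ S (by linarith), ← hc]
    exact one_div_mul_cancel hcpos.ne'
  refine ⟨1 / c, fun s => 1 / c * (Φ s / s), fun s => 1 / c * (φ s / max 1 s), ⟨hS, hA3,
    ?_, ?_, ?_, ?_, ?_, ?_, ?_, ?_, ?_, ?_, ?_⟩, hFS⟩
  · intro s _ h2
    exact F_small s h2
  · intro s hs
    exact f_small s hs
  · apply ContinuousOn.mul continuousOn_const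
    apply ContinuousOn.div h.cΦ.continuousOn continuousOn_id
    intro s hs
    exact ne_of_gt (mem_Ioi.1 hs)
  · exact continuous_const.mul (cont_div h.cφ)
  · intro a b ha hab hb
    show b * (1 / c * (Φ b / b)) - a * (1 / c * (Φ a / a)) =
      ∫ t in a..b, 1 / c * (φ (t - 1) / max 1 (t - 1))
    have hb0 : b ≠ 0 := by linarith
    have ha0 : a ≠ 0 := by linarith
    have e1 : b * (1 / c * (Φ b / b)) - a * (1 / c * (Φ a / a)) = 1 / c * (Φ b - Φ a) := by
      field_simp
    rw [e1, intervalIntegral.integral_const_mul]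
    congr 1
    rw [h.eΦ b hb, h.eΦ a (by linarith), max_eq_right (by linarith : (1:ℝ) ≤ b - 1),
      max_eq_right (by linarith : (1:ℝ) ≤ a - 1)]
    rw [intervalIntegral.integral_comp_sub_right (fun t => φ t / max 1 t) 1]
    rw [add_sub_add_left_eq_sub]
    exact intervalIntegral.integral_interval_sub_left ((cont_div h.cφ).intervalIntegrable _ _)
      ((cont_div h.cφ).intervalIntegrable _ _)
  · intro a b ha hab hb
    show b * (1 / c * (φ b / max 1 b)) - a * (1 / c * (φ a / max 1 a)) =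
      ∫ t in a..b, 1 / c * (Φ (t - 1) / (t - 1))
    have hb0 : b ≠ 0 := by linarith
    have ha0 : a ≠ 0 := by linarith
    rw [max_eq_right (by linarith : (1:ℝ) ≤ b), max_eq_right (by linarith : (1:ℝ) ≤ a)]
    have e1 : b * (1 / c * (φ b / b)) - a * (1 / c * (φ a / a)) = 1 / c * (φ b - φ a) := by
      field_simp
    rw [e1, intervalIntegral.integral_const_mul]
    congr 1
    rw [h.eφ b, h.eφ a, max_eq_right (by linarith : (1:ℝ) ≤ b - 1),
      max_eq_right (by linarith : (1:ℝ) ≤ a - 1)]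
    have e2 : ∫ t in a..b, Φ (t - 1) / (t - 1) = ∫ t in a..b, Φ (t - 1) / max 1 (t - 1) := by
      apply intervalIntegral.integral_congr
      intro t ht
      rw [uIcc_of_le hab] at ht
      show Φ (t - 1) / (t - 1) = Φ (t - 1) / max 1 (t - 1)
      rw [max_eq_right (by linarith [ht.1])]
    rw [e2, intervalIntegral.integral_comp_sub_right (fun t => Φ t / max 1 t) 1]
    exact intervalIntegral.integral_interval_sub_left ((cont_div h.cΦ).intervalIntegrable _ _)
      ((cont_div h.cΦ).intervalIntegrable _ _)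
  · intro s h1 h2
    show 1 ≤ 1 / c * (Φ s / s)
    rcases le_or_gt 1 s with h3 | h3
    · exact F_ge s h3 h2
    · rw [F_small s (by linarith), le_div_iff₀ h1]
      linarith
  · intro s _
    show 0 ≤ 1 / c * (φ s / max 1 s)
    apply mul_nonneg hA0.le
    exact div_nonneg (h.nφ s) (by linarith [le_max_left (1 : ℝ) s])
  · intro s hs
    show 1 / c * (φ s / max 1 s) ≤ 1
    rcases le_or_gt 1 s with h3 | h3
    · have h4 := hMon ⟨h3, hs⟩ mS hs
      have h5 := h.Fh_sub S (by linarith) (le_refl _)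
      have h6 : Fh φ s = φ s / max 1 s := rfl
      rw [← h6, one_div, ← div_eq_inv_mul, div_le_one hcpos]
      linarith
    · rw [f_small s (by linarith)]
      exact zero_le_one
  · intro a b ha hab hb
    show 1 / c * (Φ b / b) ≤ 1 / c * (Φ a / a)
    apply mul_le_mul_of_nonneg_left _ hA0.le
    rcases le_or_gt 1 a with h3 | h3
    · have h4 := hAnt ⟨h3, by linarith⟩ ⟨by linarith, hb⟩ hab
      rw [Fh_eq Φ a h3, Fh_eq Φ b (by linarith)] at h4
      exact h4
    · rw [h.Φ1 a (by linarith)]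
      rcases le_or_gt 1 b with h5 | h5
      · have h4 := hAnt ⟨le_refl _, by linarith⟩ ⟨h5, hb⟩ h5
        rw [Fh_eq Φ 1 (le_refl _), Fh_eq Φ b h5, h.Φ1 1 (by norm_num)] at h4
        refine h4.trans ?_
        rw [div_one, le_div_iff₀ ha]
        linarith
      · rw [h.Φ1 b (by linarith)]
        exact one_div_le_one_div_of_le ha hab
  · intro a b hab hb
    show 1 / c * (φ a / max 1 a) ≤ 1 / c * (φ b / max 1 b)
    rcases le_or_gt 1 a with h3 | h3
    · exact mul_le_mul_of_nonneg_left (hMon ⟨h3, by linarith⟩ ⟨by linarith, hb⟩ hab) hA0.le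
    · rw [f_small a (by linarith)]
      apply mul_nonneg hA0.le
      exact div_nonneg (h.nφ b) (by linarith [le_max_left (1 : ℝ) b])

/-- the lower bound on `[2.36, 3.36]` -/
theorem log_line (s : ℝ) (h1 : 236 / 100 ≤ s) (h2 : s ≤ 336 / 100) :
    553 / 1000 * s ≤ 1 + Real.log (s - 1) := by
  have e1 : (305084 / 1000000 : ℝ) ≤ Real.log (136 / 100) := by
    have h := Real.le_log_one_add_of_nonneg (x := 36 / 100) (by norm_num)
    have e : (1 : ℝ) + 36 / 100 = 136 / 100 := by norm_num
    rw [e] at h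
    refine le_trans ?_ h
    norm_num
  have e2 : (858 / 1000 : ℝ) + 8 / 100000 ≤ Real.log (236 / 100) := by
    have h := Real.le_log_one_add_of_nonneg (x := 18 / 100) (by norm_num)
    have e : (236 / 100 : ℝ) = 2 * (1 + 18 / 100) := by norm_num
    rw [e, Real.log_mul (by norm_num) (by norm_num)]
    have h3 := Real.log_two_gt_d9
    have h4 : (165137 / 1000000 : ℝ) ≤ 2 * (18 / 100) / (18 / 100 + 2) := by norm_num
    linarith
  have hc : ConcaveOn ℝ (Ioi (0 : ℝ)) Real.log := strictConcaveOn_log_Ioi.concaveOn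
  set w : ℝ := s - 236 / 100 with hw
  have h3 := hc.2 (show (136 / 100 : ℝ) ∈ Ioi (0 : ℝ) by norm_num [mem_Ioi])
    (show (236 / 100 : ℝ) ∈ Ioi (0 : ℝ) by norm_num [mem_Ioi])
    (show (0 : ℝ) ≤ 1 - w by linarith) (show (0 : ℝ) ≤ w by linarith) (by ring)
  simp only [smul_eq_mul] at h3
  have e3 : (1 - w) * (136 / 100) + w * (236 / 100) = s - 1 := by
    rw [hw]
    ring
  rw [e3] at h3
  have h4 : (1 - w) * (305084 / 1000000) ≤ (1 - w) * Real.log (136 / 100) :=
    mul_le_mul_of_nonneg_left e1 (by linarith)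
  have h5 : w * (858 / 1000 + 8 / 100000) ≤ w * Real.log (236 / 100) :=
    mul_le_mul_of_nonneg_left e2 (by linarith)
  linarith

namespace FF

variable {A S : ℝ} {F f : ℝ → ℝ}

theorem Q_mid (h : FF A S F f) (s : ℝ) (h1 : 236 / 100 ≤ s) (h2 : s ≤ 336 / 100) :
    553 / 1000 * A * s ≤ s * (F s + f s) := by
  have hA := h.hA
  have h3 := h.sF_mono 2 s (by norm_num) (by linarith) (by linarith [h.hS])
  rw [h.F3 2 (by norm_num) (by norm_num)] at h3
  have h4 := h.f4 s (by linarith) (by linarith)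
  have hs : s ≠ 0 := by linarith
  have h5 : s * f s = A * Real.log (s - 1) := by
    rw [h4]
    field_simp
  have h6 := log_line s h1 h2
  have h7 : A * (553 / 1000 * s) ≤ A * (1 + Real.log (s - 1)) :=
    mul_le_mul_of_nonneg_left h6 (by linarith)
  rw [mul_add, h5]
  have h8 : 2 * (A / 2) = A := by ring
  rw [h8] at h3
  linarith

theorem Q_all (h : FF A S F f) : ∀ (n : ℕ) (s : ℝ), 236 / 100 ≤ s → s ≤ 336 / 100 + n → s ≤ S →
    553 / 1000 * A * s ≤ s * (F s + f s) := by
  have hA := h.hA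
  intro n
  induction n with
  | zero =>
    intro s h1 h2 _
    rw [Nat.cast_zero, add_zero] at h2
    exact h.Q_mid s h1 h2
  | succ n ih =>
    intro s h1 h2 h3
    rcases le_or_gt s (336 / 100) with h4 | h4
    · exact h.Q_mid s h1 h4
    · have e1 := h.eF (336 / 100) s (by norm_num) h4.le h3
      have e2 := h.ef (336 / 100) s (by norm_num) h4.le h3
      have i1 := h.intF (336 / 100) s (by norm_num) h4.le
      have i2 := h.intf (336 / 100) s
      have e3 := h.Q_mid (336 / 100) (by norm_num) (le_refl _)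
      have e4 : ∫ _t in (336 / 100 : ℝ)..s, (553 / 1000 * A) ≤
          ∫ t in (336 / 100 : ℝ)..s, (F (t - 1) + f (t - 1)) := by
        apply intervalIntegral.integral_mono_on h4.le (by simp) (i1.add i2)
        intro t ht
        have ht1 : 336 / 100 ≤ t := ht.1
        have ht2 : t ≤ s := ht.2
        have h5 := ih (t - 1) (by linarith) (by push_cast at h2; linarith) (by linarith)
        have h6 : 0 < t - 1 := by linarith
        have h7 : (t - 1) * (553 / 1000 * A) ≤ (t - 1) * (F (t - 1) + f (t - 1)) := by linarith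
        exact le_of_mul_le_mul_left h7 h6
      rw [intervalIntegral.integral_const, smul_eq_mul, intervalIntegral.integral_add i1 i2,
        ← e1, ← e2] at e4
      nlinarith

/-- the bound for the constant of the linear sieve -/
theorem A_le (h : FF A S F f) (h1 : F S = 1) : A ≤ 2000 / 553 := by
  have hS := h.hS
  obtain ⟨n, hn⟩ := exists_nat_ge S
  have h2 := h.Q_all n S (by linarith) (by linarith) (le_refl _)
  have h3 := h.f1 S (le_refl _)
  rw [h1] at h2
  have h4 : S * (1 + f S) ≤ S * 2 := mul_le_mul_of_nonneg_left (by linarith) (by linarith)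
  have h5 : S * (553 / 1000 * A) ≤ S * 2 := by linarith
  have h6 : 553 / 1000 * A ≤ 2 := le_of_mul_le_mul_left h5 (by linarith)
  linarith

end FF

end Pool.Agent.H89.P2
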